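import Pool.Agent.Run7.h737.ON.Iface

/-! # The abstract exchange inequality (helper962) -/

set_option autoImplicit false

open scoped Classical
open Finset

noncomputable section

namespace Pool.Agent.H737ON

/-- the exchange identity -/
theorem abs_exch {α : Type} (A : Finset α) (w : α → ℝ) (G S : α → Finset ℕ) (σ : ℕ → α → α) (y : ℝ)
    (hSG : ∀ ω, S ω ⊆ G ω)
    (h1 : ∀ ω ∈ A, ∀ r ∈ G ω, σ r ω ∈ A ∧ σ r (σ r ω) = ω ∧ G (σ r ω) = G ω ∧ (r ∈ S (σ r ω) ↔ r ∉ S ω))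
    (h2 : ∀ ω ∈ A, ∀ r ∈ G ω, r ∉ S ω → w (σ r ω) = y * w ω) (Ψ : α → ℝ) :
    ∑ ω ∈ A, w ω * (((S ω).card : ℝ) * Ψ ω) = y * ∑ ω ∈ A, w ω * ∑ r ∈ G ω \ S ω, Ψ (σ r ω) := by
  have e1 : ∑ ω ∈ A, w ω * (((S ω).card : ℝ) * Ψ ω) = ∑ x ∈ A.sigma S, w x.1 * Ψ x.1 := by
    rw [Finset.sum_sigma]
    apply Finset.sum_congr rfl
    intro ω _
    show _ = ∑ _r ∈ S ω, w ω * Ψ ω
    rw [Finset.sum_const, nsmul_eq_mul]
    ring
  have e2 : y * ∑ ω ∈ A, w ω * ∑ r ∈ G ω \ S ω, Ψ (σ r ω) =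
      ∑ x ∈ A.sigma (fun ω => G ω \ S ω), y * w x.1 * Ψ (σ x.2 x.1) := by
    rw [Finset.sum_sigma, Finset.mul_sum]
    apply Finset.sum_congr rfl
    intro ω _
    rw [Finset.mul_sum, Finset.mul_sum]
    apply Finset.sum_congr rfl
    intro r _
    ring
  rw [e1, e2]
  refine Finset.sum_bij' (fun x _ => (⟨σ x.2 x.1, x.2⟩ : (_ : α) × ℕ)) (fun x _ => ⟨σ x.2 x.1, x.2⟩)
    ?_ ?_ ?_ ?_ ?_
  · rintro ⟨ω, r⟩ hx
    rw [Finset.mem_sigma] at hx
    obtain ⟨hω, hr⟩ := hx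
    obtain ⟨h3, h4, h5, h6⟩ := h1 ω hω r (hSG ω hr)
    rw [Finset.mem_sigma, Finset.mem_sdiff]
    refine ⟨h3, ?_, ?_⟩
    · show r ∈ G (σ r ω)
      rw [h5]
      exact hSG ω hr
    · intro h7
      exact h6.1 h7 hr
  · rintro ⟨ω, r⟩ hx
    rw [Finset.mem_sigma, Finset.mem_sdiff] at hx
    obtain ⟨hω, hr, hr'⟩ := hx
    obtain ⟨h3, h4, h5, h6⟩ := h1 ω hω r hr
    rw [Finset.mem_sigma]
    exact ⟨h3, h6.2 hr'⟩
  · rintro ⟨ω, r⟩ hx
    rw [Finset.mem_sigma] at hx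
    obtain ⟨hω, hr⟩ := hx
    obtain ⟨h3, h4, h5, h6⟩ := h1 ω hω r (hSG ω hr)
    simp only [h4]
  · rintro ⟨ω, r⟩ hx
    rw [Finset.mem_sigma, Finset.mem_sdiff] at hx
    obtain ⟨hω, hr, hr'⟩ := hx
    obtain ⟨h3, h4, h5, h6⟩ := h1 ω hω r hr
    simp only [h4]
  · rintro ⟨ω, r⟩ hx
    rw [Finset.mem_sigma] at hx
    obtain ⟨hω, hr⟩ := hx
    obtain ⟨h3, h4, h5, h6⟩ := h1 ω hω r (hSG ω hr)
    have h7 := h2 (σ r ω) h3 r (by rw [h5]; exact hSG ω hr) (fun h8 => h6.1 h8 hr)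
    rw [h4] at h7
    simp only [h4, h7]

theorem t_ABS : J_ABS := by
  intro α Ω w G S σ l F g y η τ hy hη hτ hw hSG h1 h2 hF hg
  set A := Ω.filter (fun ω => τ ≤ (G ω).card) with hA
  have hAΩ : ∀ ω ∈ A, ω ∈ Ω := fun ω h => (mem_filter.1 h).1
  have hAτ : ∀ ω ∈ A, τ ≤ (G ω).card := fun ω h => (mem_filter.1 h).2
  have hτr : (1 : ℝ) ≤ τ := by exact_mod_cast hτ
  have hTτ : ∀ ω ∈ A, (τ : ℝ) ≤ (G ω).card := fun ω h => by exact_mod_cast hAτ ω h
  have hT0 : ∀ ω ∈ A, (0 : ℝ) < (G ω).card := fun ω h => lt_of_lt_of_le (by linarith) (hTτ ω h)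
  have hwA : ∀ ω ∈ A, 0 ≤ w ω := fun ω h => hw ω (hAΩ ω h)
  have hy1 : 0 < 1 + y := by linarith
  have hex := abs_exch A w G S σ y hSG
    (fun ω hω r hr => by
      obtain ⟨h3, h4, h5, _, h6, _⟩ := h1 ω (hAΩ ω hω) r hr
      refine ⟨?_, h4, h5, h6⟩
      rw [hA, mem_filter, h5]
      exact ⟨h3, hAτ ω hω⟩)
    (fun ω hω r hr hr' => (h2 ω (hAΩ ω hω) r hr hr').2)
  -- the number of four-edge levels after a flip
  have hcard : ∀ ω ∈ A, ∀ r ∈ G ω \ S ω, ((S (σ r ω)).card : ℝ) = (S ω).card + 1 := by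
    intro ω hω r hr
    rw [mem_sdiff] at hr
    obtain ⟨_, _, _, h4, h6, _⟩ := h1 ω (hAΩ ω hω) r hr.1
    have h5 : S (σ r ω) = insert r (S ω) := by
      ext s
      rw [mem_insert]
      by_cases hs : s = r
      · subst hs
        exact ⟨fun _ => Or.inl rfl, fun _ => h6.2 hr.2⟩
      · rw [h4 s hs]
        exact ⟨Or.inr, fun h => h.resolve_left hs⟩
    rw [h5, Finset.card_insert_of_notMem hr.2]
    push_cast
    rfl
  have hGcard : ∀ ω ∈ A, ∀ r ∈ G ω \ S ω, ((G (σ r ω)).card : ℝ) = (G ω).card := by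
    intro ω hω r hr
    rw [mem_sdiff] at hr
    rw [(h1 ω (hAΩ ω hω) r hr.1).2.2.1]
  have hdiff : ∀ ω, ((G ω \ S ω).card : ℝ) = (G ω).card - (S ω).card := by
    intro ω
    have h3 := Finset.card_sdiff_add_card_eq_card (hSG ω)
    have h4 : ((G ω \ S ω).card : ℝ) + (S ω).card = (G ω).card := by exact_mod_cast h3
    linarith
  have hNT : ∀ ω, ((S ω).card : ℝ) ≤ (G ω).card := fun ω => by exact_mod_cast Finset.card_le_card (hSG ω)
  set T : α → ℝ := fun ω => ((G ω).card : ℝ) with hT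
  set N : α → ℝ := fun ω => ((S ω).card : ℝ) with hN
  set p : ℝ := y / (1 + y) with hp
  set q : ℝ := 1 / (1 + y) with hq
  have hp0 : 0 < p := by positivity
  have hq0 : 0 < q := by positivity
  have hpq : p + q = 1 := by rw [hp, hq]; field_simp; ring
  have hyq : y * q = p := by rw [hp, hq]; ring
  set X : α → ℝ := fun ω => N ω - T ω * p with hX
  -- functions of (T, N)
  have hfun : ∀ f : ℝ → ℝ → ℝ, ∑ ω ∈ A, w ω * (N ω * f (T ω) (N ω)) =
      y * ∑ ω ∈ A, w ω * ((T ω - N ω) * f (T ω) (N ω + 1)) := by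
    intro f
    have h3 := hex (fun ω => f (T ω) (N ω))
    rw [h3]
    congr 1
    apply Finset.sum_congr rfl
    intro ω hω
    congr 1
    have h4 : ∀ r ∈ G ω \ S ω, f (T (σ r ω)) (N (σ r ω)) = f (T ω) (N ω + 1) := by
      intro r hr
      show f ((G (σ r ω)).card : ℝ) ((S (σ r ω)).card : ℝ) = _
      rw [hGcard ω hω r hr, hcard ω hω r hr]
    rw [Finset.sum_congr rfl h4, Finset.sum_const, nsmul_eq_mul, hdiff]
  -- (1), (2)
  have hX2 : ∑ ω ∈ A, w ω * (X ω / T ω ^ 2) = 0 := by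
    have h3 := hfun (fun t _ => 1 / t ^ 2)
    have h4 : ∑ ω ∈ A, w ω * (N ω * (1 / T ω ^ 2)) - y * ∑ ω ∈ A, w ω * ((T ω - N ω) * (1 / T ω ^ 2)) =
        (1 + y) * ∑ ω ∈ A, w ω * (X ω / T ω ^ 2) := by
      rw [Finset.mul_sum, Finset.mul_sum, ← Finset.sum_sub_distrib]
      apply Finset.sum_congr rfl
      intro ω hω
      have hT' : T ω ≠ 0 := (hT0 ω hω).ne'
      simp only [hX, hp]
      field_simp
      ring
    rw [h3, sub_self] at h4
    exact (mul_eq_zero.1 h4.symm).resolve_left hy1.ne'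
  have hX1 : ∑ ω ∈ A, w ω * (X ω / T ω) = 0 := by
    have h3 := hfun (fun t _ => 1 / t)
    have h4 : ∑ ω ∈ A, w ω * (N ω * (1 / T ω)) - y * ∑ ω ∈ A, w ω * ((T ω - N ω) * (1 / T ω)) =
        (1 + y) * ∑ ω ∈ A, w ω * (X ω / T ω) := by
      rw [Finset.mul_sum, Finset.mul_sum, ← Finset.sum_sub_distrib]
      apply Finset.sum_congr rfl
      intro ω hω
      have hT' : T ω ≠ 0 := (hT0 ω hω).ne'
      simp only [hX, hp]
      field_simp
      ring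
    rw [h3, sub_self] at h4
    exact (mul_eq_zero.1 h4.symm).resolve_left hy1.ne'
  -- (3)
  have hX3 : ∑ ω ∈ A, w ω * (X ω ^ 2 / T ω ^ 2) = p * q * ∑ ω ∈ A, w ω * (1 / T ω) := by
    have h3 := hfun (fun t s => (s - t * p) / t ^ 2)
    have h4 : ∑ ω ∈ A, w ω * (N ω * ((N ω - T ω * p) / T ω ^ 2)) -
        y * ∑ ω ∈ A, w ω * ((T ω - N ω) * ((N ω + 1 - T ω * p) / T ω ^ 2)) =
        (1 + y) * ∑ ω ∈ A, w ω * (X ω ^ 2 / T ω ^ 2) + y * ∑ ω ∈ A, w ω * (X ω / T ω ^ 2) -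
          p * ∑ ω ∈ A, w ω * (1 / T ω) := by
      rw [Finset.mul_sum, Finset.mul_sum, Finset.mul_sum, Finset.mul_sum, ← Finset.sum_sub_distrib,
        ← Finset.sum_add_distrib, ← Finset.sum_sub_distrib]
      apply Finset.sum_congr rfl
      intro ω hω
      have hT' : T ω ≠ 0 := (hT0 ω hω).ne'
      simp only [hX, hp]
      field_simp
      ring
    rw [h3, sub_self, hX2, mul_zero, add_zero] at h4
    have h5 : (1 + y) * ∑ ω ∈ A, w ω * (X ω ^ 2 / T ω ^ 2) = p * ∑ ω ∈ A, w ω * (1 / T ω) := by linarith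
    have h6 : q * (1 + y) = 1 := by rw [hq]; field_simp
    calc ∑ ω ∈ A, w ω * (X ω ^ 2 / T ω ^ 2) = q * (1 + y) * ∑ ω ∈ A, w ω * (X ω ^ 2 / T ω ^ 2) := by
          rw [h6, one_mul]
      _ = q * ((1 + y) * ∑ ω ∈ A, w ω * (X ω ^ 2 / T ω ^ 2)) := by ring
      _ = _ := by rw [h5]; ring
  set W : ℝ := ∑ ω ∈ A, w ω with hW
  have hW0 : 0 ≤ W := Finset.sum_nonneg hwA
  have hinv : ∑ ω ∈ A, w ω * (1 / T ω) ≤ W / τ := by
    rw [hW, Finset.sum_div]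
    apply Finset.sum_le_sum
    intro ω hω
    rw [mul_one_div]
    exact div_le_div_of_nonneg_left (hwA ω hω) (by linarith) (hTτ ω hω)
  have hpq1 : p * q ≤ 1 := by nlinarith
  have hX4 : ∑ ω ∈ A, w ω * (X ω ^ 2 / T ω ^ 2) ≤ W / τ := by
    rw [hX3]
    have h3 : 0 ≤ ∑ ω ∈ A, w ω * (1 / T ω) :=
      Finset.sum_nonneg fun ω hω => mul_nonneg (hwA ω hω) (by have := hT0 ω hω; positivity)
    nlinarith [mul_pos hp0 hq0]
  -- (4) Cauchy-Schwarz
  have hX5 : ∑ ω ∈ A, w ω * (|X ω| / T ω) ≤ W / √(τ : ℝ) := by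
    have h3 : (∑ ω ∈ A, √(w ω) * (√(w ω) * (|X ω| / T ω))) ^ 2 ≤
        (∑ ω ∈ A, √(w ω) ^ 2) * ∑ ω ∈ A, (√(w ω) * (|X ω| / T ω)) ^ 2 :=
      Finset.sum_mul_sq_le_sq_mul_sq _ _ _
    have h4 : ∑ ω ∈ A, √(w ω) * (√(w ω) * (|X ω| / T ω)) = ∑ ω ∈ A, w ω * (|X ω| / T ω) := by
      apply Finset.sum_congr rfl
      intro ω hω
      rw [← mul_assoc, Real.mul_self_sqrt (hwA ω hω)]
    have h5 : ∑ ω ∈ A, √(w ω) ^ 2 = W := by
      apply Finset.sum_congr rfl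
      intro ω hω
      exact Real.sq_sqrt (hwA ω hω)
    have h6 : ∑ ω ∈ A, (√(w ω) * (|X ω| / T ω)) ^ 2 = ∑ ω ∈ A, w ω * (X ω ^ 2 / T ω ^ 2) := by
      apply Finset.sum_congr rfl
      intro ω hω
      rw [mul_pow, Real.sq_sqrt (hwA ω hω), div_pow, sq_abs]
    rw [h4, h5, h6] at h3
    have h7 : (∑ ω ∈ A, w ω * (|X ω| / T ω)) ^ 2 ≤ (W / √(τ : ℝ)) ^ 2 := by
      rw [div_pow, Real.sq_sqrt (by linarith)]
      calc _ ≤ W * ∑ ω ∈ A, w ω * (X ω ^ 2 / T ω ^ 2) := h3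
        _ ≤ W * (W / τ) := mul_le_mul_of_nonneg_left hX4 hW0
        _ = W ^ 2 / τ := by ring
    have h8 : 0 ≤ ∑ ω ∈ A, w ω * (|X ω| / T ω) :=
      Finset.sum_nonneg fun ω hω => mul_nonneg (hwA ω hω)
        (div_nonneg (abs_nonneg _) (hT0 ω hω).le)
    exact (pow_le_pow_iff_left₀ h8 (by positivity) two_ne_zero).1 h7
  -- (5)
  have h5 := hex (fun ω => F ω * g (l ω) / T ω)
  have h6 : |∑ ω ∈ A, w ω * (N ω * (F ω * g (l ω) / T ω)) -
      y * ∑ ω ∈ A, w ω * ((T ω - N ω) * (F ω * g (l ω + 2) / T ω))| ≤ y * (η * W) := by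
    rw [h5, ← mul_sub, abs_mul, abs_of_pos hy]
    apply mul_le_mul_of_nonneg_left _ hy.le
    rw [← Finset.sum_sub_distrib, hW, Finset.mul_sum]
    refine (Finset.abs_sum_le_sum_abs _ _).trans (Finset.sum_le_sum ?_)
    intro ω hω
    have hT' := hT0 ω hω
    have hT'' : 0 < T ω := hT'
    rw [← mul_sub, abs_mul, abs_of_nonneg (hwA ω hω), mul_comm η]
    apply mul_le_mul_of_nonneg_left _ (hwA ω hω)
    have h7 : ∑ r ∈ G ω \ S ω, F (σ r ω) * g (l (σ r ω)) / T (σ r ω) - (T ω - N ω) * (F ω * g (l ω + 2) / T ω) =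
        ∑ r ∈ G ω \ S ω, (F (σ r ω) - F ω) * g (l ω + 2) / T ω := by
      have h8 : (T ω - N ω) * (F ω * g (l ω + 2) / T ω) = ∑ _r ∈ G ω \ S ω, F ω * g (l ω + 2) / T ω := by
        rw [Finset.sum_const, nsmul_eq_mul, hdiff]
      rw [h8, ← Finset.sum_sub_distrib]
      apply Finset.sum_congr rfl
      intro r hr
      have h9 := (h2 ω (hAΩ ω hω) r (mem_sdiff.1 hr).1 (mem_sdiff.1 hr).2).1
      have h10 : T (σ r ω) = T ω := hGcard ω hω r hr
      rw [h9, h10]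
      ring
    rw [h7]
    refine (Finset.abs_sum_le_sum_abs _ _).trans ?_
    have h11 : ∀ r ∈ G ω \ S ω, |(F (σ r ω) - F ω) * g (l ω + 2) / T ω| ≤ η / T ω := by
      intro r hr
      have h12 := (h1 ω (hAΩ ω hω) r (mem_sdiff.1 hr).1).2.2.2.2.2
      rw [abs_div, abs_mul, abs_of_pos hT'']
      apply div_le_div_of_nonneg_right _ hT''.le
      calc |F (σ r ω) - F ω| * |g (l ω + 2)| ≤ η * 1 := mul_le_mul h12 (hg _) (abs_nonneg _) hη
        _ = η := mul_one _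
    refine (Finset.sum_le_sum h11).trans ?_
    rw [Finset.sum_const, nsmul_eq_mul, hdiff]
    have h13 : (0 : ℝ) ≤ (S ω).card := Nat.cast_nonneg _
    have h14 : ((G ω).card : ℝ) - (S ω).card ≤ T ω := by
      show ((G ω).card : ℝ) - (S ω).card ≤ ((G ω).card : ℝ)
      linarith
    calc (((G ω).card : ℝ) - (S ω).card) * (η / T ω) ≤ T ω * (η / T ω) :=
          mul_le_mul_of_nonneg_right h14 (div_nonneg hη hT''.le)
      _ = η := by field_simp
  have h7 : p * q * |∑ ω ∈ A, w ω * (F ω * (g (l ω) - g (l ω + 2)))| ≤ (1 / √(τ : ℝ) + η) * W := by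
    set E1 := ∑ ω ∈ A, w ω * (N ω * (F ω * g (l ω) / T ω)) with hE1
    set E2 := ∑ ω ∈ A, w ω * ((T ω - N ω) * (F ω * g (l ω + 2) / T ω)) with hE2
    have h8 : p * q * ∑ ω ∈ A, w ω * (F ω * (g (l ω) - g (l ω + 2))) =
        q * (E1 - y * E2) - ∑ ω ∈ A, w ω * (X ω / T ω * (F ω * (q * g (l ω) + p * g (l ω + 2)))) := by
      rw [hE1, hE2, mul_sub, ← mul_assoc q y, mul_comm q y, hyq, Finset.mul_sum, Finset.mul_sum,
        Finset.mul_sum, ← Finset.sum_sub_distrib, ← Finset.sum_sub_distrib]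
      apply Finset.sum_congr rfl
      intro ω hω
      have hT' : T ω ≠ 0 := (hT0 ω hω).ne'
      have hq' : q = 1 - p := by linarith
      simp only [hX]
      rw [hq']
      field_simp
      ring
    have h9 : |∑ ω ∈ A, w ω * (X ω / T ω * (F ω * (q * g (l ω) + p * g (l ω + 2))))| ≤
        ∑ ω ∈ A, w ω * (|X ω| / T ω) := by
      refine (Finset.abs_sum_le_sum_abs _ _).trans (Finset.sum_le_sum ?_)
      intro ω hω
      rw [abs_mul, abs_of_nonneg (hwA ω hω), abs_mul, abs_div, abs_of_pos (hT0 ω hω : 0 < T ω)]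
      apply mul_le_mul_of_nonneg_left _ (hwA ω hω)
      have h10 : |F ω * (q * g (l ω) + p * g (l ω + 2))| ≤ 1 := by
        rw [abs_mul]
        have h11 : |q * g (l ω) + p * g (l ω + 2)| ≤ 1 := by
          calc |q * g (l ω) + p * g (l ω + 2)| ≤ |q * g (l ω)| + |p * g (l ω + 2)| := abs_add_le _ _
            _ ≤ q * 1 + p * 1 := by
                rw [abs_mul, abs_mul, abs_of_pos hq0, abs_of_pos hp0]
                exact add_le_add (mul_le_mul_of_nonneg_left (hg _) hq0.le)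
                  (mul_le_mul_of_nonneg_left (hg _) hp0.le)
            _ = 1 := by linarith
        calc |F ω| * |q * g (l ω) + p * g (l ω + 2)| ≤ 1 * 1 :=
              mul_le_mul (hF ω (hAΩ ω hω)) h11 (abs_nonneg _) zero_le_one
          _ = 1 := one_mul _
      have h12 : 0 ≤ |X ω| / T ω := div_nonneg (abs_nonneg _) (hT0 ω hω).le
      calc |X ω| / T ω * |F ω * (q * g (l ω) + p * g (l ω + 2))| ≤ |X ω| / T ω * 1 :=
            mul_le_mul_of_nonneg_left h10 h12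
        _ = |X ω| / T ω := mul_one _
    have h10 : p * q * |∑ ω ∈ A, w ω * (F ω * (g (l ω) - g (l ω + 2)))| =
        |p * q * ∑ ω ∈ A, w ω * (F ω * (g (l ω) - g (l ω + 2)))| := by
      rw [abs_mul, abs_of_pos (mul_pos hp0 hq0)]
    rw [h10, h8]
    have h11 : |q * (E1 - y * E2)| ≤ η * W := by
      rw [abs_mul, abs_of_pos hq0]
      calc q * |E1 - y * E2| ≤ q * (y * (η * W)) := mul_le_mul_of_nonneg_left h6 hq0.le
        _ = (y * q) * (η * W) := by ring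
        _ = p * (η * W) := by rw [hyq]
        _ ≤ 1 * (η * W) := mul_le_mul_of_nonneg_right (by linarith) (mul_nonneg hη hW0)
        _ = η * W := one_mul _
    calc |q * (E1 - y * E2) - ∑ ω ∈ A, w ω * (X ω / T ω * (F ω * (q * g (l ω) + p * g (l ω + 2))))|
        ≤ |q * (E1 - y * E2)| +
          |∑ ω ∈ A, w ω * (X ω / T ω * (F ω * (q * g (l ω) + p * g (l ω + 2))))| := abs_sub _ _
      _ ≤ η * W + W / √(τ : ℝ) := add_le_add h11 (h9.trans hX5)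
      _ = (1 / √(τ : ℝ) + η) * W := by ring
  have h8 : |∑ ω ∈ A, w ω * (F ω * (g (l ω) - g (l ω + 2)))| ≤
      (1 + y) ^ 2 / y * (1 / √(τ : ℝ) + η) * W := by
    have h9 : (1 + y) ^ 2 / y * (p * q) = 1 := by
      rw [hp, hq]
      field_simp
    calc |∑ ω ∈ A, w ω * (F ω * (g (l ω) - g (l ω + 2)))|
        = (1 + y) ^ 2 / y * (p * q) * |∑ ω ∈ A, w ω * (F ω * (g (l ω) - g (l ω + 2)))| := by
          rw [h9, one_mul]
      _ = (1 + y) ^ 2 / y * (p * q * |∑ ω ∈ A, w ω * (F ω * (g (l ω) - g (l ω + 2)))|) := by ring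
      _ ≤ (1 + y) ^ 2 / y * ((1 / √(τ : ℝ) + η) * W) := mul_le_mul_of_nonneg_left h7 (by positivity)
      _ = _ := by ring
  -- the complement
  set A' := Ω.filter (fun ω => (G ω).card < τ) with hA'
  have hsplit : ∀ f : α → ℝ, ∑ ω ∈ Ω, f ω = ∑ ω ∈ A, f ω + ∑ ω ∈ A', f ω := by
    intro f
    have h9 : A' = Ω.filter (fun ω => ¬ τ ≤ (G ω).card) := by
      rw [hA']
      apply Finset.filter_congr
      intro ω _
      exact not_le.symm
    rw [h9, hA, Finset.sum_filter_add_sum_filter_not]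
  have h9 : |∑ ω ∈ A', w ω * (F ω * (g (l ω) - g (l ω + 2)))| ≤ 2 * ∑ ω ∈ A', w ω := by
    rw [Finset.mul_sum]
    refine (Finset.abs_sum_le_sum_abs _ _).trans (Finset.sum_le_sum ?_)
    intro ω hω
    have hω' := (mem_filter.1 hω).1
    rw [abs_mul, abs_of_nonneg (hw ω hω'), abs_mul, mul_comm 2]
    apply mul_le_mul_of_nonneg_left _ (hw ω hω')
    have h10 : |g (l ω) - g (l ω + 2)| ≤ 2 := by
      have := abs_sub (g (l ω)) (g (l ω + 2))
      linarith [hg (l ω), hg (l ω + 2)]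
    calc |F ω| * |g (l ω) - g (l ω + 2)| ≤ 1 * 2 :=
          mul_le_mul (hF ω hω') h10 (abs_nonneg _) zero_le_one
      _ = 2 := one_mul _
  have h10 : ∑ ω ∈ Ω, w ω * (F ω * g (l ω)) - ∑ ω ∈ Ω, w ω * (F ω * g (l ω + 2)) =
      ∑ ω ∈ A, w ω * (F ω * (g (l ω) - g (l ω + 2))) + ∑ ω ∈ A', w ω * (F ω * (g (l ω) - g (l ω + 2))) := by
    rw [← hsplit, ← Finset.sum_sub_distrib]
    apply Finset.sum_congr rfl
    intro ω _
    ring
  have h11 : W ≤ ∑ ω ∈ Ω, w ω := by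
    rw [hsplit w]
    have : 0 ≤ ∑ ω ∈ A', w ω := Finset.sum_nonneg fun ω hω => hw ω (mem_filter.1 hω).1
    linarith
  rw [h10]
  refine (abs_add_le _ _).trans (add_le_add (h8.trans ?_) h9)
  apply mul_le_mul_of_nonneg_left h11
  positivity

end Pool.Agent.H737ON
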