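import Pool.Agent.Run7.h737.ON.RER

/-!
# ON: the pieces CLEV, CAND, LOC
-/

set_option autoImplicit false

open scoped Classical

noncomputable section

namespace Pool.Agent.H737ON

open Rr

theorem lev_self (a : Vx) : lev a a = 0 := by
  unfold lev
  simp

theorem t_CLEV (hG : J_GEO) : J_CLEV := by
  obtain ⟨-, -, -, hfv, -, hl1, hl6, -⟩ := hG
  intro D a r ω v hD hω hr h
  unfold Cr at h
  induction h with
  | refl =>
    refine ⟨by rw [lev_self]; omega, ?_⟩
    rintro ⟨t, ⟨-, u, hu, hlu⟩, ha⟩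
    have h1 := hl6 a t a ha u hu
    rw [lev_self, hlu, abs_le] at h1
    omega
  | @tail x y _ h2 ih =>
    obtain ⟨e, he, h3⟩ := h2
    unfold inner at he
    rw [Finset.mem_filter] at he
    obtain ⟨heω, hu, hd⟩ := he
    have hy : ¬ InU D a r y := by
      rcases h3 with ⟨-, h4⟩ | ⟨h4, -⟩
      · rw [← h4]
        exact hd
      · rw [← h4]
        exact hu
    refine ⟨?_, hy⟩
    have h5 := hl1 a e
    have h6 : |lev a x - lev a y| ≤ 1 := by
      rcases h3 with ⟨h4, h4'⟩ | ⟨h4, h4'⟩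
      · rw [← h4, ← h4']
        exact h5
      · rw [← h4, ← h4', abs_sub_comm]
        exact h5
    rw [abs_le] at h6
    have h7 := ih.1
    by_contra h8
    have h9 : lev a y = 20 * (r : ℤ) := by omega
    obtain ⟨t, ht, htD⟩ := hD e (hω heω)
    obtain ⟨g1, g2⟩ := hfv t e ht
    have hyt : y ∈ fV t := by
      rcases h3 with ⟨-, h4⟩ | ⟨h4, -⟩
      · rw [← h4]
        exact g2
      · rw [← h4]
        exact g1
    exact hy ⟨t, ⟨htD, y, hyt, h9⟩, hyt⟩

/-- a step inside -/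
theorem Cr_step {D : Finset Ed} {a : Vx} {r : ℕ} {ω : Finset Ed} {x y : Vx} {e : Ed} (hx : Cr D a r ω x) (he : e ∈ ω)
    (h : (up e = x ∧ dn e = y) ∨ (up e = y ∧ dn e = x)) (hxU : ¬ InU D a r x) (hyU : ¬ InU D a r y) :
    Cr D a r ω y := by
  unfold Cr at hx ⊢
  refine Relation.ReflTransGen.tail hx ⟨e, ?_, h⟩
  unfold inner
  rw [Finset.mem_filter]
  rcases h with ⟨h1, h2⟩ | ⟨h1, h2⟩
  · rw [h1, h2]
    exact ⟨he, hxU, hyU⟩
  · rw [h1, h2]
    exact ⟨he, hyU, hxU⟩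

theorem t_CAND (hG : J_GEO) (hH : J_HAND) : J_CAND := by
  intro D a b r ω hD hω hr hlev
  have hC := t_CLEV hG
  have hab : a ≠ b := by
    rintro rfl
    rw [lev_self] at hlev
    omega
  have hreach := hH D a b ω hab hω
  by_contra hne
  rw [Set.not_nonempty_iff_eq_empty] at hne
  have hcr : ∀ v, Reach ω a v → Cr D a r ω v := by
    intro v hv
    induction hv with
    | refl => exact Relation.ReflTransGen.refl
    | @tail x y _ h2 ih =>
      obtain ⟨e, he, h3⟩ := h2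
      refine Cr_step ih he h3 (hC D a r ω x hD hω.1 hr ih).2 ?_
      rintro ⟨t, ht, hyt⟩
      have h4 : ((t, e) : (ℤ × ℤ) × Ed) ∈ Cnd D a r ω := by
        refine ⟨ht, he, ?_⟩
        rcases h3 with ⟨h5, h6⟩ | ⟨h5, h6⟩
        · left
          show Cr D a r ω (up e) ∧ dn e ∈ fV t
          rw [h5, h6]
          exact ⟨ih, hyt⟩
        · right
          show Cr D a r ω (dn e) ∧ up e ∈ fV t
          rw [h5, h6]
          exact ⟨ih, hyt⟩
      rw [hne] at h4
      exact h4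
  have h1 := (hC D a r ω b hD hω.1 hr (hcr b hreach)).1
  omega

theorem Cr_loc (hC : J_CLEV) {D : Finset Ed} {a : Vx} {r : ℕ} {ω ω' : Finset Ed} (hD : FlowerCovered D) (hω : ω ⊆ D)
    (hr : 1 ≤ r) (h : ∀ e, ((lev a (up e) < 20 * (r : ℤ) ∧ ¬ InU D a r (up e)) ∨
      (lev a (dn e) < 20 * (r : ℤ) ∧ ¬ InU D a r (dn e))) → (e ∈ ω ↔ e ∈ ω')) {v : Vx} (hv : Cr D a r ω v) :
    Cr D a r ω' v := by
  have key : ∀ w, Reach (inner D a r ω) a w → Cr D a r ω' w := by
    intro w hw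
    induction hw with
    | refl => exact Relation.ReflTransGen.refl
    | @tail x y h1 h2 ih =>
      have hx := hC D a r ω x hD hω hr h1
      have hy := hC D a r ω y hD hω hr (Relation.ReflTransGen.tail h1 h2)
      obtain ⟨e, he, h3⟩ := h2
      unfold inner at he
      rw [Finset.mem_filter] at he
      refine Cr_step ih ((h e ?_).1 he.1) h3 hx.2 hy.2
      rcases h3 with ⟨h4, -⟩ | ⟨-, h4⟩
      · left
        rw [h4]
        exact hx
      · right
        rw [h4]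
        exact hx
  exact key v hv

theorem t_LOC (hC : J_CLEV) : J_LOC := by
  intro D a r ω ω' hD hω hω' hr h
  have key : ∀ ω₁ ω₂ : Finset Ed, ω₁ ⊆ D → (∀ e, ((lev a (up e) < 20 * (r : ℤ) ∧ ¬ InU D a r (up e)) ∨
      (lev a (dn e) < 20 * (r : ℤ) ∧ ¬ InU D a r (dn e))) → (e ∈ ω₁ ↔ e ∈ ω₂)) → Cnd D a r ω₁ ⊆ Cnd D a r ω₂ := by
    rintro ω₁ ω₂ h1 h2 ⟨t, e⟩ ⟨g1, g2, g3⟩
    have h3 : e ∈ ω₂ := by
      refine (h2 e ?_).1 g2
      rcases g3 with g3 | g3
      · exact Or.inl (hC D a r ω₁ _ hD h1 hr g3.1)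
      · exact Or.inr (hC D a r ω₁ _ hD h1 hr g3.1)
    refine ⟨g1, h3, ?_⟩
    rcases g3 with g3 | g3
    · exact Or.inl ⟨Cr_loc hC hD h1 hr h2 g3.1, g3.2⟩
    · exact Or.inr ⟨Cr_loc hC hD h1 hr h2 g3.1, g3.2⟩
  exact Set.Subset.antisymm (key ω ω' hω h) (key ω' ω hω' fun e he => (h e he).symm)

end Pool.Agent.H737ON
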