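import Mathlib

/-!
# The O(n) loop model on the hexagonal lattice: definitions (MP_4960b8_pr)

The vertices of the hexagonal lattice are the `(i, j, c)`, `c` a colour; the vertex `(i, j, true)`
is joined with `(i, j, false)`, `(i - 1, j, false)` and `(i, j - 1, false)` by the edges
`(i, j, 0)`, `(i, j, 1)`, `(i, j, 2)`.  The hexagons are indexed by `ℤ × ℤ`; `hx t k` and `hv t k`
are the edges and the vertices of the hexagon `t` in cyclic order (`hx t k` joins `hv t k` and
`hv t (k + 1)`), `nb t k` is the hexagon on the other side of `hx t k`.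
-/

set_option autoImplicit false

open scoped Classical

noncomputable section

namespace Pool.Agent.H737ON

/-- vertices of the hexagonal lattice -/
abbrev Vx := ℤ × ℤ × Bool

/-- edges of the hexagonal lattice -/
abbrev Ed := ℤ × ℤ × Fin 3

def dx : Fin 3 → ℤ := ![0, 1, 0]

def dy : Fin 3 → ℤ := ![0, 0, 1]

/-- the end point of colour `true` -/
def up (e : Ed) : Vx := (e.1, e.2.1, true)

/-- the end point of colour `false` -/
def dn (e : Ed) : Vx := (e.1 - dx e.2.2, e.2.1 - dy e.2.2, false)

/-- the edges of the hexagon `t`, in cyclic order -/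
def hx (t : ℤ × ℤ) : Fin 6 → Ed :=
  ![(t.1, t.2, 0), (t.1 + 1, t.2, 1), (t.1 + 1, t.2, 2), (t.1 + 1, t.2 - 1, 0),
    (t.1 + 1, t.2 - 1, 1), (t.1, t.2, 2)]

/-- the vertices of the hexagon `t`, in cyclic order; `hx t k` joins `hv t k` and `hv t (k + 1)` -/
def hv (t : ℤ × ℤ) : Fin 6 → Vx :=
  ![(t.1, t.2, true), (t.1, t.2, false), (t.1 + 1, t.2, true), (t.1 + 1, t.2 - 1, false),
    (t.1 + 1, t.2 - 1, true), (t.1, t.2 - 1, false)]

/-- the hexagon on the other side of the edge `hx t k` -/
def nb (t : ℤ × ℤ) : Fin 6 → ℤ × ℤ :=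
  ![(t.1 - 1, t.2 + 1), (t.1, t.2 + 1), (t.1 + 1, t.2), (t.1 + 1, t.2 - 1), (t.1, t.2 - 1),
    (t.1 - 1, t.2)]

/-- the set of the six edges of the hexagon `t` -/
def hex (t : ℤ × ℤ) : Finset Ed := Finset.univ.image (hx t)

/-- the flower of `t`: the 30 edges of the hexagon `t` and of its six neighbours -/
def flower (t : ℤ × ℤ) : Finset Ed := hex t ∪ Finset.univ.biUnion fun k => hex (nb t k)

/-- the 24 vertices of the flower of `t` -/
def fV (t : ℤ × ℤ) : Finset Vx := (flower t).image up ∪ (flower t).image dn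

/-- neighbours by an edge of `ω` -/
def Adj (ω : Finset Ed) (u v : Vx) : Prop :=
  ∃ e ∈ ω, (up e = u ∧ dn e = v) ∨ (up e = v ∧ dn e = u)

/-- connected by edges of `ω` -/
def Reach (ω : Finset Ed) : Vx → Vx → Prop := Relation.ReflTransGen (Adj ω)

/-- the degree of a vertex in `ω` -/
def deg (ω : Finset Ed) (v : Vx) : ℕ := (ω.filter fun e => up e = v ∨ dn e = v).card

/-- The configurations of the O(n) model with a path from `a` to `b` in the domain `D` (a set of
edges): every vertex has degree `0` or `2`, except `a` and `b`, which have degree `1`. -/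
def IsConf (D : Finset Ed) (a b : Vx) (ω : Finset Ed) : Prop :=
  ω ⊆ D ∧ (∀ v, v = a ∨ v = b → deg ω v = 1) ∧
    ∀ v, v ≠ a → v ≠ b → deg ω v = 0 ∨ deg ω v = 2

def confs (D : Finset Ed) (a b : Vx) : Finset (Finset Ed) :=
  D.powerset.filter (IsConf D a b)

/-- the edges of the path of a configuration -/
def path (a : Vx) (ω : Finset Ed) : Finset Ed := ω.filter fun e => Reach ω a (up e)

/-- the number of steps of the path -/
def len (a : Vx) (ω : Finset Ed) : ℕ := (path a ω).card

/-- the vertices of positive degree -/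
def verts (ω : Finset Ed) : Finset Vx := ω.image up ∪ ω.image dn

/-- the component of a vertex -/
def comp (ω : Finset Ed) (v : Vx) : Finset Vx := (verts ω).filter (Reach ω v)

/-- the loops of a configuration: the components which do not contain `a` -/
def loops (a : Vx) (ω : Finset Ed) : Finset (Finset Vx) :=
  ((verts ω).filter fun v => ¬ Reach ω a v).image (comp ω)

/-- the weight `x ^ L n ^ M`, `L` the number of all edges and `M` the number of loops -/
def wt (n x : ℝ) (a : Vx) (ω : Finset Ed) : ℝ := x ^ ω.card * n ^ (loops a ω).card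

/-- the expectation in the O(n) model -/
def Ex (n x : ℝ) (D : Finset Ed) (a b : Vx) (f : Finset Ed → ℝ) : ℝ :=
  (∑ ω ∈ confs D a b, wt n x a ω * f ω) / ∑ ω ∈ confs D a b, wt n x a ω

/-- The domain is a union of flowers (a regular approximation of a domain of the plane). -/
def FlowerCovered (D : Finset Ed) : Prop := ∀ e ∈ D, ∃ t, e ∈ flower t ∧ flower t ⊆ D

/-- A local move of a trajectory: it has exactly two edges, and these are consecutive, in common
with a hexagon, and they are replaced by the four other edges of the hexagon. -/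
def Bump (γ γ' : Finset Ed) : Prop :=
  ∃ (t : ℤ × ℤ) (k : Fin 6), γ ∩ hex t = {hx t k, hx t (k + 1)} ∧ γ' = symmDiff γ (hex t)

/-- the (ℓ¹) distance of the coordinates from those of `a` -/
def lev (a v : Vx) : ℤ := |v.1 - a.1| + |v.2.1 - a.2.1|

/-! ### Levels, first contact with a flower, local moves -/

/-- the flowers of the domain at level `r` -/
def Near (D : Finset Ed) (a : Vx) (r : ℕ) (t : ℤ × ℤ) : Prop :=
  flower t ⊆ D ∧ ∃ v ∈ fV t, lev a v = 20 * (r : ℤ)

/-- the vertices of the flowers at level `r` -/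
def InU (D : Finset Ed) (a : Vx) (r : ℕ) (v : Vx) : Prop := ∃ t, Near D a r t ∧ v ∈ fV t

/-- the edges which do not touch the flowers at level `r` -/
def inner (D : Finset Ed) (a : Vx) (r : ℕ) (ω : Finset Ed) : Finset Ed :=
  ω.filter fun e => ¬ InU D a r (up e) ∧ ¬ InU D a r (dn e)

/-- reached from `a` before any flower of level `r` is touched -/
def Cr (D : Finset Ed) (a : Vx) (r : ℕ) (ω : Finset Ed) (v : Vx) : Prop :=
  Reach (inner D a r ω) a v

/-- the pairs (flower `t` of level `r`, edge `e` of `ω`) such that `e` leads from a vertex in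
`Cr D a r ω` to a vertex of the flower `t` -/
def Cnd (D : Finset Ed) (a : Vx) (r : ℕ) (ω : Finset Ed) : Set ((ℤ × ℤ) × Ed) :=
  {p | Near D a r p.1 ∧ p.2 ∈ ω ∧
    ((Cr D a r ω (up p.2) ∧ dn p.2 ∈ fV p.1) ∨ (Cr D a r ω (dn p.2) ∧ up p.2 ∈ fV p.1))}

/-- a choice from a set (it depends on the set only) -/
def pick (S : Set ((ℤ × ℤ) × Ed)) : (ℤ × ℤ) × Ed :=
  if h : S.Nonempty then h.some else ((0, 0), (0, 0, 0))

/-- the flower of level `r` that the path meets -/
def tr (D : Finset Ed) (a : Vx) (r : ℕ) (ω : Finset Ed) : ℤ × ℤ := (pick (Cnd D a r ω)).1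

/-- the edge by which the path enters this flower -/
def er (D : Finset Ed) (a : Vx) (r : ℕ) (ω : Finset Ed) : Ed := (pick (Cnd D a r ω)).2

/-- `ω` has exactly two edges, `hx t k` and `hx t (k + 1)`, in common with the hexagon `t` -/
def Run (ω : Finset Ed) (t : ℤ × ℤ) (k : Fin 6) : Prop := ω ∩ hex t = {hx t k, hx t (k + 1)}

/-- `ω` has exactly the four edges other than `hx t k` and `hx t (k + 1)` in common with `t` -/
def RunC (ω : Finset Ed) (t : ℤ × ℤ) (k : Fin 6) : Prop :=
  ω ∩ hex t = hex t \ {hx t k, hx t (k + 1)}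

/-- The central hexagon of the flower `t` can be flipped, and it is connected with an end point of
`e` in the flower. -/
def GoodFl (ω : Finset Ed) (t : ℤ × ℤ) (e : Ed) : Prop :=
  ∃ k : Fin 6, (Run ω t k ∨ RunC ω t k) ∧ ∃ y ∈ fV t, (up e = y ∨ dn e = y) ∧
    (Reach ((ω ∩ flower t) \ hex t) y (hv t k) ∨ Reach ((ω ∩ flower t) \ hex t) y (hv t (k + 2)))

def Good (D : Finset Ed) (a : Vx) (r : ℕ) (ω : Finset Ed) : Prop :=
  GoodFl ω (tr D a r ω) (er D a r ω)

/-- the central hexagon is in the state with four edges -/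
def Four (D : Finset Ed) (a : Vx) (r : ℕ) (ω : Finset Ed) : Prop :=
  ∃ k, RunC ω (tr D a r ω) k

/-- the flip of the central hexagon of the flower of level `r` -/
def sg (D : Finset Ed) (a : Vx) (r : ℕ) (ω : Finset Ed) : Finset Ed :=
  symmDiff ω (hex (tr D a r ω))

/-- the good levels -/
def Glv (D : Finset Ed) (a : Vx) (M : ℕ) (ω : Finset Ed) : Finset ℕ :=
  (Finset.Icc 1 M).filter fun r => Good D a r ω

end Pool.Agent.H737ON
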