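import Pool.Agent.Run7.h737.ON.Iface

/-!
# FIN1: many local moves, and the main estimate
-/

set_option autoImplicit false

open scoped Classical

noncomputable section

namespace Pool.Agent.H737ON

theorem fin_wt_pos (n x : ℝ) (hn : 0 < n) (hx : 0 < x) (a : Vx) (ω : Finset Ed) :
    0 < wt n x a ω := by
  unfold wt
  positivity

/-- few good levels: small weight -/
theorem fin_few (n x : ℝ) (hn : 0 < n) (hx : 0 < x) (δ : ℝ) (hδ1 : δ < 1)
    (D : Finset Ed) (a b : Vx) (M τ : ℕ) (hτ : (τ : ℝ) ≤ δ * M / 2 + 1)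
    (hP : ∑ ω ∈ confs D a b, wt n x a ω * (1 / 2 : ℝ) ^ (Glv D a M ω).card ≤
      (1 - δ) ^ M * ∑ ω ∈ confs D a b, wt n x a ω) :
    ∑ ω ∈ (confs D a b).filter (fun ω => (Glv D a M ω).card < τ), wt n x a ω ≤
      Real.exp (1 - δ * M / 2) * ∑ ω ∈ confs D a b, wt n x a ω := by
  have hZ : 0 ≤ ∑ ω ∈ confs D a b, wt n x a ω :=
    Finset.sum_nonneg fun ω _ => (fin_wt_pos n x hn hx a ω).le
  have h1 : ∑ ω ∈ (confs D a b).filter (fun ω => (Glv D a M ω).card < τ), wt n x a ω ≤
      2 ^ τ * ∑ ω ∈ confs D a b, wt n x a ω * (1 / 2 : ℝ) ^ (Glv D a M ω).card := by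
    rw [Finset.mul_sum]
    refine le_trans (Finset.sum_le_sum (f := fun ω => wt n x a ω)
      (g := fun ω => 2 ^ τ * (wt n x a ω * (1 / 2 : ℝ) ^ (Glv D a M ω).card)) ?_) ?_
    · intro ω hω
      have hc := (Finset.mem_filter.mp hω).2
      have hw := (fin_wt_pos n x hn hx a ω).le
      have h2 : (1 : ℝ) ≤ 2 ^ τ * (1 / 2 : ℝ) ^ (Glv D a M ω).card := by
        have : (1 / 2 : ℝ) ^ τ ≤ (1 / 2 : ℝ) ^ (Glv D a M ω).card :=
          pow_le_pow_of_le_one (by norm_num) (by norm_num) hc.le
        calc (1 : ℝ) = 2 ^ τ * (1 / 2 : ℝ) ^ τ := by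
              rw [← mul_pow]; norm_num
          _ ≤ _ := mul_le_mul_of_nonneg_left this (by positivity)
      calc wt n x a ω = wt n x a ω * 1 := by ring
        _ ≤ wt n x a ω * (2 ^ τ * (1 / 2 : ℝ) ^ (Glv D a M ω).card) :=
          mul_le_mul_of_nonneg_left h2 hw
        _ = _ := by ring
    · refine Finset.sum_le_sum_of_subset_of_nonneg (Finset.filter_subset _ _) fun ω _ _ => ?_
      have hw := (fin_wt_pos n x hn hx a ω).le
      positivity
  have h2 : (2 : ℝ) ^ τ * (1 - δ) ^ M ≤ Real.exp (1 - δ * M / 2) := by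
    have e1 : (2 : ℝ) ^ τ ≤ Real.exp τ := by
      have : (2 : ℝ) ≤ Real.exp 1 := by
        have := Real.add_one_le_exp (1 : ℝ)
        linarith
      calc (2 : ℝ) ^ τ ≤ (Real.exp 1) ^ τ := pow_le_pow_left₀ (by norm_num) this τ
        _ = Real.exp τ := by rw [← Real.exp_nat_mul]; simp
    have e2 : (1 - δ) ^ M ≤ Real.exp (-(δ * M)) := by
      have : 1 - δ ≤ Real.exp (-δ) := by
        have := Real.add_one_le_exp (-δ)
        linarith
      calc (1 - δ) ^ M ≤ (Real.exp (-δ)) ^ M := pow_le_pow_left₀ (by linarith) this M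
        _ = Real.exp (-(δ * M)) := by rw [← Real.exp_nat_mul]; congr 1; ring
    calc (2 : ℝ) ^ τ * (1 - δ) ^ M ≤ Real.exp τ * Real.exp (-(δ * M)) :=
          mul_le_mul e1 e2 (pow_nonneg (by linarith) _) (Real.exp_pos _).le
      _ = Real.exp (τ + -(δ * M)) := (Real.exp_add _ _).symm
      _ ≤ _ := Real.exp_le_exp.mpr (by linarith)
  calc _ ≤ _ := h1
    _ ≤ 2 ^ τ * ((1 - δ) ^ M * ∑ ω ∈ confs D a b, wt n x a ω) :=
      mul_le_mul_of_nonneg_left hP (by positivity)
    _ = (2 ^ τ * (1 - δ) ^ M) * ∑ ω ∈ confs D a b, wt n x a ω := by ring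
    _ ≤ _ := mul_le_mul_of_nonneg_right h2 hZ

/-- the expectation of an indicator is at most one -/
theorem fin_Ex_ind (n x : ℝ) (hn : 0 < n) (hx : 0 < x) (D : Finset Ed) (a b : Vx)
    (p : Finset Ed → Prop) : Ex n x D a b (fun ω => if p ω then 0 else 1) ≤ 1 := by
  unfold Ex
  refine div_le_one_of_le₀ (Finset.sum_le_sum fun ω _ => ?_)
    (Finset.sum_nonneg fun ω _ => (fin_wt_pos n x hn hx a ω).le)
  have := (fin_wt_pos n x hn hx a ω).le
  show wt n x a ω * (if p ω then 0 else 1) ≤ wt n x a ω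
  split_ifs
  · simpa using this
  · simp

theorem fin_Ex_abs (n x : ℝ) (hn : 0 < n) (hx : 0 < x) (D : Finset Ed) (a b : Vx)
    (f : Finset Ed → ℝ) (hf : ∀ ω, |f ω| ≤ 1) : |Ex n x D a b f| ≤ 1 := by
  unfold Ex
  have hZ : 0 ≤ ∑ ω ∈ confs D a b, wt n x a ω :=
    Finset.sum_nonneg fun ω _ => (fin_wt_pos n x hn hx a ω).le
  rw [abs_div, abs_of_nonneg hZ]
  refine div_le_one_of_le₀ ?_ hZ
  refine (Finset.abs_sum_le_sum_abs _ _).trans (Finset.sum_le_sum fun ω _ => ?_)
  have := (fin_wt_pos n x hn hx a ω).le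
  rw [abs_mul, abs_of_nonneg this]
  calc _ ≤ wt n x a ω * 1 := mul_le_mul_of_nonneg_left (hf ω) this
    _ = _ := by ring

theorem t_FIN1 (h1 : J_LFLIP) (h2 : J_PROB) (h3 : J_ABS) (h4 : J_GLP) : J_FIN1 := by
  intro n x hn hx0
  obtain ⟨δ, hδ0, hδ1, hP⟩ := h2 n x hn hx0
  set y : ℝ := x ^ 2 with hy
  have hy0 : 0 < y := by positivity
  set B : ℝ := (1 + y) ^ 2 / y with hB
  have hB0 : 0 < B := by positivity
  set A : ℝ := 80 / δ with hA
  have hA80 : 80 < A := by
    rw [hA, lt_div_iff₀ hδ0]
    linarith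
  have hAδ : A * δ = 80 := by
    rw [hA]
    field_simp
  set C : ℝ := (B + 6) * A with hC
  have hCA : 6 * A ≤ C := by
    rw [hC]
    nlinarith
  have hCB : B ≤ C := by
    rw [hC]
    nlinarith
  have hC0 : 0 < C := by linarith
  have hC480 : 480 < C := by linarith
  refine ⟨C, hC0, ?_⟩
  intro D a b m hD hne hm hlev
  have hZ : 0 < ∑ ω ∈ confs D a b, wt n x a ω :=
    Finset.sum_pos (fun ω _ => fin_wt_pos n x hn hx0 a ω) hne
  set Z : ℝ := ∑ ω ∈ confs D a b, wt n x a ω with hZdef
  have hmR : (1 : ℝ) ≤ m := by exact_mod_cast hm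
  have hsm1 : 1 ≤ √(m : ℝ) := Real.one_le_sqrt.mpr hmR
  rcases Nat.lt_or_ge m 78 with hsmall | hbig
  · -- nothing is claimed
    have hm78 : (m : ℝ) < 78 := by exact_mod_cast hsmall
    refine ⟨?_, ?_⟩
    · refine (fin_Ex_ind n x hn hx0 D a b _).trans ?_
      have e1 : Real.exp (-1) ≤ Real.exp (-(m : ℝ) / C) := by
        apply Real.exp_le_exp.mpr
        rw [le_div_iff₀ hC0]
        linarith
      have e2 : (1 : ℝ) / 3 ≤ Real.exp (-1) := by
        rw [Real.exp_neg, one_div]
        apply inv_anti₀ (Real.exp_pos _)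
        have := Real.exp_one_lt_d9
        linarith
      nlinarith
    · intro F η g hη hF _ hg
      have h9 : √(m : ℝ) ≤ 9 := by
        rw [show (9 : ℝ) = √(81) by
          rw [show (81 : ℝ) = 9 ^ 2 by norm_num, Real.sqrt_sq (by norm_num)]]
        exact Real.sqrt_le_sqrt (by linarith)
      have hb : ∀ (γ : Finset Ed) (j : ℕ), |F γ * g j| ≤ 1 := fun γ j => by
        rw [abs_mul]
        exact mul_le_one₀ (hF γ) (abs_nonneg _) (hg j)
      have e1 := fin_Ex_abs n x hn hx0 D a b (fun ω => F (path a ω) * g (len a ω))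
        (fun ω => hb _ _)
      have e2 := fin_Ex_abs n x hn hx0 D a b (fun ω => F (path a ω) * g (len a ω + 2))
        (fun ω => hb _ _)
      have e3 : (2 : ℝ) ≤ C * (1 / √(m : ℝ) + η) := by
        have : 1 / 9 ≤ 1 / √(m : ℝ) := one_div_le_one_div_of_le (by linarith) h9
        nlinarith
      refine (abs_sub _ _).trans ?_
      linarith
  · -- the main case
    set M : ℕ := m / 20 - 1 with hM
    have hM1 : 20 * M + 20 ≤ m := by omega
    have hM2 : m ≤ 20 * M + 39 := by omega
    have hM1Z : 20 * (M : ℤ) + 20 ≤ lev a b := by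
      have : (20 * (M : ℤ) + 20) ≤ (m : ℤ) := by exact_mod_cast hM1
      linarith
    have hm78 : (78 : ℝ) ≤ m := by exact_mod_cast hbig
    have hM2R : (m : ℝ) ≤ 20 * M + 39 := by exact_mod_cast hM2
    have hMm : (m : ℝ) / 40 ≤ M := by linarith
    set τ : ℕ := ⌊δ * M / 2⌋₊ + 1 with hτ
    have hτ1 : (τ : ℝ) ≤ δ * M / 2 + 1 := by
      rw [hτ]
      push_cast
      have := Nat.floor_le (show 0 ≤ δ * M / 2 by positivity)
      linarith
    have hτ2 : δ * M / 2 ≤ (τ : ℝ) := by
      rw [hτ]
      push_cast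
      exact (Nat.lt_floor_add_one _).le
    have hτm : (m : ℝ) / A ≤ τ := by
      rw [hA]
      have : (m : ℝ) / (80 / δ) = δ * (m / 40) / 2 := by
        field_simp
        ring
      rw [this]
      refine le_trans ?_ hτ2
      have := mul_le_mul_of_nonneg_left hMm hδ0.le
      linarith
    have hfew := fin_few n x hn hx0 δ hδ1 D a b M τ hτ1 (hP D a b M hD hM1Z)
    rw [← hZdef] at hfew
    have hexp : Real.exp (1 - δ * M / 2) ≤ 3 * Real.exp (-(m : ℝ) / A) := by
      have e1 : Real.exp (1 - δ * M / 2) ≤ Real.exp (1 + -(m : ℝ) / A) := by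
        apply Real.exp_le_exp.mpr
        have : (m : ℝ) / A = δ * (m / 40) / 2 := by
          rw [hA]
          field_simp
          ring
        rw [neg_div, this]
        have := mul_le_mul_of_nonneg_left hMm hδ0.le
        linarith
      rw [Real.exp_add] at e1
      have e2 : Real.exp 1 ≤ 3 := by
        have := Real.exp_one_lt_d9
        linarith
      exact e1.trans (mul_le_mul_of_nonneg_right e2 (Real.exp_pos _).le)
    have hA0 : 0 < A := by linarith
    have hCA' : A ≤ C := by linarith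
    refine ⟨?_, ?_⟩
    · -- (1)
      have e1 : Ex n x D a b (fun ω => if ∃ S : Finset (ℤ × ℤ), (m : ℝ) / C ≤ S.card ∧
          ∀ t ∈ S, ∃ k : Fin 6, path a ω ∩ hex t = {hx t k, hx t (k + 1)} ∨
          path a ω ∩ hex t = hex t \ {hx t k, hx t (k + 1)} then 0 else 1) ≤
          Real.exp (1 - δ * M / 2) := by
        unfold Ex
        rw [div_le_iff₀ hZ]
        refine le_trans ?_ hfew
        rw [Finset.sum_filter]
        refine Finset.sum_le_sum fun ω hω => ?_
        have hw := (fin_wt_pos n x hn hx0 a ω).le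
        beta_reduce
        by_cases hc : (Glv D a M ω).card < τ
        · rw [if_pos hc]
          split_ifs
          · simpa using hw
          · simp
        · rw [if_neg hc]
          rw [if_pos]
          · simp
          obtain ⟨S, hS1, hS2⟩ := h4 D a b M ω hD (Finset.mem_filter.mp hω).2 hM1Z
          refine ⟨S, ?_, hS2⟩
          rw [hS1]
          have : τ ≤ (Glv D a M ω).card := not_lt.mp hc
          have h5 : (τ : ℝ) ≤ ((Glv D a M ω).card : ℝ) := by exact_mod_cast this
          refine le_trans ?_ (hτm.trans h5)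
          exact div_le_div_of_nonneg_left (by linarith) hA0 hCA'
      refine e1.trans (hexp.trans ?_)
      have e2 : Real.exp (-(m : ℝ) / A) ≤ Real.exp (-(m : ℝ) / C) := by
        apply Real.exp_le_exp.mpr
        rw [neg_div, neg_div, neg_le_neg_iff]
        exact div_le_div_of_nonneg_left (by linarith) hA0 hCA'
      have e3 := Real.exp_pos (-(m : ℝ) / C)
      nlinarith
    · -- (2)
      intro F η g hη hF hB1 hg
      have habs := h3 (Finset Ed) (confs D a b) (wt n x a) (Glv D a M)
        (fun ω => (Glv D a M ω).filter fun r => Four D a r ω) (sg D a) (len a)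
        (fun ω => F (path a ω)) g y η τ hy0 hη (by omega)
        (fun ω _ => (fin_wt_pos n x hn hx0 a ω).le) (fun ω => Finset.filter_subset _ _) (by
          intro ω hω r hr
          have hconf := (Finset.mem_filter.mp hω).2
          have hr' := Finset.mem_filter.mp hr
          have hrI := Finset.mem_Icc.mp hr'.1
          obtain ⟨q1, q2, q3, q4, q5, q6, _⟩ :=
            h1 n x D a b M r ω hn hx0 hD hconf hM1Z hrI.1 hrI.2 hr'.2
          have hG : Glv D a M (sg D a r ω) = Glv D a M ω := by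
            unfold Glv
            refine Finset.filter_congr fun s hs => ?_
            rw [Finset.mem_Icc] at hs
            exact q3 s hs.1 hs.2
          refine ⟨Finset.mem_filter.mpr ⟨Finset.mem_powerset.mpr q1.1, q1⟩, q2, hG, ?_, ?_, ?_⟩
          · intro s hs
            rw [Finset.mem_filter, Finset.mem_filter, hG]
            constructor
            · rintro ⟨c1, c2⟩
              have hsI := Finset.mem_Icc.mp (Finset.mem_filter.mp c1).1
              exact ⟨c1, (q4 s hsI.1 hsI.2 hs).mp c2⟩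
            · rintro ⟨c1, c2⟩
              have hsI := Finset.mem_Icc.mp (Finset.mem_filter.mp c1).1
              exact ⟨c1, (q4 s hsI.1 hsI.2 hs).mpr c2⟩
          · rw [Finset.mem_filter, Finset.mem_filter, hG, q5]
            constructor
            · rintro ⟨_, c2⟩ c3
              exact c2 c3.2
            · intro c
              exact ⟨hr, fun c2 => c ⟨hr, c2⟩⟩
          · rcases q6 with q6 | q6
            · rw [abs_sub_comm]
              exact hB1 _ _ q6
            · exact hB1 _ _ q6) (by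
          intro ω hω r hr hnS
          have hconf := (Finset.mem_filter.mp hω).2
          have hr' := Finset.mem_filter.mp hr
          have hrI := Finset.mem_Icc.mp hr'.1
          obtain ⟨_, _, _, _, _, _, q7⟩ :=
            h1 n x D a b M r ω hn hx0 hD hconf hM1Z hrI.1 hrI.2 hr'.2
          have hF4 : ¬ Four D a r ω := fun c => hnS (Finset.mem_filter.mpr ⟨hr, c⟩)
          exact q7 hF4) (fun ω _ => hF _) hg
      rw [← hZdef, ← hB] at habs
      unfold Ex
      rw [← hZdef, ← sub_div, abs_div, abs_of_pos hZ, div_le_iff₀ hZ]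
      refine habs.trans ?_
      have hτ0 : 0 < (m : ℝ) / A := by positivity
      have c1 : 1 / √(τ : ℝ) ≤ A / √(m : ℝ) := by
        have s1 : √((m : ℝ) / A) ≤ √(τ : ℝ) := Real.sqrt_le_sqrt hτm
        have s2 : 0 < √((m : ℝ) / A) := Real.sqrt_pos.mpr hτ0
        have s3 : 1 / √(τ : ℝ) ≤ 1 / √((m : ℝ) / A) := one_div_le_one_div_of_le s2 s1
        refine s3.trans ?_
        rw [Real.sqrt_div (by linarith), one_div_div]
        apply div_le_div_of_nonneg_right _ (by linarith)
        rw [Real.sqrt_le_left hA0.le]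
        nlinarith
      have c2 : Real.exp (-(m : ℝ) / A) ≤ A / √(m : ℝ) := by
        have s1 : (m : ℝ) / A ≤ Real.exp ((m : ℝ) / A) := by
          have := Real.add_one_le_exp ((m : ℝ) / A)
          linarith
        rw [neg_div, Real.exp_neg]
        have s2 : (Real.exp ((m : ℝ) / A))⁻¹ ≤ ((m : ℝ) / A)⁻¹ := inv_anti₀ hτ0 s1
        refine s2.trans ?_
        rw [inv_div]
        apply div_le_div_of_nonneg_left hA0.le (by linarith)
        rw [Real.sqrt_le_left (by linarith)]
        nlinarith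
      have c3 : ∑ ω ∈ (confs D a b).filter (fun ω => (Glv D a M ω).card < τ), wt n x a ω ≤
          3 * (A / √(m : ℝ)) * Z := by
        refine hfew.trans ?_
        refine mul_le_mul_of_nonneg_right ?_ hZ.le
        refine hexp.trans ?_
        linarith
      have c4 : B * (1 / √(τ : ℝ) + η) * Z ≤ B * (A / √(m : ℝ) + η) * Z := by
        refine mul_le_mul_of_nonneg_right (mul_le_mul_of_nonneg_left ?_ hB0.le) hZ.le
        linarith
      have c5 : B * (A / √(m : ℝ) + η) * Z + 2 * (3 * (A / √(m : ℝ)) * Z) =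
          (C / √(m : ℝ) + B * η) * Z := by
        rw [hC]
        ring
      have c6 : (C / √(m : ℝ) + B * η) * Z ≤ C * (1 / √(m : ℝ) + η) * Z := by
        refine mul_le_mul_of_nonneg_right ?_ hZ.le
        have : B * η ≤ C * η := mul_le_mul_of_nonneg_right hCB hη
        calc C / √(m : ℝ) + B * η ≤ C / √(m : ℝ) + C * η := by linarith
          _ = _ := by ring
      linarith

end Pool.Agent.H737ON
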