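import Pool.Agent.Run7.h737.ON.Iface

/-!
# Piece FIN2: the corollaries (3), (4), (5)
-/

set_option autoImplicit false

open scoped Classical

noncomputable section

namespace Pool.Agent.H737ON

namespace FIN2

variable {n x : ℝ} {D : Finset Ed} {a b : Vx}

theorem wt_pos (hn : 0 < n) (hx : 0 < x) (a : Vx) (ω : Finset Ed) : 0 < wt n x a ω := by
  unfold wt; positivity

theorem Z_pos (hn : 0 < n) (hx : 0 < x) (h : (confs D a b).Nonempty) :
    0 < ∑ ω ∈ confs D a b, wt n x a ω :=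
  Finset.sum_pos (fun ω _ => wt_pos hn hx a ω) h

theorem ex_sub (n x : ℝ) (D : Finset Ed) (a b : Vx) (f g : Finset Ed → ℝ) :
    Ex n x D a b f - Ex n x D a b g = Ex n x D a b (fun ω => f ω - g ω) := by
  unfold Ex
  rw [← sub_div, ← Finset.sum_sub_distrib]
  congr 1
  exact Finset.sum_congr rfl fun ω _ => by ring

theorem ex_mono (hn : 0 < n) (hx : 0 < x) {f g : Finset Ed → ℝ}
    (h : ∀ ω, f ω ≤ g ω) : Ex n x D a b f ≤ Ex n x D a b g := by
  unfold Ex
  refine div_le_div_of_nonneg_right ?_ (Finset.sum_nonneg fun ω _ => (wt_pos hn hx a ω).le)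
  exact Finset.sum_le_sum fun ω _ => mul_le_mul_of_nonneg_left (h ω) (wt_pos hn hx a ω).le

theorem ex_const (hn : 0 < n) (hx : 0 < x) (h : (confs D a b).Nonempty) (c : ℝ) :
    Ex n x D a b (fun _ => c) = c := by
  unfold Ex
  rw [← Finset.sum_mul, mul_comm]
  exact mul_div_cancel_right₀ c (Z_pos hn hx h).ne'

theorem ex_mul (n x : ℝ) (D : Finset Ed) (a b : Vx) (c : ℝ) (f : Finset Ed → ℝ) :
    Ex n x D a b (fun ω => c * f ω) = c * Ex n x D a b f := by
  unfold Ex
  rw [← mul_div_assoc, Finset.mul_sum]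
  congr 1
  exact Finset.sum_congr rfl fun ω _ => by ring

theorem ex_sum {ι : Type} (n x : ℝ) (D : Finset Ed) (a b : Vx) (s : Finset ι)
    (f : ι → Finset Ed → ℝ) :
    Ex n x D a b (fun ω => ∑ i ∈ s, f i ω) = ∑ i ∈ s, Ex n x D a b (f i) := by
  unfold Ex
  rw [← Finset.sum_div]
  congr 1
  rw [Finset.sum_comm]
  exact Finset.sum_congr rfl fun ω _ => by rw [Finset.mul_sum]

/-- part (3) -/
theorem atoms {C : ℝ} {m : ℕ}
    (H : ∀ (F : Finset Ed → ℝ) (η : ℝ) (g : ℕ → ℝ), 0 ≤ η → (∀ γ, |F γ| ≤ 1) →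
      (∀ γ γ', Bump γ γ' → |F γ - F γ'| ≤ η) → (∀ j, |g j| ≤ 1) →
      |Ex n x D a b (fun ω => F (path a ω) * g (len a ω)) -
        Ex n x D a b (fun ω => F (path a ω) * g (len a ω + 2))| ≤ C * (1 / √(m : ℝ) + η))
    (j : ℕ) : Ex n x D a b (fun ω => if len a ω = j then 1 else 0) ≤ C / √(m : ℝ) := by
  have h := H (fun _ => 1) 0 (fun i => if i ≤ j ∧ i % 2 = j % 2 then 1 else 0) le_rfl
    (fun _ => by simp) (fun _ _ _ => by simp)
    (fun i => by split_ifs <;> simp)
  rw [ex_sub] at h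
  have e : (fun ω => if len a ω = j then (1 : ℝ) else 0) = (fun ω =>
      (1 : ℝ) * (if len a ω ≤ j ∧ len a ω % 2 = j % 2 then 1 else 0) -
        1 * (if len a ω + 2 ≤ j ∧ (len a ω + 2) % 2 = j % 2 then 1 else 0)) := by
    funext ω
    by_cases h1 : len a ω = j
    · have h2 : ¬ (len a ω + 2 ≤ j ∧ (len a ω + 2) % 2 = j % 2) := by omega
      have h3 : len a ω ≤ j ∧ len a ω % 2 = j % 2 := by omega
      rw [if_pos h1, if_pos h3, if_neg h2]; ring
    · rw [if_neg h1]
      by_cases h3 : len a ω ≤ j ∧ len a ω % 2 = j % 2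
      · have h2 : len a ω + 2 ≤ j ∧ (len a ω + 2) % 2 = j % 2 := by omega
        rw [if_pos h3, if_pos h2]; ring
      · have h2 : ¬ (len a ω + 2 ≤ j ∧ (len a ω + 2) % 2 = j % 2) := by omega
        rw [if_neg h3, if_neg h2]; ring
  rw [e]
  refine (le_abs_self _).trans (h.trans (le_of_eq ?_))
  rw [add_zero, mul_one_div]

/-- part (4) -/
theorem variance (hn : 0 < n) (hx : 0 < x) (hne : (confs D a b).Nonempty) {C : ℝ} (hC : 0 < C)
    {m : ℕ} (hm : 1 ≤ m) (hCm : 16 * C ^ 2 ≤ m)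
    (H : ∀ j : ℕ, Ex n x D a b (fun ω => if len a ω = j then 1 else 0) ≤ C / √(m : ℝ)) (s : ℝ) :
    (m : ℝ) / (128 * C ^ 2) ≤ Ex n x D a b (fun ω => ((len a ω : ℝ) - s) ^ 2) := by
  have hm0 : (0 : ℝ) < m := by exact_mod_cast hm
  have hsq : 0 < √(m : ℝ) := Real.sqrt_pos.2 hm0
  have hss : √(m : ℝ) * √(m : ℝ) = m := Real.mul_self_sqrt hm0.le
  set R : ℝ := √(m : ℝ) / (8 * C) with hR
  have hR0 : 0 < R := by positivity
  set J : Finset ℕ := (Finset.Icc ⌈s - R⌉ ⌊s + R⌋).image Int.toNat with hJ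
  have hcard : (J.card : ℝ) ≤ 2 * R + 1 := by
    have h1 : J.card ≤ (⌊s + R⌋ + 1 - ⌈s - R⌉).toNat := by
      refine Finset.card_image_le.trans ?_
      rw [Int.card_Icc]
    have h2 : (((⌊s + R⌋ + 1 - ⌈s - R⌉).toNat : ℕ) : ℝ) ≤ 2 * R + 1 := by
      rcases le_total 0 (⌊s + R⌋ + 1 - ⌈s - R⌉) with h | h
      · have h3 : (((⌊s + R⌋ + 1 - ⌈s - R⌉).toNat : ℕ) : ℝ) = ((⌊s + R⌋ + 1 - ⌈s - R⌉ : ℤ) : ℝ) := by
          have := Int.toNat_of_nonneg h
          exact_mod_cast congrArg (fun z : ℤ => (z : ℝ)) this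
        rw [h3]
        push_cast
        have h4 := Int.floor_le (s + R)
        have h5 := Int.le_ceil (s - R)
        linarith
      · rw [Int.toNat_of_nonpos h]
        simp only [Nat.cast_zero]
        linarith
    exact le_trans (by exact_mod_cast h1) h2
  have hpt : ∀ ω : Finset Ed, R ^ 2 * (1 - ∑ j ∈ J, (if len a ω = j then (1 : ℝ) else 0)) ≤
      ((len a ω : ℝ) - s) ^ 2 := by
    intro ω
    by_cases h : |(len a ω : ℝ) - s| ≤ R
    · have hmem : len a ω ∈ J := by
        rw [hJ, Finset.mem_image]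
        refine ⟨(len a ω : ℤ), ?_, by simp⟩
        rw [abs_le] at h
        rw [Finset.mem_Icc]
        constructor
        · rw [Int.ceil_le]; push_cast; linarith [h.1]
        · rw [Int.le_floor]; push_cast; linarith [h.2]
      have h1 : ∑ j ∈ J, (if len a ω = j then (1 : ℝ) else 0) = 1 := by
        rw [Finset.sum_ite_eq, if_pos hmem]
      rw [h1]
      nlinarith [sq_nonneg ((len a ω : ℝ) - s)]
    · push Not at h
      have h1 : 0 ≤ ∑ j ∈ J, (if len a ω = j then (1 : ℝ) else 0) :=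
        Finset.sum_nonneg fun j _ => by split_ifs <;> norm_num
      have h2 : R ^ 2 ≤ ((len a ω : ℝ) - s) ^ 2 := by
        rw [← sq_abs ((len a ω : ℝ) - s)]
        exact pow_le_pow_left₀ hR0.le h.le 2
      nlinarith [sq_nonneg R, mul_nonneg (sq_nonneg R) h1]
  have h1 : R ^ 2 * (1 - ∑ j ∈ J, Ex n x D a b (fun ω => if len a ω = j then (1 : ℝ) else 0)) ≤
      Ex n x D a b (fun ω => ((len a ω : ℝ) - s) ^ 2) := by
    refine le_trans (le_of_eq ?_) (ex_mono (D := D) (a := a) (b := b) hn hx hpt)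
    rw [ex_mul, ← ex_sub n x D a b (fun _ => (1 : ℝ)), ex_const hn hx hne, ex_sum]
  have h2 : ∑ j ∈ J, Ex n x D a b (fun ω => if len a ω = j then (1 : ℝ) else 0) ≤ 1 / 2 := by
    calc ∑ j ∈ J, Ex n x D a b (fun ω => if len a ω = j then (1 : ℝ) else 0)
        ≤ ∑ j ∈ J, C / √(m : ℝ) := Finset.sum_le_sum fun j _ => H j
      _ = J.card * (C / √(m : ℝ)) := by rw [Finset.sum_const, nsmul_eq_mul]
      _ ≤ (2 * R + 1) * (C / √(m : ℝ)) := mul_le_mul_of_nonneg_right hcard (by positivity)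
      _ = 1 / 4 + C / √(m : ℝ) := by
          rw [hR]; field_simp; ring
      _ ≤ 1 / 4 + 1 / 4 := by
          have h4 : 4 * C ≤ √(m : ℝ) := by
            apply Real.le_sqrt_of_sq_le
            nlinarith
          have h5 : C / √(m : ℝ) ≤ 1 / 4 := by
            rw [div_le_iff₀ hsq]; linarith
          linarith
      _ = 1 / 2 := by norm_num
  refine le_trans ?_ h1
  have h3 : R ^ 2 = (m : ℝ) / (64 * C ^ 2) := by
    rw [hR, div_pow, sq (√(m : ℝ)), hss]; ring
  have h6 : (m : ℝ) / (128 * C ^ 2) = (m : ℝ) / (64 * C ^ 2) * (1 / 2) := by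
    field_simp; norm_num
  rw [h3, h6]
  exact mul_le_mul_of_nonneg_left (by linarith) (by positivity)

/-- part (5) -/
theorem residues {C : ℝ} (hC : 0 < C) {m : ℕ} (hm : 1 ≤ m)
    (H : ∀ (F : Finset Ed → ℝ) (η : ℝ) (g : ℕ → ℝ), 0 ≤ η → (∀ γ, |F γ| ≤ 1) →
      (∀ γ γ', Bump γ γ' → |F γ - F γ'| ≤ η) → (∀ j, |g j| ≤ 1) →
      |Ex n x D a b (fun ω => F (path a ω) * g (len a ω)) -
        Ex n x D a b (fun ω => F (path a ω) * g (len a ω + 2))| ≤ C * (1 / √(m : ℝ) + η))
    (F : Finset Ed → ℝ) (η : ℝ) (q s : ℕ) (hη : 0 ≤ η) (hF : ∀ γ, |F γ| ≤ 1)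
    (hB : ∀ γ γ', Bump γ γ' → |F γ - F γ'| ≤ η) (hq : 1 ≤ q) :
    |q * Ex n x D a b (fun ω => if len a ω ≡ s [MOD 2 * q] then F (path a ω) else 0) -
        Ex n x D a b (fun ω => if len a ω ≡ s [MOD 2] then F (path a ω) else 0)| ≤
        C * q ^ 2 * (1 / √(m : ℝ) + η) := by
  have hm0 : (0 : ℝ) < m := by exact_mod_cast hm
  have hsq : 0 < √(m : ℝ) := Real.sqrt_pos.2 hm0
  set B : ℝ := C * (1 / √(m : ℝ) + η) with hBdef
  have hB0 : 0 ≤ B := by positivity
  set E : ℕ → ℝ := fun j =>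
    Ex n x D a b (fun ω => if len a ω ≡ s + 2 * j [MOD 2 * q] then F (path a ω) else 0) with hE
  have hstep : ∀ j, |E (j + 1) - E j| ≤ B := by
    intro j
    have h := H F η (fun i => if i ≡ s + 2 * (j + 1) [MOD 2 * q] then 1 else 0) hη hF hB
      (fun i => by split_ifs <;> simp)
    have e1 : (fun ω => F (path a ω) * (if len a ω ≡ s + 2 * (j + 1) [MOD 2 * q] then (1 : ℝ) else 0))
        = fun ω => if len a ω ≡ s + 2 * (j + 1) [MOD 2 * q] then F (path a ω) else 0 := by
      funext ω; split_ifs <;> simp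
    have e2 : (fun ω => F (path a ω) *
        (if len a ω + 2 ≡ s + 2 * (j + 1) [MOD 2 * q] then (1 : ℝ) else 0))
        = fun ω => if len a ω ≡ s + 2 * j [MOD 2 * q] then F (path a ω) else 0 := by
      funext ω
      have : (len a ω + 2 ≡ s + 2 * (j + 1) [MOD 2 * q]) ↔ (len a ω ≡ s + 2 * j [MOD 2 * q]) := by
        rw [show s + 2 * (j + 1) = s + 2 * j + 2 by ring]
        exact ⟨fun h => Nat.ModEq.add_right_cancel' 2 h, fun h => Nat.ModEq.add_right 2 h⟩
      simp only [this]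
      split_ifs <;> simp
    rw [e1, e2] at h
    exact h
  have hdist : ∀ j, |E j - E 0| ≤ j * B := by
    intro j
    induction j with
    | zero => simp
    | succ j ih =>
      calc |E (j + 1) - E 0| = |(E (j + 1) - E j) + (E j - E 0)| := by ring_nf
        _ ≤ |E (j + 1) - E j| + |E j - E 0| := abs_add_le _ _
        _ ≤ B + j * B := add_le_add (hstep j) ih
        _ = ((j + 1 : ℕ) : ℝ) * B := by push_cast; ring
  have hsum : Ex n x D a b (fun ω => if len a ω ≡ s [MOD 2] then F (path a ω) else 0) =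
      ∑ j ∈ Finset.range q, E j := by
    rw [hE]
    rw [← ex_sum n x D a b (Finset.range q)
      (fun j ω => if len a ω ≡ s + 2 * j [MOD 2 * q] then F (path a ω) else 0)]
    congr 1
    funext ω
    set l := len a ω
    by_cases h : l ≡ s [MOD 2]
    · rw [if_pos h]
      -- the unique residue
      have h2q : 0 < 2 * q := by omega
      set u : ℕ := (l + (2 * q - 1) * s) % (2 * q) with hu
      have hu2 : u < 2 * q := Nat.mod_lt _ h2q
      have hmod : s + u ≡ l [MOD 2 * q] := by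
        have h1 : u ≡ l + (2 * q - 1) * s [MOD 2 * q] := Nat.mod_modEq _ _
        have h2 : s + u ≡ s + (l + (2 * q - 1) * s) [MOD 2 * q] := Nat.ModEq.add_left s h1
        refine h2.trans ?_
        have h3 : s + (l + (2 * q - 1) * s) = l + 2 * q * s := by
          have : (2 * q - 1) * s + s = 2 * q * s := by
            have h4 : 2 * q - 1 + 1 = 2 * q := by omega
            calc (2 * q - 1) * s + s = (2 * q - 1 + 1) * s := by ring
              _ = 2 * q * s := by rw [h4]
          omega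
        rw [h3]
        have h5 : 2 * q * s ≡ 0 [MOD 2 * q] := by
          unfold Nat.ModEq; simp
        exact Nat.ModEq.add_left l h5
      have hpar : u % 2 = 0 := by
        have h6 : s + u ≡ l [MOD 2] := hmod.of_dvd ⟨q, rfl⟩
        have h7 : s + u ≡ s [MOD 2] := h6.trans h
        unfold Nat.ModEq at h7
        omega
      set j₀ : ℕ := u / 2 with hj0
      have hu' : u = 2 * j₀ := by omega
      have hj0q : j₀ < q := by omega
      have key : ∀ j ∈ Finset.range q, (l ≡ s + 2 * j [MOD 2 * q] ↔ j = j₀) := by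
        intro j hj
        rw [Finset.mem_range] at hj
        constructor
        · intro h8
          have h9 : s + u ≡ s + 2 * j [MOD 2 * q] := hmod.trans h8
          have h10 : u ≡ 2 * j [MOD 2 * q] := Nat.ModEq.add_left_cancel' s h9
          have h11 : u = 2 * j := Nat.ModEq.eq_of_lt_of_lt h10 hu2 (by omega)
          omega
        · intro h8
          subst h8
          rw [← hu']
          exact hmod.symm
      rw [Finset.sum_congr rfl (fun j hj => by
        rw [show (if l ≡ s + 2 * j [MOD 2 * q] then F (path a ω) else 0) =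
          (if j = j₀ then F (path a ω) else 0) from if_congr (key j hj) rfl rfl])]
      rw [Finset.sum_ite_eq', if_pos (Finset.mem_range.2 hj0q)]
    · rw [if_neg h]
      symm
      apply Finset.sum_eq_zero
      intro j _
      rw [if_neg]
      intro h8
      apply h
      have h9 : l ≡ s + 2 * j [MOD 2] := h8.of_dvd ⟨q, rfl⟩
      refine h9.trans ?_
      unfold Nat.ModEq; omega
  have hE0 : Ex n x D a b (fun ω => if len a ω ≡ s [MOD 2 * q] then F (path a ω) else 0) = E 0 := by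
    rw [hE]; simp only [mul_zero, add_zero]
  rw [hE0, hsum]
  have h1 : (q : ℝ) * E 0 - ∑ j ∈ Finset.range q, E j = ∑ j ∈ Finset.range q, (E 0 - E j) := by
    rw [Finset.sum_sub_distrib, Finset.sum_const, Finset.card_range, nsmul_eq_mul]
  rw [h1]
  calc |∑ j ∈ Finset.range q, (E 0 - E j)| ≤ ∑ j ∈ Finset.range q, |E 0 - E j| :=
        Finset.abs_sum_le_sum_abs _ _
    _ ≤ ∑ j ∈ Finset.range q, (q : ℝ) * B := by
        refine Finset.sum_le_sum fun j hj => ?_
        rw [abs_sub_comm]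
        refine (hdist j).trans (mul_le_mul_of_nonneg_right ?_ hB0)
        exact_mod_cast (Finset.mem_range.1 hj).le
    _ = C * q ^ 2 * (1 / √(m : ℝ) + η) := by
        rw [Finset.sum_const, Finset.card_range, nsmul_eq_mul, hBdef]; ring

end FIN2

open FIN2 in
theorem t_FIN2 : J_FIN2 := by
  intro h n x hn hx0
  obtain ⟨C, hC, H⟩ := h n x hn hx0
  refine ⟨C + 128 * C ^ 2, by positivity, ?_⟩
  intro D a b m hD hne hm hlev
  obtain ⟨H1, H2⟩ := H D a b m hD hne hm hlev
  have hle : C ≤ C + 128 * C ^ 2 := by nlinarith [sq_nonneg C]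
  have hC' : 0 < C + 128 * C ^ 2 := by positivity
  have hm0 : (0 : ℝ) < m := by exact_mod_cast hm
  have hsq : 0 < √(m : ℝ) := Real.sqrt_pos.2 hm0
  have h3 := atoms H2
  refine ⟨?_, ?_, ?_, ?_, ?_⟩
  · refine le_trans (ex_mono hn hx0 ?_) (H1.trans ?_)
    · intro ω
      by_cases h1 : ∃ S : Finset (ℤ × ℤ), (m : ℝ) / C ≤ S.card ∧ ∀ t ∈ S, ∃ k : Fin 6,
        path a ω ∩ hex t = {hx t k, hx t (k + 1)} ∨
        path a ω ∩ hex t = hex t \ {hx t k, hx t (k + 1)}
      · rw [if_pos h1]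
        obtain ⟨S, hS, hS2⟩ := h1
        rw [if_pos ⟨S, le_trans (div_le_div_of_nonneg_left hm0.le hC hle) hS, hS2⟩]
      · rw [if_neg h1]
        split_ifs <;> norm_num
    · refine mul_le_mul hle (Real.exp_le_exp.2 ?_) (Real.exp_pos _).le hC'.le
      rw [neg_div, neg_div, neg_le_neg_iff]
      exact div_le_div_of_nonneg_left hm0.le hC hle
  · intro F η g hη hF hB hg
    exact (H2 F η g hη hF hB hg).trans (mul_le_mul_of_nonneg_right hle (by positivity))
  · intro j
    exact (h3 j).trans (div_le_div_of_nonneg_right hle hsq.le)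
  · intro hCm s
    have h4 := variance (m := m) hn hx0 hne hC hm (by nlinarith [sq_nonneg C]) h3 s
    refine le_trans ?_ h4
    exact div_le_div_of_nonneg_left hm0.le (by positivity) (by linarith)
  · intro F η q s hη hF hB hq
    refine (residues hC hm H2 F η q s hη hF hB hq).trans ?_
    refine mul_le_mul_of_nonneg_right (mul_le_mul_of_nonneg_right hle (by positivity)) (by positivity)

end Pool.Agent.H737ON
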