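import Pool.Agent.Run7.h737.ON.RER

/-!
# ON: the piece FLIPA
-/

set_option autoImplicit false

open scoped Classical

noncomputable section

namespace Pool.Agent.H737ON

open Rr

namespace Rr

/-- the degree of a vertex of the hexagon -/
lemma deg_hv (ω : Finset Ed) (t : ℤ × ℤ) (j : Fin 6) : deg ω (hv t j) =
    (if hx t j ∈ ω then 1 else 0) + (if hx t (j - 1) ∈ ω then 1 else 0) + (if out t j ∈ ω then 1 else 0) := by
  have h1 : (ω.filter fun e => up e = hv t j ∨ dn e = hv t j) =
      ({hx t j, hx t (j - 1), out t j} : Finset Ed).filter (· ∈ ω) := by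
    ext e
    rw [Finset.mem_filter, Finset.mem_filter, inc, Finset.mem_insert, Finset.mem_insert, Finset.mem_singleton]
    tauto
  have h2 : hx t j ≠ hx t (j - 1) := fun h => by
    have := hx_inj t h
    revert this
    fin_cases j <;> decide
  have h3 : hx t j ≠ out t j := fun h => out_notMem t j (h ▸ mem_hex.2 ⟨j, rfl⟩)
  have h4 : hx t (j - 1) ≠ out t j := fun h => out_notMem t j (h ▸ mem_hex.2 ⟨j - 1, rfl⟩)
  unfold deg
  rw [h1, Finset.card_filter, Finset.sum_insert, Finset.sum_insert, Finset.sum_singleton]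
  · rw [add_assoc]
  · simpa using h4
  · simpa using ⟨h2, h3⟩

lemma deg_of_ne {ω : Finset Ed} {t : ℤ × ℤ} {v : Vx} (h : ∀ j, v ≠ hv t j) :
    deg (symmDiff ω (hex t)) v = deg ω v := by
  unfold deg
  congr 1
  ext e
  rw [Finset.mem_filter, Finset.mem_filter]
  refine and_congr_left fun he => mem_sd' fun hh => ?_
  obtain ⟨i, rfl⟩ := mem_hex.1 hh
  rcases ends t i with ⟨h1, h2⟩ | ⟨h1, h2⟩ <;> rcases he with h3 | h3
  · exact h i (h3.symm.trans h1)
  · exact h _ (h3.symm.trans h2)
  · exact h _ (h3.symm.trans h2)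
  · exact h i (h3.symm.trans h1)

end Rr

theorem t_FLIPA : J_FLIPA := by
  intro D a b ω t k hω hD hab hR
  have hdeg : ∀ j, deg ω (hv t j) = 0 ∨ deg ω (hv t j) = 2 := fun j => hω.2.2 _ (hab j).1 (hab j).2
  have hf : (∀ j, hx t j ∈ ω ↔ (j = k ∨ j = k + 1)) ∨ (∀ j, hx t j ∈ ω ↔ ¬ (j = k ∨ j = k + 1)) :=
    hR.imp run_iff.1 runC_iff.1
  have ko : ∀ k j : Fin 6, j ≠ k → j ≠ k + 2 → ((j = k ∨ j = k + 1) ↔ (j - 1 = k ∨ j - 1 = k + 1)) := by decide
  have ke : ∀ k j : Fin 6, j = k ∨ j = k + 2 → ((j = k ∨ j = k + 1) ↔ ¬ (j - 1 = k ∨ j - 1 = k + 1)) := by decide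
  -- the third edge
  have hout : ∀ j, j ≠ k → j ≠ k + 2 → out t j ∉ ω := by
    intro j h1 h2 h3
    have h4 := hdeg j
    rw [deg_hv, if_pos h3] at h4
    have h5 : hx t j ∈ ω ↔ hx t (j - 1) ∈ ω := by
      rcases hf with hf | hf
      · rw [hf, hf]
        exact ko k j h1 h2
      · rw [hf, hf]
        exact not_congr (ko k j h1 h2)
    by_cases h6 : hx t j ∈ ω
    · rw [if_pos h6, if_pos (h5.1 h6)] at h4
      omega
    · rw [if_neg h6, if_neg (fun h => h6 (h5.2 h))] at h4
      omega
  refine ⟨⟨?_, ?_, ?_⟩, ?_, ?_, ?_⟩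
  · intro e he
    rcases Finset.mem_symmDiff.1 he with h | h
    · exact hω.1 h.1
    · exact hD h.1
  · intro v hv
    rw [deg_of_ne]
    · exact hω.2.1 v hv
    · rintro j rfl
      rcases hv with h | h
      · exact (hab j).1 h
      · exact (hab j).2 h
  · intro v hva hvb
    by_cases hv : ∃ j, v = hv t j
    · obtain ⟨j, rfl⟩ := hv
      have hd := hdeg j
      rw [deg_hv] at hd ⊢
      have hs : (out t j ∈ symmDiff ω (hex t)) ↔ out t j ∈ ω := mem_sd' (out_notMem t j)
      simp only [mem_sd, hs]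
      by_cases hj : j = k ∨ j = k + 2
      · have h5 : hx t j ∈ ω ↔ ¬ hx t (j - 1) ∈ ω := by
          rcases hf with hf | hf
          · rw [hf, hf]
            exact ke k j hj
          · rw [hf, hf]
            exact not_congr (ke k j hj)
        by_cases h6 : hx t j ∈ ω
        · have h7 := h5.1 h6
          simp only [h6, h7, not_true_eq_false, not_false_eq_true, if_true, if_false] at hd ⊢
          omega
        · have h7 : hx t (j - 1) ∈ ω := by
            by_contra h8
            exact h6 (h5.2 h8)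
          simp only [h6, h7, not_true_eq_false, not_false_eq_true, if_true, if_false] at hd ⊢
          omega
      · push Not at hj
        have h5 : hx t j ∈ ω ↔ hx t (j - 1) ∈ ω := by
          rcases hf with hf | hf
          · rw [hf, hf]
            exact ko k j hj.1 hj.2
          · rw [hf, hf]
            exact not_congr (ko k j hj.1 hj.2)
        rw [if_neg (hout j hj.1 hj.2)]
        by_cases h6 : hx t j ∈ ω
        · have h7 := h5.1 h6
          rw [if_neg (not_not.2 h6), if_neg (not_not.2 h7)]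
          exact Or.inl rfl
        · have h7 : hx t (j - 1) ∉ ω := fun h => h6 (h5.2 h)
          rw [if_pos h6, if_pos h7]
          exact Or.inr rfl
    · rw [deg_of_ne fun j hj => hv ⟨j, hj⟩]
      exact hω.2.2 v hva hvb
  · intro h
    rw [runC_iff]
    intro j
    rw [mem_sd]
    exact not_congr (run_iff.1 h j)
  · intro h
    rw [run_iff]
    intro j
    rw [mem_sd, runC_iff.1 h j, not_not]
  · intro e he heh j h1 h2
    have h3 : ∀ e' : Ed, e' ∈ ω → e' ∉ hex t → ¬ (up e' = hv t j ∨ dn e' = hv t j) := by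
      intro e' he' heh' h4
      rw [inc] at h4
      rcases h4 with rfl | rfl | rfl
      · exact heh' (mem_hex.2 ⟨_, rfl⟩)
      · exact heh' (mem_hex.2 ⟨_, rfl⟩)
      · exact hout j h1 h2 he'
    have h4 := h3 e he heh
    push Not at h4
    exact h4

end Pool.Agent.H737ON
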