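import Pool.Agent.Run7.h737.ON.FLIPA

/-!
# ON: the piece FLIPB
-/

set_option autoImplicit false

open scoped Classical

noncomputable section

namespace Pool.Agent.H737ON

open Rr

namespace Rr

lemma mem_verts {ω : Finset Ed} {v : Vx} : v ∈ verts ω ↔ ∃ e ∈ ω, up e = v ∨ dn e = v := by
  unfold verts
  rw [Finset.mem_union, Finset.mem_image, Finset.mem_image]
  constructor
  · rintro (⟨e, h1, h2⟩ | ⟨e, h1, h2⟩)
    · exact ⟨e, h1, Or.inl h2⟩
    · exact ⟨e, h1, Or.inr h2⟩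
  · rintro ⟨e, h1, h2 | h2⟩
    · exact Or.inl ⟨e, h1, h2⟩
    · exact Or.inr ⟨e, h1, h2⟩

/-- vertices outside the hexagon -/
lemma verts_out {ω ω' : Finset Ed} {t : ℤ × ℤ} (hoo : ∀ e, e ∉ hex t → (e ∈ ω ↔ e ∈ ω')) {v : Vx}
    (hv : ∀ j, v ≠ hv t j) (h : v ∈ verts ω) : v ∈ verts ω' := by
  rw [mem_verts] at h ⊢
  obtain ⟨e, he, h1⟩ := h
  refine ⟨e, (hoo e fun hh => ?_).1 he, h1⟩
  obtain ⟨i, rfl⟩ := mem_hex.1 hh
  rcases ends t i with ⟨h2, h3⟩ | ⟨h2, h3⟩ <;> rcases h1 with h4 | h4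
  · exact hv i (h4.symm.trans h2)
  · exact hv _ (h4.symm.trans h3)
  · exact hv _ (h4.symm.trans h3)
  · exact hv i (h4.symm.trans h2)

/-- the vertices of the loops -/
lemma loopv {ω ω' : Finset Ed} {t : ℤ × ℤ} {a : Vx} (hoo : ∀ e, e ∉ hex t → (e ∈ ω ↔ e ∈ ω'))
    (ha : ∀ j, a ≠ hv t j) (hre : ∀ j, hv t j ∈ verts ω → Reach ω a (hv t j))
    (hR : ∀ u v, (∀ j, u ≠ hv t j) → (∀ j, v ≠ hv t j) → (Reach ω u v ↔ Reach ω' u v))
    {v : Vx} (h : v ∈ verts ω ∧ ¬ Reach ω a v) : (∀ j, v ≠ hv t j) ∧ v ∈ verts ω' ∧ ¬ Reach ω' a v := by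
  have h1 : ∀ j, v ≠ hv t j := by
    rintro j rfl
    exact h.2 (hre j h.1)
  exact ⟨h1, verts_out hoo h1 h.1, fun h2 => h.2 ((hR a v ha h1).2 h2)⟩

lemma loops_sub {ω ω' : Finset Ed} {t : ℤ × ℤ} {a : Vx} (hoo : ∀ e, e ∉ hex t → (e ∈ ω ↔ e ∈ ω'))
    (ha : ∀ j, a ≠ hv t j) (hre : ∀ j, hv t j ∈ verts ω → Reach ω a (hv t j))
    (hre' : ∀ j, hv t j ∈ verts ω' → Reach ω' a (hv t j))
    (hR : ∀ u v, (∀ j, u ≠ hv t j) → (∀ j, v ≠ hv t j) → (Reach ω u v ↔ Reach ω' u v)) :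
    loops a ω ⊆ loops a ω' := by
  intro K hK
  unfold loops at hK ⊢
  obtain ⟨v, hv1, rfl⟩ := Finset.mem_image.1 hK
  rw [Finset.mem_filter] at hv1
  obtain ⟨h1, h2, h3⟩ := loopv hoo ha hre hR hv1
  refine Finset.mem_image.2 ⟨v, Finset.mem_filter.2 ⟨h2, h3⟩, ?_⟩
  have hoo' : ∀ e, e ∉ hex t → (e ∈ ω' ↔ e ∈ ω) := fun e he => (hoo e he).symm
  have hR' : ∀ u v, (∀ j, u ≠ hv t j) → (∀ j, v ≠ hv t j) → (Reach ω' u v ↔ Reach ω u v) :=
    fun u v hu hv => (hR u v hu hv).symm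
  unfold comp
  ext w
  rw [Finset.mem_filter, Finset.mem_filter]
  constructor
  · rintro ⟨h4, h5⟩
    obtain ⟨h6, h7, -⟩ := loopv hoo' ha hre' hR' ⟨h4, fun h => h3 (h.trans (reach_symm h5))⟩
    exact ⟨h7, (hR v w h1 h6).2 h5⟩
  · rintro ⟨h4, h5⟩
    obtain ⟨h6, h7, -⟩ := loopv hoo ha hre hR ⟨h4, fun h => hv1.2 (h.trans (reach_symm h5))⟩
    exact ⟨h7, (hR v w h1 h6).1 h5⟩

end Rr

theorem t_FLIPB : J_FLIPB := by
  intro n x D a b ω t k hn hx0 hω hD hab hrun hre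
  have hrun' := run_iff.1 hrun
  obtain ⟨hω', hC, -, hI⟩ := t_FLIPA D a b ω t k hω hD hab (Or.inl hrun)
  set ω' := symmDiff ω (hex t) with hω'd
  have hrunC := runC_iff.1 (hC hrun)
  have hoo : ∀ e, e ∉ hex t → (e ∈ ω ↔ e ∈ ω') := fun e he => (mem_sd' he).symm
  have haI : ∀ j, a ≠ hv t j := fun j h => (hab j).1 h.symm
  have hRER : ∀ u v, (∀ j, j ≠ k → j ≠ k + 2 → u ≠ hv t j ∧ v ≠ hv t j) →
      (Reach ω u v ↔ Reach ω' u v) := t_RER t k ω hrun hI
  obtain ⟨hr1, hr2⟩ := run_reach (ω := ω) (t := t) (k := k) fun j hj => (hrun' j).2 hj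
  have hrC := runC_reach (ω := ω') (t := t) (k := k) fun j hj => (hrunC j).2 hj
  -- everything is connected with `a`
  have hak : Reach ω a (hv t k) := by
    rcases hre with h | h
    · exact h
    · exact h.trans (reach_symm hr2)
  have hak' : Reach ω' a (hv t k) := by
    refine (hRER a (hv t k) fun j h1 h2 => ⟨haI j, fun h => h1 (hv_inj t h).symm⟩).1 hak
  have hall : ∀ j, j = k ∨ j = k + 1 ∨ j = k + 2 → Reach ω a (hv t j) := by
    rintro j (rfl | rfl | rfl)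
    · exact hak
    · exact hak.trans hr1
    · exact hak.trans hr2
  have hall' : ∀ j, j ≠ k + 1 → Reach ω' a (hv t j) := fun j hj => hak'.trans (hrC j hj)
  -- the third edges
  have hout : ∀ j, j ≠ k → j ≠ k + 2 → out t j ∉ ω := by
    intro j h1 h2 h3
    have h4 := hI (out t j) h3 (out_notMem t j) j h1 h2
    have h5 := (inc t j (out t j)).2 (Or.inr (Or.inr rfl))
    tauto
  have hvert : ∀ j, hv t j ∈ verts ω → Reach ω a (hv t j) := by
    intro j hj
    refine hall j ?_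
    by_contra h
    push Not at h
    rw [mem_verts] at hj
    obtain ⟨e, he, h1⟩ := hj
    rw [inc] at h1
    have key : ∀ k j : Fin 6, j ≠ k → j ≠ k + 1 → j ≠ k + 2 → ¬ (j = k ∨ j = k + 1) ∧
      ¬ (j - 1 = k ∨ j - 1 = k + 1) := by decide
    obtain ⟨k1, k2⟩ := key k j h.1 h.2.1 h.2.2
    rcases h1 with rfl | rfl | rfl
    · exact k1 ((hrun' j).1 he)
    · exact k2 ((hrun' _).1 he)
    · exact hout j h.1 h.2.2 he
  have hvert' : ∀ j, hv t j ∈ verts ω' → Reach ω' a (hv t j) := by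
    intro j hj
    refine hall' j ?_
    rintro rfl
    rw [mem_verts] at hj
    obtain ⟨e, he, h1⟩ := hj
    rw [inc] at h1
    have k3 : ∀ k : Fin 6, k + 1 - 1 = k := by decide
    rcases h1 with rfl | rfl | rfl
    · exact (hrunC _).1 he (Or.inr rfl)
    · rw [k3 k] at he
      exact (hrunC _).1 he (Or.inl rfl)
    · have k1 : ∀ k : Fin 6, k + 1 ≠ k ∧ k + 1 ≠ k + 2 := by decide
      exact hout _ (k1 k).1 (k1 k).2 ((mem_sd' (out_notMem t _)).1 he)
  have hR : ∀ u v, (∀ j, u ≠ hv t j) → (∀ j, v ≠ hv t j) → (Reach ω u v ↔ Reach ω' u v) :=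
    fun u v hu hv => hRER u v fun j _ _ => ⟨hu j, hv j⟩
  have hloops : loops a ω' = loops a ω :=
    Finset.Subset.antisymm (loops_sub (fun e he => (hoo e he).symm) haI hvert' hvert fun u v hu hv => (hR u v hu hv).symm)
      (loops_sub hoo haI hvert hvert' hR)
  -- the edges of the path
  have hp1 : ∀ j, hx t j ∈ path a ω ↔ (j = k ∨ j = k + 1) := by
    intro j
    unfold path
    rw [Finset.mem_filter, hrun']
    refine and_iff_left_of_imp fun hj => ?_
    rcases ends t j with ⟨h1, h2⟩ | ⟨h1, h2⟩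
    · rw [h1]
      exact hall j (by tauto)
    · rw [h2]
      refine hall _ ?_
      rcases hj with rfl | rfl
      · exact Or.inr (Or.inl rfl)
      · exact Or.inr (Or.inr (by rw [add_assoc]; rfl))
  have hp2 : ∀ j, hx t j ∈ path a ω' ↔ ¬ (j = k ∨ j = k + 1) := by
    intro j
    unfold path
    rw [Finset.mem_filter, hrunC]
    refine and_iff_left_of_imp fun hj => ?_
    have k2 : ∀ k j : Fin 6, ¬ (j = k ∨ j = k + 1) → j ≠ k + 1 ∧ j + 1 ≠ k + 1 := by decide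
    rcases ends t j with ⟨h1, h2⟩ | ⟨h1, h2⟩
    · rw [h1]
      exact hall' _ (k2 k j hj).1
    · rw [h2]
      exact hall' _ (k2 k j hj).2
  have hpath : path a ω' = symmDiff (path a ω) (hex t) := by
    ext e
    by_cases he : e ∈ hex t
    · obtain ⟨j, rfl⟩ := mem_hex.1 he
      rw [mem_sd, hp2, hp1]
    · rw [mem_sd' he]
      unfold path
      rw [Finset.mem_filter, Finset.mem_filter, ← hoo e he]
      refine and_congr_right fun h => ?_
      exact (hRER a (up e) fun j h1 h2 => ⟨haI j, (hI e h he j h1 h2).1⟩).symm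
  have hcard : ∀ η : Finset Ed, (∀ j, hx t j ∈ η ↔ (j = k ∨ j = k + 1)) →
      (symmDiff η (hex t)).card = η.card + 2 := by
    intro η hη
    have h1 : η ∩ hex t = {hx t k, hx t (k + 1)} := run_iff.2 hη
    have h2 : (hex t).card = 6 := by
      unfold hex
      rw [Finset.card_image_of_injective _ (hx_inj t)]
      rfl
    have h3 : (η ∩ hex t).card = 2 := by
      rw [h1]
      refine Finset.card_pair fun h => ?_
      have k1 : ∀ k : Fin 6, k ≠ k + 1 := by decide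
      exact k1 k (hx_inj t h)
    have h4 : (symmDiff η (hex t)).card = (η \ hex t).card + (hex t \ η).card :=
      Finset.card_union_of_disjoint disjoint_sdiff_sdiff
    have h5 := Finset.card_sdiff_add_card_inter η (hex t)
    have h6 := Finset.card_sdiff_add_card_inter (hex t) η
    rw [Finset.inter_comm] at h6
    omega
  refine ⟨⟨t, k, run_iff.2 hp1, hpath⟩, ?_, ?_⟩
  · unfold len
    rw [hpath]
    exact hcard _ hp1
  · unfold wt
    rw [hloops, hcard ω hrun', pow_add]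
    ring

end Pool.Agent.H737ON
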