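import Pool.Agent.Run7.h737.ON.Iface

/-!
# Project ON (helper737), piece GEO (helper304): the geometry of the hexagonal lattice
-/

set_option autoImplicit false

open scoped Classical

noncomputable section

namespace Pool.Agent.H737ON

namespace GEO

theorem g1 (t : ℤ × ℤ) (k : Fin 6) : (up (hx t k) = hv t k ∧ dn (hx t k) = hv t (k + 1)) ∨
    (dn (hx t k) = hv t k ∧ up (hx t k) = hv t (k + 1)) := by
  fin_cases k <;> simp [up, dn, hx, hv, dx, dy]

theorem g2a (t : ℤ × ℤ) : Function.Injective (hx t) := by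
  intro i j h
  fin_cases i <;> fin_cases j <;> simp [hx] at h ⊢ <;> omega

theorem g2b (t : ℤ × ℤ) : Function.Injective (hv t) := by
  intro i j h
  fin_cases i <;> fin_cases j <;> simp [hv] at h ⊢ <;> omega

theorem ext3 (e f : Ed) : e = f ↔ e.1 = f.1 ∧ e.2.1 = f.2.1 ∧ e.2.2 = f.2.2 := by
  constructor
  · rintro rfl; exact ⟨rfl, rfl, rfl⟩
  · intro ⟨h1, h2, h3⟩
    exact Prod.ext h1 (Prod.ext h2 h3)

/-- the edges at a vertex of colour `true` -/
theorem at_true (i j : ℤ) (e : Ed) : (up e = (i, j, true) ∨ dn e = (i, j, true)) ↔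
    (e = (i, j, 0) ∨ e = (i, j, 1) ∨ e = (i, j, 2)) := by
  obtain ⟨x, y, c⟩ := e
  fin_cases c <;> simp [up, dn]

/-- the edges at a vertex of colour `false` -/
theorem at_false (i j : ℤ) (e : Ed) : (up e = (i, j, false) ∨ dn e = (i, j, false)) ↔
    (e = (i, j, 0) ∨ e = (i + 1, j, 1) ∨ e = (i, j + 1, 2)) := by
  obtain ⟨x, y, c⟩ := e
  fin_cases c
  · simp [up, dn, dx, dy]
  · simp [up, dn, dx, dy, sub_eq_iff_eq_add]
  · simp [up, dn, dx, dy, sub_eq_iff_eq_add]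

theorem g3 (t : ℤ × ℤ) (j : Fin 6) : ∃ e₀ : Ed, e₀ ∉ hex t ∧
    ∀ e : Ed, (up e = hv t j ∨ dn e = hv t j) ↔ (e = hx t j ∨ e = hx t (j - 1) ∨ e = e₀) := by
  fin_cases j
  · refine ⟨(t.1, t.2, 1), ?_, fun e => ?_⟩
    · simp [hex, hx, Fin.exists_fin_succ]
    · have := at_true t.1 t.2 e
      simp [hv, hx] at this ⊢
      rw [this]
      tauto
  · refine ⟨(t.1, t.2 + 1, 2), ?_, fun e => ?_⟩
    · simp [hex, hx, Fin.exists_fin_succ]
    · have := at_false t.1 t.2 e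
      simp [hv, hx] at this ⊢
      rw [this]
      tauto
  · refine ⟨(t.1 + 1, t.2, 0), ?_, fun e => ?_⟩
    · simp [hex, hx, Fin.exists_fin_succ]
    · have := at_true (t.1 + 1) t.2 e
      simp [hv, hx] at this ⊢
      rw [this]
      tauto
  · refine ⟨(t.1 + 1 + 1, t.2 - 1, 1), ?_, fun e => ?_⟩
    · simp [hex, hx, Fin.exists_fin_succ]
    · have := at_false (t.1 + 1) (t.2 - 1) e
      simp [hv, hx] at this ⊢
      rw [this]
      tauto
  · refine ⟨(t.1 + 1, t.2 - 1, 2), ?_, fun e => ?_⟩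
    · simp [hex, hx, Fin.exists_fin_succ]
      omega
    · have := at_true (t.1 + 1) (t.2 - 1) e
      simp [hv, hx] at this ⊢
      rw [this]
      tauto
  · refine ⟨(t.1, t.2 - 1, 0), ?_, fun e => ?_⟩
    · simp [hex, hx, Fin.exists_fin_succ]
      omega
    · have := at_false t.1 (t.2 - 1) e
      simp [hv, hx] at this ⊢
      rw [this]
      tauto

theorem g4 (t : ℤ × ℤ) : ∀ e ∈ flower t, up e ∈ fV t ∧ dn e ∈ fV t := fun _ he =>
  ⟨Finset.mem_union_left _ (Finset.mem_image_of_mem _ he), Finset.mem_union_right _ (Finset.mem_image_of_mem _ he)⟩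

theorem g5 (t : ℤ × ℤ) : hex t ⊆ flower t ∧ (∀ j, hv t j ∈ fV t) := by
  refine ⟨Finset.subset_union_left, fun j => ?_⟩
  have h1 : hx t j ∈ flower t := Finset.mem_union_left _ (Finset.mem_image_of_mem _ (Finset.mem_univ _))
  have h2 := g4 t _ h1
  rcases g1 t j with ⟨h3, -⟩ | ⟨h3, -⟩
  · rw [← h3]; exact h2.1
  · rw [← h3]; exact h2.2

theorem g6 (a : Vx) (e : Ed) : |lev a (up e) - lev a (dn e)| ≤ 1 := by
  obtain ⟨x, y, c⟩ := e
  unfold lev up dn
  have key : ∀ u v u' v' : ℤ, |u - u'| + |v - v'| ≤ 1 → |(|u| + |v|) - (|u'| + |v'|)| ≤ 1 := by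
    intro u v u' v' h
    have h1 := abs_abs_sub_abs_le_abs_sub u u'
    have h2 := abs_abs_sub_abs_le_abs_sub v v'
    have h3 : (|u| + |v|) - (|u'| + |v'|) = (|u| - |u'|) + (|v| - |v'|) := by ring
    rw [h3]
    exact (abs_add_le _ _).trans (by linarith)
  apply key
  fin_cases c <;> simp [dx, dy]

/-- the offsets of the six neighbours -/
def nbo : Fin 6 → ℤ × ℤ := ![(-1, 1), (0, 1), (1, 0), (1, -1), (0, -1), (-1, 0)]

/-- the offsets of the vertices -/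
def hvo : Fin 6 → ℤ × ℤ × Bool :=
  ![(0, 0, true), (0, 0, false), (1, 0, true), (1, -1, false), (1, -1, true), (0, -1, false)]

theorem nb_eq (t : ℤ × ℤ) (k : Fin 6) : nb t k = (t.1 + (nbo k).1, t.2 + (nbo k).2) := by
  fin_cases k <;> simp [nb, nbo] <;> ring_nf

theorem hv_eq (t : ℤ × ℤ) (k : Fin 6) : hv t k = (t.1 + (hvo k).1, t.2 + (hvo k).2.1, (hvo k).2.2) := by
  fin_cases k <;> simp [hv, hvo] <;> ring_nf

/-- the offsets of all the vertices of the flower -/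
def F24 : Finset (ℤ × ℤ × Bool) := Finset.univ.image hvo ∪
  (Finset.univ : Finset (Fin 6 × Fin 6)).image fun p => ((nbo p.1).1 + (hvo p.2).1, (nbo p.1).2 + (hvo p.2).2.1, (hvo p.2).2.2)

theorem mem_hex {s : ℤ × ℤ} {e : Ed} (he : e ∈ hex s) : ∃ j k, up e = hv s j ∧ dn e = hv s k := by
  obtain ⟨j, -, rfl⟩ := Finset.mem_image.1 he
  rcases g1 s j with ⟨h1, h2⟩ | ⟨h1, h2⟩
  · exact ⟨_, _, h1, h2⟩
  · exact ⟨_, _, h2, h1⟩

theorem mem_fV {t : ℤ × ℤ} {v : Vx} (hv' : v ∈ fV t) : ∃ p ∈ F24, v = (t.1 + p.1, t.2 + p.2.1, p.2.2) := by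
  have h : ∃ s j, (s = t ∨ ∃ k, s = nb t k) ∧ v = hv s j := by
    unfold fV at hv'
    rw [Finset.mem_union, Finset.mem_image, Finset.mem_image] at hv'
    have key : ∀ e ∈ flower t, ∃ s, (s = t ∨ ∃ k, s = nb t k) ∧ e ∈ hex s := by
      intro e he
      unfold flower at he
      rw [Finset.mem_union, Finset.mem_biUnion] at he
      rcases he with he | ⟨k, -, he⟩
      · exact ⟨t, Or.inl rfl, he⟩
      · exact ⟨_, Or.inr ⟨k, rfl⟩, he⟩
    rcases hv' with ⟨e, he, h1⟩ | ⟨e, he, h1⟩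
    · obtain ⟨s, hs, hes⟩ := key e he
      obtain ⟨j, k, h2, h3⟩ := mem_hex hes
      exact ⟨s, j, hs, by rw [← h1, h2]⟩
    · obtain ⟨s, hs, hes⟩ := key e he
      obtain ⟨j, k, h2, h3⟩ := mem_hex hes
      exact ⟨s, k, hs, by rw [← h1, h3]⟩
  obtain ⟨s, j, hs | ⟨k, hs⟩, h1⟩ := h
  · refine ⟨hvo j, Finset.mem_union_left _ (Finset.mem_image_of_mem _ (Finset.mem_univ _)), ?_⟩
    rw [h1, hs, hv_eq]
  · refine ⟨_, Finset.mem_union_right _ (Finset.mem_image_of_mem _ (Finset.mem_univ (k, j))), ?_⟩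
    rw [h1, hs, hv_eq, nb_eq]
    simp only [Prod.mk.injEq, and_true]
    constructor <;> ring

theorem F24_bd : ∀ p ∈ F24, (-1 ≤ p.1 ∧ p.1 ≤ 2) ∧ (-2 ≤ p.2.1 ∧ p.2.1 ≤ 1) := by
  decide +kernel

theorem F24_card : F24.card = 24 := by decide +kernel

theorem g7 (a : Vx) (t : ℤ × ℤ) : ∀ u ∈ fV t, ∀ v ∈ fV t, |lev a u - lev a v| ≤ 6 := by
  intro u hu v hv'
  obtain ⟨p, hp, h1⟩ := mem_fV hu
  obtain ⟨q, hq, h2⟩ := mem_fV hv'
  obtain ⟨⟨p1, p2⟩, p3, p4⟩ := F24_bd p hp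
  obtain ⟨⟨q1, q2⟩, q3, q4⟩ := F24_bd q hq
  have h3 := abs_abs_sub_abs_le_abs_sub (u.1 - a.1) (v.1 - a.1)
  have h4 := abs_abs_sub_abs_le_abs_sub (u.2.1 - a.2.1) (v.2.1 - a.2.1)
  have h5 : |(u.1 - a.1) - (v.1 - a.1)| ≤ 3 := by
    rw [h1, h2, abs_le]
    constructor <;> simp only <;> linarith
  have h6 : |(u.2.1 - a.2.1) - (v.2.1 - a.2.1)| ≤ 3 := by
    rw [h1, h2, abs_le]
    constructor <;> simp only <;> linarith
  unfold lev
  have h7 : (|u.1 - a.1| + |u.2.1 - a.2.1|) - (|v.1 - a.1| + |v.2.1 - a.2.1|) =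
      (|u.1 - a.1| - |v.1 - a.1|) + (|u.2.1 - a.2.1| - |v.2.1 - a.2.1|) := by ring
  rw [h7]
  exact (abs_add_le _ _).trans (by linarith)

theorem g8 (t : ℤ × ℤ) : (flower t).card ≤ 42 ∧ (fV t).card ≤ 24 := by
  constructor
  · have h1 : ∀ s, (hex s).card ≤ 6 := fun s => by
      unfold hex
      exact Finset.card_image_le.trans (by simp)
    unfold flower
    refine (Finset.card_union_le _ _).trans ?_
    have h2 : (Finset.univ.biUnion fun k => hex (nb t k)).card ≤ 36 := by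
      refine Finset.card_biUnion_le.trans ?_
      refine (Finset.sum_le_sum fun k _ => h1 (nb t k)).trans ?_
      simp
    have := h1 t
    omega
  · have h1 : fV t ⊆ F24.image fun p => (t.1 + p.1, t.2 + p.2.1, p.2.2) := by
      intro v hv'
      obtain ⟨p, hp, h2⟩ := mem_fV hv'
      exact Finset.mem_image.2 ⟨p, hp, h2.symm⟩
    exact (Finset.card_le_card h1).trans (Finset.card_image_le.trans F24_card.le)

end GEO

open GEO in
theorem t_GEO : J_GEO := ⟨g1, fun t => ⟨g2a t, g2b t⟩, g3, g4, g5, g6, g7, g8⟩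

end Pool.Agent.H737ON
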