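import Pool.Agent.Run7.h737.ON.FLIPB
import Pool.Agent.Run7.h737.ON.CLEV

/-!
# ON: the piece GLP
-/

set_option autoImplicit false

open scoped Classical

noncomputable section

namespace Pool.Agent.H737ON

open Rr

/-- the chosen candidate is a candidate -/
theorem pick_mem {S : Set ((ℤ × ℤ) × Ed)} (h : S.Nonempty) : pick S ∈ S := by
  unfold pick
  rw [dif_pos h]
  exact h.some_mem

theorem reach_mono {ω ω' : Finset Ed} (h : ω ⊆ ω') {u v : Vx} (huv : Reach ω u v) : Reach ω' u v := by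
  induction huv with
  | refl => exact Relation.ReflTransGen.refl
  | tail _ h2 ih =>
    obtain ⟨e, he, h1⟩ := h2
    exact Relation.ReflTransGen.tail ih ⟨e, h he, h1⟩

/-- the run of a good level is connected with `a` -/
theorem good_reach {D : Finset Ed} {a : Vx} {r : ℕ} {ω : Finset Ed} (hne : (Cnd D a r ω).Nonempty)
    (hg : Good D a r ω) : ∃ k : Fin 6, (Run ω (tr D a r ω) k ∨ RunC ω (tr D a r ω) k) ∧
      (Reach ω a (hv (tr D a r ω) k) ∨ Reach ω a (hv (tr D a r ω) (k + 2))) := by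
  obtain ⟨k, hk, y, -, hy, hR⟩ := hg
  refine ⟨k, hk, ?_⟩
  obtain ⟨-, he, hcr⟩ := pick_mem hne
  have hsub : (ω ∩ flower (tr D a r ω)) \ hex (tr D a r ω) ⊆ ω :=
    Finset.sdiff_subset.trans Finset.inter_subset_left
  have hin : inner D a r ω ⊆ ω := Finset.filter_subset _ _
  have hstep : Reach ω (up (er D a r ω)) (dn (er D a r ω)) :=
    Relation.ReflTransGen.single ⟨er D a r ω, he, Or.inl ⟨rfl, rfl⟩⟩
  have hud : Reach ω a (up (er D a r ω)) ∧ Reach ω a (dn (er D a r ω)) := by
    rcases hcr with h | h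
    · have h1 : Reach ω a (up (er D a r ω)) := reach_mono hin h.1
      exact ⟨h1, h1.trans hstep⟩
    · have h1 : Reach ω a (dn (er D a r ω)) := reach_mono hin h.1
      exact ⟨h1.trans (reach_symm hstep), h1⟩
  have hay : Reach ω a y := by
    rcases hy with h | h
    · rw [← h]
      exact hud.1
    · rw [← h]
      exact hud.2
  rcases hR with h | h
  · exact Or.inl (hay.trans (reach_mono hsub h))
  · exact Or.inr (hay.trans (reach_mono hsub h))

/-- a flippable hexagon on the path -/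
theorem path_hex {ω : Finset Ed} {a : Vx} {t : ℤ × ℤ} {k : Fin 6} (h : Run ω t k ∨ RunC ω t k)
    (hR : Reach ω a (hv t k) ∨ Reach ω a (hv t (k + 2))) :
    path a ω ∩ hex t = {hx t k, hx t (k + 1)} ∨ path a ω ∩ hex t = hex t \ {hx t k, hx t (k + 1)} := by
  have key : (∀ j, hx t j ∈ ω → Reach ω a (up (hx t j))) → path a ω ∩ hex t = ω ∩ hex t := by
    intro h1
    ext e
    unfold path
    rw [Finset.mem_inter, Finset.mem_inter, Finset.mem_filter]
    constructor
    · rintro ⟨⟨h2, -⟩, h3⟩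
      exact ⟨h2, h3⟩
    · rintro ⟨h2, h3⟩
      obtain ⟨j, rfl⟩ := mem_hex.1 h3
      exact ⟨⟨h2, h1 j h2⟩, h3⟩
  rcases h with h | h
  · left
    rw [key, h]
    intro j hj
    have h1 := run_iff.1 h
    obtain ⟨hr1, hr2⟩ := run_reach (ω := ω) (t := t) (k := k) fun j hj => (h1 j).2 hj
    have hak : Reach ω a (hv t k) := by
      rcases hR with h | h
      · exact h
      · exact h.trans (reach_symm hr2)
    rcases ends t j with ⟨h2, h3⟩ | ⟨h2, h3⟩
    · rw [h2]
      rcases (h1 j).1 hj with rfl | rfl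
      · exact hak
      · exact hak.trans hr1
    · rw [h3]
      rcases (h1 j).1 hj with rfl | rfl
      · exact hak.trans hr1
      · rw [add_assoc]
        exact hak.trans hr2
  · right
    rw [key, h]
    intro j hj
    have h1 := runC_iff.1 h
    have hrC := runC_reach (ω := ω) (t := t) (k := k) fun j hj => (h1 j).2 hj
    have hak : Reach ω a (hv t k) := by
      rcases hR with h | h
      · exact h
      · have k1 : ∀ k : Fin 6, k + 2 ≠ k + 1 := by decide
        exact h.trans (reach_symm (hrC _ (k1 k)))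
    have k2 : ∀ k j : Fin 6, ¬ (j = k ∨ j = k + 1) → j ≠ k + 1 ∧ j + 1 ≠ k + 1 := by decide
    rcases ends t j with ⟨h2, h3⟩ | ⟨h2, h3⟩
    · rw [h2]
      exact hak.trans (hrC _ (k2 k j ((h1 j).1 hj)).1)
    · rw [h3]
      exact hak.trans (hrC _ (k2 k j ((h1 j).1 hj)).2)

theorem t_GLP (hG : J_GEO) (hCd : J_CAND) : J_GLP := by
  intro D a b M ω hD hω hlev
  have hl6 := hG.2.2.2.2.2.2.1
  have hne : ∀ r ∈ Glv D a M ω, (Cnd D a r ω).Nonempty := by
    intro r hr
    unfold Glv at hr
    rw [Finset.mem_filter, Finset.mem_Icc] at hr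
    refine hCd D a b r ω hD hω hr.1.1 ?_
    have : (r : ℤ) ≤ M := by exact_mod_cast hr.1.2
    omega
  refine ⟨(Glv D a M ω).image fun r => tr D a r ω, ?_, ?_⟩
  · refine Finset.card_image_of_injOn ?_
    intro r hr r' hr' h
    obtain ⟨⟨-, u, hu, hlu⟩, -⟩ := pick_mem (hne r hr)
    obtain ⟨⟨-, u', hu', hlu'⟩, -⟩ := pick_mem (hne r' hr')
    have h1 : tr D a r ω = tr D a r' ω := h
    have hu1 : u ∈ fV (tr D a r ω) := hu
    have hu2 : u' ∈ fV (tr D a r ω) := by
      rw [h1]
      exact hu'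
    have h2 := hl6 a _ u hu1 u' hu2
    rw [hlu, hlu', abs_le] at h2
    omega
  · intro t ht
    obtain ⟨r, hr, rfl⟩ := Finset.mem_image.1 ht
    have hg : Good D a r ω := (Finset.mem_filter.1 hr).2
    obtain ⟨k, h1, h2⟩ := good_reach (hne r hr) hg
    exact ⟨k, path_hex h1 h2⟩

end Pool.Agent.H737ON
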