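import Pool.Agent.Run7.h737.ON.Iface

/-!
# Project ON (helper737), piece HAND (helper304): the handshake lemma
-/

set_option autoImplicit false

open scoped Classical

noncomputable section

namespace Pool.Agent.H737ON

namespace HAND

theorem up_ne_dn (e f : Ed) : up e ≠ dn f := by
  intro h
  have := congrArg (fun v : Vx => v.2.2) h
  simp [up, dn] at this

theorem reach_iff {ω : Finset Ed} {e : Ed} (he : e ∈ ω) (a : Vx) : Reach ω a (up e) ↔ Reach ω a (dn e) :=
  ⟨fun h => Relation.ReflTransGen.tail h ⟨e, he, Or.inl ⟨rfl, rfl⟩⟩,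
    fun h => Relation.ReflTransGen.tail h ⟨e, he, Or.inr ⟨rfl, rfl⟩⟩⟩

/-- the sum of the degrees over a component is even -/
theorem even_sum (ω : Finset Ed) (a : Vx) : Even (∑ v ∈ (verts ω).filter (Reach ω a), deg ω v) := by
  have h1 : ∑ v ∈ (verts ω).filter (Reach ω a), deg ω v =
      ∑ e ∈ ω, (((verts ω).filter (Reach ω a)).filter fun v => up e = v ∨ dn e = v).card := by
    unfold deg
    simp_rw [Finset.card_filter]
    exact Finset.sum_comm
  rw [h1]
  refine Finset.even_sum _ fun e he => ?_
  by_cases h : Reach ω a (up e)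
  · have h2 : ((verts ω).filter (Reach ω a)).filter (fun v => up e = v ∨ dn e = v) = {up e, dn e} := by
      ext v
      simp only [Finset.mem_filter, Finset.mem_insert, Finset.mem_singleton, verts, Finset.mem_union,
        Finset.mem_image]
      constructor
      · rintro ⟨-, h3 | h3⟩
        · exact Or.inl h3.symm
        · exact Or.inr h3.symm
      · rintro (rfl | rfl)
        · exact ⟨⟨Or.inl ⟨e, he, rfl⟩, h⟩, Or.inl rfl⟩
        · exact ⟨⟨Or.inr ⟨e, he, rfl⟩, (reach_iff he a).1 h⟩, Or.inr rfl⟩
    rw [h2, Finset.card_pair (up_ne_dn e e)]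
    exact even_two
  · have h2 : ((verts ω).filter (Reach ω a)).filter (fun v => up e = v ∨ dn e = v) = ∅ := by
      ext v
      simp only [Finset.mem_filter, Finset.notMem_empty, iff_false]
      rintro ⟨⟨-, h3⟩, h4 | h4⟩
      · rw [← h4] at h3
        exact h h3
      · rw [← h4] at h3
        exact h ((reach_iff he a).2 h3)
    rw [h2, Finset.card_empty]
    exact Even.zero

end HAND

open HAND in
theorem t_HAND : J_HAND := by
  intro D a b ω hab hc
  obtain ⟨-, h1, h2⟩ := hc
  by_contra hn
  have ha : deg ω a = 1 := h1 a (Or.inl rfl)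
  have haK : a ∈ (verts ω).filter (Reach ω a) := by
    obtain ⟨e, he⟩ := Finset.card_pos.1 (show 0 < (ω.filter fun e => up e = a ∨ dn e = a).card by
      have : (ω.filter fun e => up e = a ∨ dn e = a).card = 1 := ha
      omega)
    rw [Finset.mem_filter] at he
    refine Finset.mem_filter.2 ⟨?_, Relation.ReflTransGen.refl⟩
    unfold verts
    rcases he.2 with h3 | h3
    · exact Finset.mem_union_left _ (Finset.mem_image.2 ⟨e, he.1, h3⟩)
    · exact Finset.mem_union_right _ (Finset.mem_image.2 ⟨e, he.1, h3⟩)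
  have h3 := even_sum ω a
  rw [← Finset.add_sum_erase _ _ haK, ha] at h3
  have h4 : Even (∑ v ∈ ((verts ω).filter (Reach ω a)).erase a, deg ω v) := by
    refine Finset.even_sum _ fun v hv => ?_
    rw [Finset.mem_erase, Finset.mem_filter] at hv
    have hvb : v ≠ b := by
      rintro rfl
      exact hn hv.2.2
    rcases h2 v hv.1 hvb with h5 | h5
    · rw [h5]; exact Even.zero
    · rw [h5]; exact even_two
  rcases h3 with ⟨p, hp⟩
  rcases h4 with ⟨q, hq⟩
  omega

end Pool.Agent.H737ON
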