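import Pool.Agent.Run7.h737.ON.Defs

/-!
# Interface: the path of the O(n) loop model has a spread law, for all `n > 0` and `x > 0`

Every `J_XXX` is a closed proposition with its proof in the doc string.  A piece is a file
`Pool/Agent/Run7/h737/ON/XXX.lean` with `theorem t_XXX : J_XXX` (namespace `Pool.Agent.H737ON`);
it may use the pieces named in its doc string as hypotheses, `theorem t_XXX (h : J_YYY) : J_XXX`.
-/

set_option autoImplicit false

open scoped Classical

noncomputable section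

namespace Pool.Agent.H737ON

/-! ## Final statement -/

/-- The final theorem.  All bounds are uniform in the domain `D`; `m` is the distance of the end
points. -/
def Statement : Prop := ∀ n x : ℝ, 0 < n → 0 < x → ∃ C : ℝ, 0 < C ∧
  ∀ (D : Finset Ed) (a b : Vx) (m : ℕ), FlowerCovered D → (confs D a b).Nonempty → 1 ≤ m →
    (m : ℤ) ≤ lev a b →
    -- (1) many local moves
    Ex n x D a b (fun ω => if ∃ S : Finset (ℤ × ℤ), (m : ℝ) / C ≤ S.card ∧ ∀ t ∈ S, ∃ k : Fin 6,
        path a ω ∩ hex t = {hx t k, hx t (k + 1)} ∨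
        path a ω ∩ hex t = hex t \ {hx t k, hx t (k + 1)} then 0 else 1) ≤
      C * Real.exp (-(m : ℝ) / C) ∧
    -- (2) the main estimate
    (∀ (F : Finset Ed → ℝ) (η : ℝ) (g : ℕ → ℝ), 0 ≤ η → (∀ γ, |F γ| ≤ 1) →
      (∀ γ γ', Bump γ γ' → |F γ - F γ'| ≤ η) → (∀ j, |g j| ≤ 1) →
      |Ex n x D a b (fun ω => F (path a ω) * g (len a ω)) -
        Ex n x D a b (fun ω => F (path a ω) * g (len a ω + 2))| ≤ C * (1 / √(m : ℝ) + η)) ∧
    -- (3) no large atoms
    (∀ j : ℕ, Ex n x D a b (fun ω => if len a ω = j then 1 else 0) ≤ C / √(m : ℝ)) ∧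
    -- (4) the variance
    (C ≤ m → ∀ s : ℝ, (m : ℝ) / C ≤ Ex n x D a b (fun ω => ((len a ω : ℝ) - s) ^ 2)) ∧
    -- (5) independence of the residues of the length
    (∀ (F : Finset Ed → ℝ) (η : ℝ) (q s : ℕ), 0 ≤ η → (∀ γ, |F γ| ≤ 1) →
      (∀ γ γ', Bump γ γ' → |F γ - F γ'| ≤ η) → 1 ≤ q →
      |q * Ex n x D a b (fun ω => if len a ω ≡ s [MOD 2 * q] then F (path a ω) else 0) -
        Ex n x D a b (fun ω => if len a ω ≡ s [MOD 2] then F (path a ω) else 0)| ≤
        C * q ^ 2 * (1 / √(m : ℝ) + η))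

/-! ## Lattice geometry -/

/-- GEO. (1) each hexagon edge joins consecutive hexagon vertices; (2) an edge incident to a vertex
of the hexagon `t` and not in the hexagon is the third edge there: every vertex of the lattice is
incident to exactly three edges, so at `hv t j` exactly the two edges `hx t j`, `hx t (j - 1)` of
`hex t` and one more edge; (3) edges of a flower have both end points in `fV`, (4) `lev` changes by
at most 1 along an edge and by at most 6 in a flower; (5) 30 edges at most 42, 24 vertices.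
Proof: direct computation with `fin_cases`, `simp`, `omega` (flower coordinates: `x` from `t.1 - 1`
to `t.1 + 2`, `y` from `t.2 - 2` to `t.2 + 1`). -/
def J_GEO : Prop :=
  (∀ (t : ℤ × ℤ) (k : Fin 6), (up (hx t k) = hv t k ∧ dn (hx t k) = hv t (k + 1)) ∨
    (dn (hx t k) = hv t k ∧ up (hx t k) = hv t (k + 1))) ∧
  (∀ t : ℤ × ℤ, Function.Injective (hx t) ∧ Function.Injective (hv t)) ∧
  (∀ (t : ℤ × ℤ) (j : Fin 6), ∃ e₀ : Ed, e₀ ∉ hex t ∧
    ∀ e : Ed, (up e = hv t j ∨ dn e = hv t j) ↔ (e = hx t j ∨ e = hx t (j - 1) ∨ e = e₀)) ∧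
  (∀ (t : ℤ × ℤ), ∀ e ∈ flower t, up e ∈ fV t ∧ dn e ∈ fV t) ∧
  (∀ (t : ℤ × ℤ), hex t ⊆ flower t ∧ (∀ j, hv t j ∈ fV t)) ∧
  (∀ (a : Vx) (e : Ed), |lev a (up e) - lev a (dn e)| ≤ 1) ∧
  (∀ (a : Vx) (t : ℤ × ℤ), ∀ u ∈ fV t, ∀ v ∈ fV t, |lev a u - lev a v| ≤ 6) ∧
  (∀ (t : ℤ × ℤ), (flower t).card ≤ 42 ∧ (fV t).card ≤ 24)

/-- SURG (local surgery).  Proof.  Write `P_k = nb t k` for the petals.  The 12 hexagons around the
flower are `M_k` (adjacent to the petal `P_k` only) and `S_k` (adjacent to `P_k` and `P_{k+1}`), in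
cyclic order `S_0, M_1, S_1, M_2, …`.  Since all 24 vertices of the flower have degree 0 or 2, i.e.
even degree (they have degree at most 3), there is `s : {19 hexagons} → Bool` such that an edge of
the flower or one of the 12 outward edges is in `ω` iff its two hexagons have different values
(define `s` on the centre, then on the petals, then on the `M_k`, `S_k` by edges of `P_k`; each of
the other 24 edges is determined by the parity at one vertex).  The edge `e` is the outward edge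
between `M_i` and `S_i` (case A) or between `S_{i-1}` and `M_i` (case B) for some `i`; let
`α = s M_i`, so that the other one has the value `¬ α`.  New values: centre and all petals `α`,
except `P_{i+1}, P_{i+2}` in case A, `P_{i-1}, P_{i-2}` in case B, which get `¬ α`; `ω'` = outside
the flower the same, in the flower the edges whose two hexagons have different new values.  All
degrees are 0 or 2 (three hexagons around each vertex).  The centre has exactly the edges with
`P_{i+1}, P_{i+2}` (case A), `k = i + 1`; from the end point of `e` in the flower the edges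
`P_i|S_i` and `P_i|P_{i+1}` are in `ω'` and lead to `hv t (i+1)`; case B is the mirror image
(`k = i - 2`, end point `hv t i = hv t (k + 2)`).  Checked by computer in all 24576 cases.  In
Lean: it is enough to treat `t = 0` by translation or to work with explicit lists of edges; the
outer structure is a finite check over `Fin 12` (entry) once `s` is available, e.g. by `decide` on
tables. -/
def J_SURG : Prop := ∀ (t : ℤ × ℤ) (ω : Finset Ed) (e : Ed),
  (∀ v ∈ fV t, deg ω v = 0 ∨ deg ω v = 2) → e ∈ ω → e ∉ flower t →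
  (up e ∈ fV t ∨ dn e ∈ fV t) →
  ∃ ω' : Finset Ed, (∀ f, f ∉ flower t → (f ∈ ω' ↔ f ∈ ω)) ∧
    (∀ v ∈ fV t, deg ω' v = 0 ∨ deg ω' v = 2) ∧ GoodFl ω' t e

/-! ## Graph facts -/

/-- HAND (handshake): the path ends at `b`.  Proof: let `K` be the finite set of the vertices
reachable from `a`; `∑_{v ∈ K} deg v = ∑_{e ∈ ω} (number of end points of e in K)` is even since
both end points of an edge of `ω` are in `K` or none; if `b ∉ K` the sum is `1 + (even)`. -/
def J_HAND : Prop := ∀ (D : Finset Ed) (a b : Vx) (ω : Finset Ed), a ≠ b → IsConf D a b ω →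
  Reach ω a b

/-- LOOP (the number of loops changes by at most 24 by a change in a flower).  Proof: a member
`K = comp ω v` of `loops a ω` which is disjoint from `fV t` is also a member of `loops a ω'` (no
edge of the flower touches `K`, so `Reach ω v` and `Reach ω' v` are the same, and `¬ Reach ω' a v`
by symmetry); those which meet `fV t` are at most 24 (they are pairwise disjoint). -/
def J_LOOP : Prop := ∀ (a : Vx) (t : ℤ × ℤ) (ω ω' : Finset Ed),
  (∀ f, f ∉ flower t → (f ∈ ω' ↔ f ∈ ω)) → (loops a ω).card ≤ (loops a ω').card + 24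

/-- WT (uses LOOP).  `|card ω - card ω'| ≤ 42`, numbers of loops differ by at most 24. -/
def J_WT : Prop := ∀ n x : ℝ, 0 < n → 0 < x → ∃ K : ℝ, 1 ≤ K ∧
  ∀ (a : Vx) (t : ℤ × ℤ) (ω ω' : Finset Ed),
    (∀ f, f ∉ flower t → (f ∈ ω' ↔ f ∈ ω)) → wt n x a ω ≤ K * wt n x a ω'

/-- RER (rerouting).  `I` = the four vertices `hv t j`, `j ≠ k, k + 2`.  Proof: let
`G' = symmDiff G (hex t)` and let `π` map `I` to `hv t k` and fix all other vertices.  If
`Adj G u v` then `Reach G' (π u) (π v)`: for an edge not in `hex t` this is the same edge (its end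
points are not in `I`); for `hx t k`, `hx t (k + 1)` the images are in `{hv t k, hv t (k + 2)}`,
which are connected by the other four edges.  The same in the other direction (then the edges are
the four other ones, `G' ∩ hex t` is the complement, and no edge of `G' \ hex t` touches `I`). -/
def J_RER : Prop := ∀ (t : ℤ × ℤ) (k : Fin 6) (G : Finset Ed),
  G ∩ hex t = {hx t k, hx t (k + 1)} →
  (∀ e ∈ G, e ∉ hex t → ∀ j, j ≠ k → j ≠ k + 2 → up e ≠ hv t j ∧ dn e ≠ hv t j) →
  ∀ u v, (∀ j, j ≠ k → j ≠ k + 2 → u ≠ hv t j ∧ v ≠ hv t j) →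
    (Reach G u v ↔ Reach (symmDiff G (hex t)) u v)

/-- FLIPA.  A flip of a hexagon in the state `Run` or `RunC` gives a configuration in the other
state, and no edge of `ω \ hex t` touches the four vertices `hv t j`, `j ≠ k, k + 2`.  Proof:
degrees at the six vertices; `hv t (k + 1)` has degree 2 from the two edges of the run (or the four
... ), the vertices `hv t (k + 3), (k + 4), (k + 5)` have no edge of `hex t` and hence degree 0. -/
def J_FLIPA : Prop := ∀ (D : Finset Ed) (a b : Vx) (ω : Finset Ed) (t : ℤ × ℤ) (k : Fin 6),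
  IsConf D a b ω → hex t ⊆ D → (∀ j, hv t j ≠ a ∧ hv t j ≠ b) → (Run ω t k ∨ RunC ω t k) →
    IsConf D a b (symmDiff ω (hex t)) ∧
    (Run ω t k → RunC (symmDiff ω (hex t)) t k) ∧ (RunC ω t k → Run (symmDiff ω (hex t)) t k) ∧
    ∀ e ∈ ω, e ∉ hex t → ∀ j, j ≠ k → j ≠ k + 2 → up e ≠ hv t j ∧ dn e ≠ hv t j

/-- FLIPB (uses RER, FLIPA, GEO).  The flip of a hexagon on the path in the state `Run`.  Proof: by
RER an edge of `ω` not in `hex t` is on the path of `ω` iff it is on the path of `ω'`; the edges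
`hx t k`, `hx t (k+1)` are on the path of `ω`, the four others on that of `ω'`; a loop (component
not containing `a`) does not meet the six vertices, and is the same for `ω` and `ω'`. -/
def J_FLIPB : Prop := ∀ (n x : ℝ) (D : Finset Ed) (a b : Vx) (ω : Finset Ed) (t : ℤ × ℤ)
  (k : Fin 6), 0 < n → 0 < x → IsConf D a b ω → hex t ⊆ D → (∀ j, hv t j ≠ a ∧ hv t j ≠ b) →
  Run ω t k → (Reach ω a (hv t k) ∨ Reach ω a (hv t (k + 2))) →
    Bump (path a ω) (path a (symmDiff ω (hex t))) ∧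
    len a (symmDiff ω (hex t)) = len a ω + 2 ∧
    wt n x a (symmDiff ω (hex t)) = x ^ 2 * wt n x a ω

/-! ## Levels -/

/-- CLEV (uses GEO).  Proof: induction along the path in `inner D a r ω`; the end points of its
edges are not in `U`; a vertex of level exactly `20 r` on an edge of `D` lies in a flower `⊆ D`
(`FlowerCovered`), hence in `U`, and `lev` changes by at most 1.  `a` itself has level 0, and the
vertices in `U` have level at least `20 r - 6`. -/
def J_CLEV : Prop := ∀ (D : Finset Ed) (a : Vx) (r : ℕ) (ω : Finset Ed) (v : Vx),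
  FlowerCovered D → ω ⊆ D → 1 ≤ r → Cr D a r ω v → lev a v < 20 * (r : ℤ) ∧ ¬ InU D a r v

/-- CAND (uses GEO, HAND).  Proof: if there were no candidate, then every vertex reachable from `a`
in `ω` would be in `Cr` and have level `< 20 r` (induction: if the next vertex were in `U` there
would be a candidate; if not, it is in `Cr`, see CLEV), but `b` is reachable. -/
def J_CAND : Prop := ∀ (D : Finset Ed) (a b : Vx) (r : ℕ) (ω : Finset Ed),
  FlowerCovered D → IsConf D a b ω → 1 ≤ r → 20 * (r : ℤ) ≤ lev a b → (Cnd D a r ω).Nonempty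

/-- LOC (uses CLEV).  The candidates depend only on the edges which have an end point of level
`< 20 r` outside `U`.  Proof: `Cr` is the same for `ω` and `ω'` by induction along the paths (CLEV),
and the edges of the candidates have an end point in `Cr`. -/
def J_LOC : Prop := ∀ (D : Finset Ed) (a : Vx) (r : ℕ) (ω ω' : Finset Ed),
  FlowerCovered D → ω ⊆ D → ω' ⊆ D → 1 ≤ r →
  (∀ e, ((lev a (up e) < 20 * (r : ℤ) ∧ ¬ InU D a r (up e)) ∨
    (lev a (dn e) < 20 * (r : ℤ) ∧ ¬ InU D a r (dn e))) → (e ∈ ω ↔ e ∈ ω')) →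
  Cnd D a r ω = Cnd D a r ω'

/-- LSURG (uses SURG, CAND, CLEV, LOC, GEO).  Surgery at level `r`.  Proof: apply SURG to
`t = tr D a r ω`, `e = er D a r ω` (a member of `Cnd` by CAND; one end point of `e` is in `Cr`,
hence not in `U` and `e ∉ flower t`; `a`, `b` are not in `fV t` by their levels).  `ω'` is in `D`
(`flower t ⊆ D`) and a configuration (degrees outside `fV t` do not change).  For `r' ≤ r` the
edges of the flower `t` are not among the edges of LOC at level `r'` (for `r' = r` both end points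
are in `U`, for `r' < r` the levels are too large), so `Cnd`, and with it `tr` and `er`, is the
same; for `r' < r` the flower of level `r'` is disjoint from the flower `t`, so `Good` is the
same; `Good D a r ω'` is the conclusion of SURG. -/
def J_LSURG : Prop := ∀ (D : Finset Ed) (a b : Vx) (M r : ℕ) (ω : Finset Ed),
  FlowerCovered D → IsConf D a b ω → 20 * (M : ℤ) + 20 ≤ lev a b → 1 ≤ r → r ≤ M →
  ∃ ω' : Finset Ed, IsConf D a b ω' ∧
    (∀ f, f ∉ flower (tr D a r ω) → (f ∈ ω' ↔ f ∈ ω)) ∧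
    tr D a r ω' = tr D a r ω ∧ Good D a r ω' ∧
    ∀ r', 1 ≤ r' → r' < r → (Good D a r' ω' ↔ Good D a r' ω)

/-- LFLIP (uses FLIPA, FLIPB, RER, CAND, CLEV, LOC, GEO).  Flip at a good level `r`.  Let
`t = tr D a r ω`, `ω' = sg D a r ω`.  Proof.  `a`, `b` are not vertices of the hexagon (levels),
`hex t ⊆ flower t ⊆ D`.  The centre is connected with `a`: by `Good` there is a path in `ω` from an
end point `y ∈ fV t` of `e = er D a r ω` to an end point of the run, `e ∈ ω`, and an end point of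
`e` is in `Cr`; so FLIPA and FLIPB apply (to `ω`, or to `ω'` if `ω` is in the state `RunC`, with
RER for the connection).  `Cnd` at level `r' ≤ r`: LOC as in LSURG.  `Cnd` at level `r' > r`: the
edges of the candidates and their end points have levels `≥ 20 r' - 7` resp. are not in
`hex t`; `inner D a r' ω'` is the symmetric difference of `inner D a r' ω` and `hex t` (no vertex of
the hexagon is in `U` of level `r'`), and RER applies to it, so `Cr D a r'` is the same for the
vertices outside the hexagon.  `Good` at `r' ≠ r`: the flower of level `r'` does not meet `hex t`.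
`Good` at `r`: `tr`, `er` are the same, `(ω ∩ flower t) \ hex t` is the same, and `Run`, `RunC` are
exchanged. -/
def J_LFLIP : Prop := ∀ (n x : ℝ) (D : Finset Ed) (a b : Vx) (M r : ℕ) (ω : Finset Ed),
  0 < n → 0 < x → FlowerCovered D → IsConf D a b ω → 20 * (M : ℤ) + 20 ≤ lev a b → 1 ≤ r →
  r ≤ M → Good D a r ω →
    IsConf D a b (sg D a r ω) ∧ sg D a r (sg D a r ω) = ω ∧
    (∀ r', 1 ≤ r' → r' ≤ M → (Good D a r' (sg D a r ω) ↔ Good D a r' ω)) ∧
    (∀ r', 1 ≤ r' → r' ≤ M → r' ≠ r → (Four D a r' (sg D a r ω) ↔ Four D a r' ω)) ∧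
    (Four D a r (sg D a r ω) ↔ ¬ Four D a r ω) ∧
    (Bump (path a ω) (path a (sg D a r ω)) ∨ Bump (path a (sg D a r ω)) (path a ω)) ∧
    (¬ Four D a r ω → len a (sg D a r ω) = len a ω + 2 ∧
      wt n x a (sg D a r ω) = x ^ 2 * wt n x a ω)

/-- GLP (uses GEO, CAND, CLEV).  The central hexagons of the good levels are distinct and on the
path: `S` is the image of `Glv D a M ω` under `r ↦ tr D a r ω`. -/
def J_GLP : Prop := ∀ (D : Finset Ed) (a b : Vx) (M : ℕ) (ω : Finset Ed),
  FlowerCovered D → IsConf D a b ω → 20 * (M : ℤ) + 20 ≤ lev a b →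
  ∃ S : Finset (ℤ × ℤ), S.card = (Glv D a M ω).card ∧ ∀ t ∈ S, ∃ k : Fin 6,
    path a ω ∩ hex t = {hx t k, hx t (k + 1)} ∨
    path a ω ∩ hex t = hex t \ {hx t k, hx t (k + 1)}

/-! ## Probability -/

/-- PROB (uses LSURG, WT, GEO).  Proof: by induction on `j ≤ M`,
`∑ w(ω) ∏_{r ≤ j} X_r(ω) ≤ (1 - δ)^j Z` with `X_r = 1/2` if `r` is good and `1` if not.  Let
`Y = ∏_{r < j} X_r` and let `Φ` be the map of LSURG at level `j`.  `Y (Φ ω) = Y ω`, `Φ ω` is good
at `j`, `w ω ≤ K w (Φ ω)`, and `Φ` is at most `2 ^ 42` to one (`ω` is determined by `Φ ω` and by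
`ω ∩ flower (tr D a j (Φ ω))`).  So `∑ w Y ≤ K 2^42 ∑_{good at j} w Y`, and
`∑ w Y X_j = ∑ w Y - (1/2) ∑_{good at j} w Y ≤ (1 - 1/(K 2^43)) ∑ w Y`. -/
def J_PROB : Prop := ∀ n x : ℝ, 0 < n → 0 < x → ∃ δ : ℝ, 0 < δ ∧ δ < 1 ∧
  ∀ (D : Finset Ed) (a b : Vx) (M : ℕ), FlowerCovered D → 20 * (M : ℤ) + 20 ≤ lev a b →
    ∑ ω ∈ confs D a b, wt n x a ω * (1 / 2 : ℝ) ^ (Glv D a M ω).card ≤
      (1 - δ) ^ M * ∑ ω ∈ confs D a b, wt n x a ω

/-- ABS (abstract exchange inequality).  Notation: `Ω` finite, weights `w ≥ 0`, `G ω` the good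
levels, `S ω ⊆ G ω` those in the state four, `σ r ω` the flip.  Proof.  Let `A = {|G| ≥ τ}`,
`T = |G|`, `N = |S|`, `p = y/(1+y)`, `q = 1/(1+y)`, `X = N - T p`, so `T - N = T q - X`.  By the
bijection `(ω, r) ↦ (σ r ω, r)` from `{r ∈ S ω}` to `{r ∈ G ω \ S ω}`,
`∑_A w ∑_{r ∈ S ω} Ψ ω = y ∑_A w ∑_{r ∈ G ω \ S ω} Ψ (σ r ω)` for every `Ψ`  (*).
For `Ψ` a function of `(T, N)` the inner sum on the right is `(T - N) Ψ(T, N + 1)`.  With
`Ψ = 1/T²` and `1/T` one gets `∑_A w X/T² = 0`, `∑_A w X/T = 0` (use `q y = p`, `p + q = 1`), with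
`Ψ = X/T²` one gets `∑_A w X²/T² = p q ∑_A w/T ≤ (1/τ) ∑_A w`, so by Cauchy-Schwarz
`∑_A w |X|/T ≤ (1/√τ) ∑ w`.  With `Ψ = F g(len)/T`: `q ∑_A w N F g(len)/T = p ∑_A w (T-N) F
g(len + 2)/T + error`, `|error| ≤ p η ∑ w`; insert `N = T p + X`, `T - N = T q - X`:
`p q |∑_A w F (g(len) - g(len+2))| ≤ ∑_A w |X|/T + p η ∑ w`.  The complement of `A` contributes at
most `2 ∑_{|G| < τ} w`. -/
def J_ABS : Prop := ∀ (α : Type) (Ω : Finset α) (w : α → ℝ) (G S : α → Finset ℕ)
  (σ : ℕ → α → α) (l : α → ℕ) (F : α → ℝ) (g : ℕ → ℝ) (y η : ℝ) (τ : ℕ),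
  0 < y → 0 ≤ η → 1 ≤ τ → (∀ ω ∈ Ω, 0 ≤ w ω) → (∀ ω, S ω ⊆ G ω) →
  (∀ ω ∈ Ω, ∀ r ∈ G ω, σ r ω ∈ Ω ∧ σ r (σ r ω) = ω ∧ G (σ r ω) = G ω ∧
    (∀ r', r' ≠ r → (r' ∈ S (σ r ω) ↔ r' ∈ S ω)) ∧ (r ∈ S (σ r ω) ↔ r ∉ S ω) ∧
    |F (σ r ω) - F ω| ≤ η) →
  (∀ ω ∈ Ω, ∀ r ∈ G ω, r ∉ S ω → l (σ r ω) = l ω + 2 ∧ w (σ r ω) = y * w ω) →
  (∀ ω ∈ Ω, |F ω| ≤ 1) → (∀ j, |g j| ≤ 1) →
  |∑ ω ∈ Ω, w ω * (F ω * g (l ω)) - ∑ ω ∈ Ω, w ω * (F ω * g (l ω + 2))| ≤
    (1 + y) ^ 2 / y * (1 / √(τ : ℝ) + η) * (∑ ω ∈ Ω, w ω) +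
      2 * ∑ ω ∈ Ω.filter (fun ω => (G ω).card < τ), w ω

/-- FIN1 (uses LFLIP, PROB, ABS, GLP).  Parts (1), (2) of the final statement.  Proof: constants
are chosen such that nothing is claimed for small `m`; otherwise let `M = m / 20 - 1`,
`τ = ⌈ε M⌉`, `∑_{|G| < τ} w ≤ 2^τ (1 - δ)^M Z`; apply ABS with `G = Glv D a M`,
`S ω = {r ∈ G ω : Four}`, `σ r = sg D a r`, `y = x ^ 2`. -/
def J_FIN1 : Prop := ∀ n x : ℝ, 0 < n → 0 < x → ∃ C : ℝ, 0 < C ∧
  ∀ (D : Finset Ed) (a b : Vx) (m : ℕ), FlowerCovered D → (confs D a b).Nonempty → 1 ≤ m →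
    (m : ℤ) ≤ lev a b →
    Ex n x D a b (fun ω => if ∃ S : Finset (ℤ × ℤ), (m : ℝ) / C ≤ S.card ∧ ∀ t ∈ S, ∃ k : Fin 6,
        path a ω ∩ hex t = {hx t k, hx t (k + 1)} ∨
        path a ω ∩ hex t = hex t \ {hx t k, hx t (k + 1)} then 0 else 1) ≤
      C * Real.exp (-(m : ℝ) / C) ∧
    (∀ (F : Finset Ed → ℝ) (η : ℝ) (g : ℕ → ℝ), 0 ≤ η → (∀ γ, |F γ| ≤ 1) →
      (∀ γ γ', Bump γ γ' → |F γ - F γ'| ≤ η) → (∀ j, |g j| ≤ 1) →
      |Ex n x D a b (fun ω => F (path a ω) * g (len a ω)) -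
        Ex n x D a b (fun ω => F (path a ω) * g (len a ω + 2))| ≤ C * (1 / √(m : ℝ) + η))

/-- FIN2 (uses FIN1).  (3): take `F = 1`, `η = 0`, `g i = 1` if `i ≤ j` and `i ≡ j mod 2`, else
`0`; then `g(l) - g(l + 2)` is the indicator function of `l = j`.  (4): by (3) the probability of
`|len - s| ≤ R` is at most `(2 R + 1) C / √m`; take `R = √m / (8 C)` and `m ≥ 16 C ^ 2`; then
`E (len - s)² ≥ R² / 2`.  (5): `g` the indicator function of `l ≡ s + 2 j mod 2 q`; telescoping
over `j`, `|E_s - E_{s + 2 j}| ≤ j C (1/√m + η)`, sum over `j < q`. -/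
def J_FIN2 : Prop := J_FIN1 → Statement

end Pool.Agent.H737ON
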