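import Pool.Agent.Run7.h737.ON.Iface

/-!
# Flip at a good level
-/

set_option autoImplicit false

open scoped Classical

noncomputable section

namespace Pool.Agent.H737ON

namespace LFlip

theorem pick_mem {S : Set ((ℤ × ℤ) × Ed)} (h : S.Nonempty) : pick S ∈ S := by
  unfold pick
  rw [dif_pos h]
  exact h.some_mem

theorem rmono {ω ω' : Finset Ed} (h : ω ⊆ ω') {u v : Vx} (huv : Reach ω u v) :
    Reach ω' u v := by
  induction huv with
  | refl => exact Relation.ReflTransGen.refl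
  | tail _ h2 ih =>
    obtain ⟨e, he, h1⟩ := h2
    exact Relation.ReflTransGen.tail ih ⟨e, h he, h1⟩

theorem rstep {ω : Finset Ed} {u v w : Vx} (h : Reach ω u v) {e : Ed} (he : e ∈ ω)
    (hvw : (up e = v ∧ dn e = w) ∨ (up e = w ∧ dn e = v)) : Reach ω u w :=
  Relation.ReflTransGen.tail h ⟨e, he, hvw⟩

theorem lev_fV (hG : J_GEO) {D : Finset Ed} {a : Vx} {r : ℕ} {t : ℤ × ℤ} (hN : Near D a r t)
    {v : Vx} (hv : v ∈ fV t) : 20 * (r : ℤ) - 6 ≤ lev a v ∧ lev a v ≤ 20 * (r : ℤ) + 6 := by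
  obtain ⟨-, u, hu, hl⟩ := hN
  have h := hG.2.2.2.2.2.2.1 a t u hu v hv
  rw [abs_le] at h
  constructor <;> linarith [h.1, h.2]

theorem hex_fV (hG : J_GEO) {t : ℤ × ℤ} {e : Ed} (he : e ∈ hex t) : up e ∈ fV t ∧ dn e ∈ fV t :=
  hG.2.2.2.1 t e ((hG.2.2.2.2.1 t).1 he)

theorem run_not_runC (hG : J_GEO) {ω : Finset Ed} {t : ℤ × ℤ} {k k' : Fin 6} (h : Run ω t k)
    (h' : RunC ω t k') : False := by
  unfold Run at h
  unfold RunC at h'
  rw [h] at h'
  have hi := (hG.2.1 t).1
  have hc6 : (hex t).card = 6 := by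
    unfold hex
    rw [Finset.card_image_of_injective _ hi]
    rfl
  have hsub : ({hx t k', hx t (k' + 1)} : Finset Ed) ⊆ hex t := by
    intro x hx'
    simp only [Finset.mem_insert, Finset.mem_singleton] at hx'
    rcases hx' with rfl | rfl <;> exact Finset.mem_image_of_mem _ (Finset.mem_univ _)
  have h2 : ∀ j : Fin 6, ({hx t j, hx t (j + 1)} : Finset Ed).card ≤ 2 := fun j =>
    Finset.card_le_two
  have h4 := Finset.card_sdiff_of_subset hsub
  have h5 := congrArg Finset.card h'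
  have h6 := h2 k
  have h7 := h2 k'
  omega

theorem goodFl_congr {ω ω' : Finset Ed} {t : ℤ × ℤ} {e : Ed} (hG : J_GEO)
    (h : ω ∩ flower t = ω' ∩ flower t) : GoodFl ω t e ↔ GoodFl ω' t e := by
  have hh : ω ∩ hex t = ω' ∩ hex t := by
    have hs := (hG.2.2.2.2.1 t).1
    ext x
    have := congrArg (fun s => x ∈ s) h
    simp only [Finset.mem_inter, eq_iff_iff] at this
    simp only [Finset.mem_inter]
    constructor
    · rintro ⟨h1, h2⟩
      exact ⟨(this.1 ⟨h1, hs h2⟩).1, h2⟩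
    · rintro ⟨h1, h2⟩
      exact ⟨(this.2 ⟨h1, hs h2⟩).1, h2⟩
  unfold GoodFl Run RunC
  rw [h, hh]

theorem four_congr {ω ω' : Finset Ed} {t : ℤ × ℤ} (hG : J_GEO)
    (h : ω ∩ flower t = ω' ∩ flower t) : (∃ k, RunC ω t k) ↔ ∃ k, RunC ω' t k := by
  have hh : ω ∩ hex t = ω' ∩ hex t := by
    have hs := (hG.2.2.2.2.1 t).1
    ext x
    have := congrArg (fun s => x ∈ s) h
    simp only [Finset.mem_inter, eq_iff_iff] at this
    simp only [Finset.mem_inter]
    constructor
    · rintro ⟨h1, h2⟩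
      exact ⟨(this.1 ⟨h1, hs h2⟩).1, h2⟩
    · rintro ⟨h1, h2⟩
      exact ⟨(this.2 ⟨h1, hs h2⟩).1, h2⟩
  unfold RunC
  rw [hh]

/-- The candidates are the same before and after a flip, at all levels. -/
theorem flip_cnd (hG : J_GEO) (hR : J_RER) (hLOC : J_LOC) {D : Finset Ed} {a : Vx}
    {M r : ℕ} {t : ℤ × ℤ} {k : Fin 6} {ω : Finset Ed} (hD : FlowerCovered D) (hωD : ω ⊆ D)
    (hr1 : 1 ≤ r) (hN : Near D a r t) (hrun : Run ω t k)
    (hno : ∀ e ∈ ω, e ∉ hex t → ∀ j, j ≠ k → j ≠ k + 2 → up e ≠ hv t j ∧ dn e ≠ hv t j)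
    {r' : ℕ} (hr' : 1 ≤ r') : Cnd D a r' ω = Cnd D a r' (symmDiff ω (hex t)) := by
  have hhD : hex t ⊆ D := (hG.2.2.2.2.1 t).1.trans hN.1
  have hω'D : symmDiff ω (hex t) ⊆ D := by
    intro x hx'
    rw [Finset.mem_symmDiff] at hx'
    rcases hx' with h | h
    · exact hωD h.1
    · exact hhD h.1
  have hmem : ∀ e, e ∉ hex t → (e ∈ ω ↔ e ∈ symmDiff ω (hex t)) := by
    intro e he
    rw [Finset.mem_symmDiff]
    exact ⟨fun h => Or.inl ⟨h, he⟩, fun h => h.elim (fun h => h.1) (fun h => absurd h.1 he)⟩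
  rcases Nat.lt_or_ge r r' with hlt | hge
  · -- levels above
    have hr20 : 20 * (r : ℤ) + 20 ≤ 20 * (r' : ℤ) := by
      have : (r : ℤ) + 1 ≤ r' := by exact_mod_cast hlt
      linarith
    have hnU : ∀ v ∈ fV t, ¬ InU D a r' v := by
      rintro v hv ⟨t', hN', hv'⟩
      have h1 := (lev_fV hG hN hv).2
      have h2 := (lev_fV hG hN' hv').1
      linarith
    have hinner : inner D a r' (symmDiff ω (hex t)) = symmDiff (inner D a r' ω) (hex t) := by
      ext e
      by_cases he : e ∈ hex t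
      · have h1 := hex_fV hG he
        have h2 := hnU _ h1.1
        have h3 := hnU _ h1.2
        simp only [inner, Finset.mem_filter, Finset.mem_symmDiff]
        constructor
        · rintro ⟨h4 | h4, -⟩
          · exact absurd he h4.2
          · exact Or.inr ⟨he, fun h5 => h4.2 h5.1⟩
        · rintro (⟨-, h4⟩ | ⟨-, h4⟩)
          · exact absurd he h4
          · exact ⟨Or.inr ⟨he, fun h5 => h4 ⟨h5, h2, h3⟩⟩, h2, h3⟩
      · simp only [inner, Finset.mem_filter, Finset.mem_symmDiff]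
        constructor
        · rintro ⟨h4 | h4, h5⟩
          · exact Or.inl ⟨⟨h4.1, h5⟩, he⟩
          · exact absurd h4.1 he
        · rintro (⟨⟨h4, h5⟩, -⟩ | ⟨h4, -⟩)
          · exact ⟨Or.inl ⟨h4, he⟩, h5⟩
          · exact absurd h4 he
    have hG1 : inner D a r' ω ∩ hex t = {hx t k, hx t (k + 1)} := by
      rw [← hrun]
      ext e
      simp only [inner, Finset.mem_inter, Finset.mem_filter]
      constructor
      · rintro ⟨⟨h1, -⟩, h2⟩
        exact ⟨h1, h2⟩
      · rintro ⟨h1, h2⟩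
        have h3 := hex_fV hG h2
        exact ⟨⟨h1, hnU _ h3.1, hnU _ h3.2⟩, h2⟩
    have hG2 : ∀ e ∈ inner D a r' ω, e ∉ hex t → ∀ j, j ≠ k → j ≠ k + 2 →
        up e ≠ hv t j ∧ dn e ≠ hv t j := by
      intro e he
      exact hno e (Finset.mem_of_mem_filter e he)
    have hCr : ∀ v, 20 * (r : ℤ) + 6 < lev a v →
        (Cr D a r' ω v ↔ Cr D a r' (symmDiff ω (hex t)) v) := by
      intro v hv
      unfold Cr
      rw [hinner]
      refine hR t k _ hG1 hG2 a v ?_
      intro j _ _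
      have h1 := lev_fV hG hN ((hG.2.2.2.2.1 t).2 j)
      constructor
      · intro h
        rw [← h] at h1
        have h2 : lev a a = 0 := by simp [lev]
        have h3 : (1 : ℤ) ≤ r := by exact_mod_cast hr1
        linarith [h1.1]
      · intro h
        rw [← h] at h1
        linarith [h1.2]
    ext p
    have key : ∀ u v : Vx, (v ∈ fV p.1) → Near D a r' p.1 → |lev a u - lev a v| ≤ 1 →
        20 * (r : ℤ) + 6 < lev a u ∧ 20 * (r : ℤ) + 6 < lev a v := by
      intro u v hv hN' huv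
      have h1 := (lev_fV hG hN' hv).1
      rw [abs_le] at huv
      constructor <;> linarith [huv.1, huv.2]
    have hl := hG.2.2.2.2.2.1 a p.2
    simp only [Cnd, Set.mem_setOf_eq]
    refine and_congr_right fun hN' => ?_
    have hex1 : (up p.2 ∈ fV p.1 ∨ dn p.2 ∈ fV p.1) → p.2 ∉ hex t := by
      rintro h hh
      have h1 := hex_fV hG hh
      rcases h with h | h
      · have h2 := (lev_fV hG hN' h).1
        have h3 := (lev_fV hG hN h1.1).2
        linarith
      · have h2 := (lev_fV hG hN' h).1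
        have h3 := (lev_fV hG hN h1.2).2
        linarith
    constructor
    · rintro ⟨he, h | h⟩
      · have h1 := key _ _ h.2 hN' hl
        exact ⟨(hmem _ (hex1 (Or.inr h.2))).1 he, Or.inl ⟨(hCr _ h1.1).1 h.1, h.2⟩⟩
      · have h1 := key _ _ h.2 hN' (by rw [abs_sub_comm]; exact hl)
        exact ⟨(hmem _ (hex1 (Or.inl h.2))).1 he, Or.inr ⟨(hCr _ h1.1).1 h.1, h.2⟩⟩
    · rintro ⟨he, h | h⟩
      · have h1 := key _ _ h.2 hN' hl
        exact ⟨(hmem _ (hex1 (Or.inr h.2))).2 he, Or.inl ⟨(hCr _ h1.1).2 h.1, h.2⟩⟩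
      · have h1 := key _ _ h.2 hN' (by rw [abs_sub_comm]; exact hl)
        exact ⟨(hmem _ (hex1 (Or.inl h.2))).2 he, Or.inr ⟨(hCr _ h1.1).2 h.1, h.2⟩⟩
  · -- levels below
    refine hLOC D a r' ω _ hD hωD hω'D hr' ?_
    intro e he
    by_cases heh : e ∈ hex t
    · exfalso
      have h1 := hex_fV hG heh
      rcases Nat.lt_or_ge r' r with hlt | hge'
      · have h20 : 20 * (r' : ℤ) + 20 ≤ 20 * (r : ℤ) := by
          have : (r' : ℤ) + 1 ≤ r := by exact_mod_cast hlt
          linarith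
        rcases he with he | he
        · have := (lev_fV hG hN h1.1).1
          linarith [he.1]
        · have := (lev_fV hG hN h1.2).1
          linarith [he.1]
      · have hrr : r' = r := le_antisymm hge hge'
        subst hrr
        rcases he with he | he
        · exact he.2 ⟨t, hN, h1.1⟩
        · exact he.2 ⟨t, hN, h1.2⟩
    · exact hmem e heh

end LFlip

open LFlip

theorem t_LFLIP (hG : J_GEO) (hA : J_FLIPA) (hB : J_FLIPB) (hR : J_RER) (hC : J_CAND)
    (hLOC : J_LOC) : J_LFLIP := by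
  intro n x D a b M r ω hn hx0 hD hω hlev hr1 hrM hgood
  have hrM' : (r : ℤ) ≤ M := by exact_mod_cast hrM
  have hr1' : (1 : ℤ) ≤ r := by exact_mod_cast hr1
  have hmemC : ∀ r', 1 ≤ r' → r' ≤ M → pick (Cnd D a r' ω) ∈ Cnd D a r' ω := by
    intro r' h1 h2
    refine pick_mem (hC D a b r' ω hD hω h1 ?_)
    have : (r' : ℤ) ≤ M := by exact_mod_cast h2
    linarith
  obtain ⟨t, ht⟩ : ∃ t, t = tr D a r ω := ⟨_, rfl⟩
  obtain ⟨e, he⟩ : ∃ e, e = er D a r ω := ⟨_, rfl⟩
  have hp := hmemC r hr1 hrM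
  have hN : Near D a r t := by rw [ht]; exact hp.1
  have heω : e ∈ ω := by rw [he]; exact hp.2.1
  have hee : (Cr D a r ω (up e) ∧ dn e ∈ fV t) ∨ (Cr D a r ω (dn e) ∧ up e ∈ fV t) := by
    rw [he, ht]; exact hp.2.2
  have hgood' : GoodFl ω t e := by rw [he, ht]; exact hgood
  obtain ⟨k, hk, y, hyf, hye, hyr⟩ := hgood'
  have hsg : sg D a r ω = symmDiff ω (hex t) := by rw [ht]; rfl
  rw [hsg]
  have hhD : hex t ⊆ D := (hG.2.2.2.2.1 t).1.trans hN.1
  have hab : ∀ j, hv t j ≠ a ∧ hv t j ≠ b := by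
    intro j
    have h1 := lev_fV hG hN ((hG.2.2.2.2.1 t).2 j)
    constructor
    · intro h
      rw [h] at h1
      have h2 : lev a a = 0 := by simp [lev]
      linarith [h1.1]
    · intro h
      rw [h] at h1
      linarith [h1.2]
  have hinn : inner D a r ω ⊆ ω := Finset.filter_subset _ _
  have hreach1 : Reach ω a (up e) ∧ Reach ω a (dn e) := by
    rcases hee with h | h
    · have h1 : Reach ω a (up e) := rmono hinn h.1
      exact ⟨h1, rstep h1 heω (Or.inl ⟨rfl, rfl⟩)⟩
    · have h1 : Reach ω a (dn e) := rmono hinn h.1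
      exact ⟨rstep h1 heω (Or.inr ⟨rfl, rfl⟩), h1⟩
  have hreachy : Reach ω a y := by
    rcases hye with h | h
    · rw [← h]; exact hreach1.1
    · rw [← h]; exact hreach1.2
  have hsubω : (ω ∩ flower t) \ hex t ⊆ ω :=
    Finset.sdiff_subset.trans Finset.inter_subset_left
  have hreachk : Reach ω a (hv t k) ∨ Reach ω a (hv t (k + 2)) := by
    rcases hyr with h | h
    · exact Or.inl (hreachy.trans (rmono hsubω h))
    · exact Or.inr (hreachy.trans (rmono hsubω h))
  obtain ⟨hω', hrc, hcr, hno⟩ := hA D a b ω t k hω hhD hab hk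
  have hinv : symmDiff (symmDiff ω (hex t)) (hex t) = ω := symmDiff_symmDiff_cancel_right _ _
  have hmem : ∀ f, f ∉ hex t → (f ∈ ω ↔ f ∈ symmDiff ω (hex t)) := by
    intro f hf
    rw [Finset.mem_symmDiff]
    exact ⟨fun h => Or.inl ⟨h, hf⟩, fun h => h.elim (fun h => h.1) (fun h => absurd h.1 hf)⟩
  have hno' : ∀ f ∈ symmDiff ω (hex t), f ∉ hex t → ∀ j, j ≠ k → j ≠ k + 2 →
      up f ≠ hv t j ∧ dn f ≠ hv t j := by
    intro f hf hfh
    exact hno f ((hmem f hfh).2 hf) hfh
  -- candidates at all levels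
  have hcnd : ∀ r', 1 ≤ r' → Cnd D a r' (symmDiff ω (hex t)) = Cnd D a r' ω := by
    intro r' h1
    rcases hk with hk | hk
    · exact (flip_cnd (M := M) hG hR hLOC hD hω.1 hr1 hN hk hno h1).symm
    · have h := flip_cnd (M := M) hG hR hLOC hD hω'.1 hr1 hN (hcr hk) hno' h1
      rw [hinv] at h
      exact h
  have htr : ∀ r', 1 ≤ r' → tr D a r' (symmDiff ω (hex t)) = tr D a r' ω := by
    intro r' h1
    unfold tr
    rw [hcnd r' h1]
  have her : ∀ r', 1 ≤ r' → er D a r' (symmDiff ω (hex t)) = er D a r' ω := by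
    intro r' h1
    unfold er
    rw [hcnd r' h1]
  have hdis : ∀ r', 1 ≤ r' → r' ≤ M → r' ≠ r →
      symmDiff ω (hex t) ∩ flower (tr D a r' ω) = ω ∩ flower (tr D a r' ω) := by
    intro r' h1 h2 h3
    ext f
    simp only [Finset.mem_inter]
    refine and_congr_left fun hf => ?_
    refine (hmem f ?_).symm
    intro hfh
    have h4 := (hex_fV hG hfh).1
    have h5 := (hG.2.2.2.1 _ f hf).1
    have h6 := lev_fV hG hN h4
    have h7 := lev_fV hG (hmemC r' h1 h2).1 h5
    rcases Nat.lt_or_gt_of_ne h3 with h | h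
    · have : (r' : ℤ) + 1 ≤ r := by exact_mod_cast h
      linarith [h6.1, h7.2]
    · have : (r : ℤ) + 1 ≤ r' := by exact_mod_cast h
      linarith [h7.1, h6.2]
  have hsd : (symmDiff ω (hex t) ∩ flower t) \ hex t = (ω ∩ flower t) \ hex t := by
    ext f
    simp only [Finset.mem_sdiff, Finset.mem_inter]
    constructor
    · rintro ⟨⟨h1, h2⟩, h3⟩
      exact ⟨⟨(hmem f h3).2 h1, h2⟩, h3⟩
    · rintro ⟨⟨h1, h2⟩, h3⟩
      exact ⟨⟨(hmem f h3).1 h1, h2⟩, h3⟩
  refine ⟨hω', ?_, ?_, ?_, ?_, ?_, ?_⟩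
  · unfold sg
    rw [htr r hr1, ← ht, hinv]
  · intro r' h1 h2
    by_cases h3 : r' = r
    · subst h3
      refine ⟨fun _ => hgood, fun _ => ?_⟩
      unfold Good
      rw [htr r' h1, her r' h1, ← ht, ← he]
      refine ⟨k, ?_, y, hyf, hye, ?_⟩
      · rcases hk with hk | hk
        · exact Or.inr (hrc hk)
        · exact Or.inl (hcr hk)
      · rw [hsd]
        exact hyr
    · unfold Good
      rw [htr r' h1, her r' h1]
      exact goodFl_congr hG (hdis r' h1 h2 h3)
  · intro r' h1 h2 h3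
    unfold Four
    rw [htr r' h1]
    exact four_congr hG (hdis r' h1 h2 h3)
  · unfold Four
    rw [htr r hr1, ← ht]
    rcases hk with hk | hk
    · refine ⟨fun _ => ?_, fun _ => ⟨k, hrc hk⟩⟩
      rintro ⟨k', hk'⟩
      exact run_not_runC hG hk hk'
    · refine ⟨fun h => ?_, fun h => absurd ⟨k, hk⟩ h⟩
      obtain ⟨k', hk'⟩ := h
      exact (run_not_runC hG (hcr hk) hk').elim
  · rcases hk with hk | hk
    · exact Or.inl (hB n x D a b ω t k hn hx0 hω hhD hab hk hreachk).1
    · right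
      have hreach' : Reach (symmDiff ω (hex t)) a (hv t k) ∨
          Reach (symmDiff ω (hex t)) a (hv t (k + 2)) := by
        have hI : ∀ i, (i = k ∨ i = k + 2) → (Reach (symmDiff ω (hex t)) a (hv t i) ↔
            Reach ω a (hv t i)) := by
          intro i hi
          have h := hR t k (symmDiff ω (hex t)) (hcr hk) hno' a (hv t i) (by
            intro j hj1 hj2
            refine ⟨fun h => (hab j).1 h.symm, fun h => ?_⟩
            have := (hG.2.1 t).2 h
            rcases hi with rfl | rfl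
            · exact hj1 this.symm
            · exact hj2 this.symm)
          rw [hinv] at h
          exact h
        rcases hreachk with h | h
        · exact Or.inl ((hI k (Or.inl rfl)).2 h)
        · exact Or.inr ((hI (k + 2) (Or.inr rfl)).2 h)
      have h := (hB n x D a b (symmDiff ω (hex t)) t k hn hx0 hω' hhD hab (hcr hk) hreach').1
      rw [hinv] at h
      exact h
  · intro hnf
    rcases hk with hk | hk
    · exact (hB n x D a b ω t k hn hx0 hω hhD hab hk hreachk).2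
    · exact absurd (by unfold Four; rw [← ht]; exact ⟨k, hk⟩) hnf

end Pool.Agent.H737ON
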