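import Pool.Agent.Run7.h737.ON.Iface
import Pool.Agent.Run7.h737.ON.GEO

set_option autoImplicit false

open scoped Classical

noncomputable section

namespace Pool.Agent.H737ON

namespace Lp

theorem adj_symm {ω : Finset Ed} {u v : Vx} (h : Adj ω u v) : Adj ω v u := by
  obtain ⟨e, he, h1 | h1⟩ := h
  · exact ⟨e, he, Or.inr h1⟩
  · exact ⟨e, he, Or.inl h1⟩

theorem reach_symm {ω : Finset Ed} {u v : Vx} (h : Reach ω u v) : Reach ω v u := by
  induction h with
  | refl => exact Relation.ReflTransGen.refl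
  | tail _ h2 ih => exact Relation.ReflTransGen.head (adj_symm h2) ih

theorem mem_verts {ω : Finset Ed} {v : Vx} : v ∈ verts ω ↔ ∃ e ∈ ω, up e = v ∨ dn e = v := by
  unfold verts
  rw [Finset.mem_union, Finset.mem_image, Finset.mem_image]
  constructor
  · rintro (⟨e, he, h⟩ | ⟨e, he, h⟩)
    · exact ⟨e, he, Or.inl h⟩
    · exact ⟨e, he, Or.inr h⟩
  · rintro ⟨e, he, h | h⟩
    · exact Or.inl ⟨e, he, h⟩
    · exact Or.inr ⟨e, he, h⟩

theorem reach_verts {ω : Finset Ed} {u v : Vx} (h : Reach ω v u) (hv : v ∈ verts ω) :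
    u ∈ verts ω := by
  induction h with
  | refl => exact hv
  | tail _ h2 _ =>
    obtain ⟨e, he, h1 | h1⟩ := h2
    · exact mem_verts.2 ⟨e, he, Or.inr h1.2⟩
    · exact mem_verts.2 ⟨e, he, Or.inl h1.1⟩

theorem mem_comp {ω : Finset Ed} {u v : Vx} : u ∈ comp ω v ↔ u ∈ verts ω ∧ Reach ω v u := by
  unfold comp
  rw [Finset.mem_filter]

theorem comp_eq {ω : Finset Ed} {u v : Vx} (h : Reach ω v u) : comp ω v = comp ω u := by
  ext w
  rw [mem_comp, mem_comp]
  constructor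
  · rintro ⟨h1, h2⟩
    exact ⟨h1, (reach_symm h).trans h2⟩
  · rintro ⟨h1, h2⟩
    exact ⟨h1, h.trans h2⟩

theorem mem_loops {a : Vx} {ω : Finset Ed} {K : Finset Vx} :
    K ∈ loops a ω ↔ ∃ v, v ∈ verts ω ∧ ¬ Reach ω a v ∧ comp ω v = K := by
  unfold loops
  rw [Finset.mem_image]
  constructor
  · rintro ⟨v, hv, h⟩
    rw [Finset.mem_filter] at hv
    exact ⟨v, hv.1, hv.2, h⟩
  · rintro ⟨v, h1, h2, h3⟩
    exact ⟨v, Finset.mem_filter.2 ⟨h1, h2⟩, h3⟩

theorem fl_ends {t : ℤ × ℤ} {e : Ed} (he : e ∈ flower t) {v : Vx} (h : up e = v ∨ dn e = v) :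
    v ∈ fV t := by
  unfold fV
  rw [Finset.mem_union]
  rcases h with h | h
  · exact Or.inl (Finset.mem_image.2 ⟨e, he, h⟩)
  · exact Or.inr (Finset.mem_image.2 ⟨e, he, h⟩)

theorem far {a : Vx} {t : ℤ × ℤ} {ω ω' : Finset Ed}
    (h : ∀ f, f ∉ flower t → (f ∈ ω' ↔ f ∈ ω)) {K : Finset Vx} (hK : K ∈ loops a ω)
    (hd : ∀ u ∈ K, u ∉ fV t) : K ∈ loops a ω' := by
  obtain ⟨v, hv, hav, rfl⟩ := mem_loops.1 hK
  have hin : ∀ u, Reach ω v u → u ∉ fV t := fun u hu =>
    hd u (mem_comp.2 ⟨reach_verts hu hv, hu⟩)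
  have h1 : ∀ u, Reach ω v u → Reach ω' v u := by
    intro u hu
    induction hu with
    | refl => exact Relation.ReflTransGen.refl
    | @tail b c hb h2 ih =>
      obtain ⟨e, he, h3⟩ := h2
      refine ih.tail ⟨e, ?_, h3⟩
      refine (h e fun hf => ?_).2 he
      exact hin b hb (fl_ends hf (by rcases h3 with h3 | h3 <;> [exact Or.inl h3.1; exact Or.inr h3.2]))
  have h2 : ∀ u, Reach ω' v u → Reach ω v u := by
    intro u hu
    induction hu with
    | refl => exact Relation.ReflTransGen.refl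
    | @tail b c hb h2 ih =>
      obtain ⟨e, he, h3⟩ := h2
      refine ih.tail ⟨e, ?_, h3⟩
      refine (h e fun hf => ?_).1 he
      exact hin b ih (fl_ends hf (by rcases h3 with h3 | h3 <;> [exact Or.inl h3.1; exact Or.inr h3.2]))
  have hv' : v ∈ verts ω' := by
    obtain ⟨e, he, h3⟩ := mem_verts.1 hv
    refine mem_verts.2 ⟨e, (h e fun hf => ?_).2 he, h3⟩
    exact hin v Relation.ReflTransGen.refl (fl_ends hf h3)
  refine mem_loops.2 ⟨v, hv', fun hr => hav ?_, ?_⟩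
  · exact reach_symm (h2 a (reach_symm hr))
  · ext u
    rw [mem_comp, mem_comp]
    constructor
    · rintro ⟨_, h4⟩
      have h5 := h2 u h4
      exact ⟨reach_verts h5 hv, h5⟩
    · rintro ⟨_, h4⟩
      have h5 := h1 u h4
      exact ⟨reach_verts h5 hv', h5⟩

end Lp

theorem t_LOOP : J_LOOP := by
  intro a t ω ω' h
  have h1 : (loops a ω).filter (fun K => ∀ u ∈ K, u ∉ fV t) ⊆ loops a ω' := by
    intro K hK
    rw [Finset.mem_filter] at hK
    exact Lp.far h hK.1 hK.2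
  have h2 : (loops a ω).filter (fun K => ¬ ∀ u ∈ K, u ∉ fV t) ⊆ (fV t).image (comp ω) := by
    intro K hK
    rw [Finset.mem_filter] at hK
    obtain ⟨hK, h3⟩ := hK
    push Not at h3
    obtain ⟨u, hu, hf⟩ := h3
    obtain ⟨v, hv, hav, rfl⟩ := Lp.mem_loops.1 hK
    exact Finset.mem_image.2 ⟨u, hf, (Lp.comp_eq (Lp.mem_comp.1 hu).2).symm⟩
  have h3 : (fV t).card ≤ 24 := (t_GEO.2.2.2.2.2.2.2 t).2
  have h4 := Finset.card_filter_add_card_filter_not (s := loops a ω)
    (fun K => ∀ u ∈ K, u ∉ fV t)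
  have h5 := Finset.card_le_card h1
  have h6 := (Finset.card_le_card h2).trans Finset.card_image_le
  omega

end Pool.Agent.H737ON
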