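import Pool.Agent.Run7.h737.ON.Iface

/-!
# LSURG: surgery at level `r` (helper651 for the project ON of helper737, MP_4960b8_pr)
-/

set_option autoImplicit false

open scoped Classical

noncomputable section

namespace Pool.Agent.H737ON

namespace LSurg

/-- the chosen pair is a member of a nonempty set -/
theorem pick_mem {S : Set ((ℤ × ℤ) × Ed)} (h : S.Nonempty) : pick S ∈ S := by
  unfold pick
  rw [dif_pos h]
  exact h.some_mem

theorem lev_self (a : Vx) : lev a a = 0 := by
  simp [lev]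

/-- the levels of the vertices of a flower near level `r` -/
theorem near_lev (hG : J_GEO) {D : Finset Ed} {a : Vx} {r : ℕ} {t : ℤ × ℤ} (h : Near D a r t)
    {v : Vx} (hv : v ∈ fV t) : 20 * (r : ℤ) - 6 ≤ lev a v ∧ lev a v ≤ 20 * (r : ℤ) + 6 := by
  obtain ⟨-, -, -, -, -, -, h7, -⟩ := hG
  obtain ⟨-, v0, hv0, h0⟩ := h
  have := h7 a t v hv v0 hv0
  rw [h0, abs_le] at this
  constructor <;> linarith [this.1, this.2]

/-- outside of the flower the degrees do not change -/
theorem deg_eq (hG : J_GEO) {t : ℤ × ℤ} {ω ω' : Finset Ed}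
    (h : ∀ f, f ∉ flower t → (f ∈ ω' ↔ f ∈ ω)) {v : Vx} (hv : v ∉ fV t) :
    deg ω' v = deg ω v := by
  obtain ⟨-, -, -, h4, -, -, -, -⟩ := hG
  unfold deg
  congr 1
  ext f
  simp only [Finset.mem_filter]
  constructor
  · rintro ⟨hf, hfv⟩
    have hn : f ∉ flower t := by
      intro hft
      rcases hfv with rfl | rfl
      · exact hv (h4 t f hft).1
      · exact hv (h4 t f hft).2
    exact ⟨(h f hn).1 hf, hfv⟩
  · rintro ⟨hf, hfv⟩
    have hn : f ∉ flower t := by
      intro hft
      rcases hfv with rfl | rfl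
      · exact hv (h4 t f hft).1
      · exact hv (h4 t f hft).2
    exact ⟨(h f hn).2 hf, hfv⟩

end LSurg

open LSurg

theorem t_LSURG (hS : J_SURG) (hC : J_CAND) (hV : J_CLEV) (hL : J_LOC) (hG : J_GEO) :
    J_LSURG := by
  intro D a b M r ω hD hω hab hr hrM
  have hcnd : ∀ s : ℕ, 1 ≤ s → s ≤ r → (Cnd D a s ω).Nonempty := by
    intro s hs hsr
    refine hC D a b s ω hD hω hs ?_
    have : (s : ℤ) ≤ (M : ℤ) := by exact_mod_cast hsr.trans hrM
    linarith
  have hmem : (tr D a r ω, er D a r ω) ∈ Cnd D a r ω := pick_mem (hcnd r hr le_rfl)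
  obtain ⟨hnear, heω, hcase⟩ := hmem
  simp only at hnear heω hcase
  set t := tr D a r ω with ht
  set e := er D a r ω with he
  have h4 := hG.2.2.2.1
  have hrZ : (1 : ℤ) ≤ (r : ℤ) := by exact_mod_cast hr
  have hrMZ : (r : ℤ) ≤ (M : ℤ) := by exact_mod_cast hrM
  have haU : a ∉ fV t := by
    intro h
    have := (near_lev hG hnear h).1
    rw [lev_self] at this
    linarith
  have hbU : b ∉ fV t := by
    intro h
    have := (near_lev hG hnear h).2
    linarith
  have hInU : ∀ v ∈ fV t, InU D a r v := fun v hv => ⟨t, hnear, hv⟩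
  have hefl : e ∉ flower t := by
    intro h
    rcases hcase with ⟨hc, -⟩ | ⟨hc, -⟩
    · exact (hV D a r ω _ hD hω.1 hr hc).2 (hInU _ (h4 t e h).1)
    · exact (hV D a r ω _ hD hω.1 hr hc).2 (hInU _ (h4 t e h).2)
  have hend : up e ∈ fV t ∨ dn e ∈ fV t := by
    rcases hcase with ⟨-, h⟩ | ⟨-, h⟩
    · exact Or.inr h
    · exact Or.inl h
  have hdeg : ∀ v ∈ fV t, deg ω v = 0 ∨ deg ω v = 2 := by
    intro v hv
    refine hω.2.2 v ?_ ?_
    · rintro rfl; exact haU hv
    · rintro rfl; exact hbU hv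
  obtain ⟨ω', hout, hdeg', hgood⟩ := hS t ω e hdeg heω hefl hend
  have hsub : ω' ⊆ D := by
    intro f hf
    by_cases hft : f ∈ flower t
    · exact hnear.1 hft
    · exact hω.1 ((hout f hft).1 hf)
  have hconf : IsConf D a b ω' := by
    refine ⟨hsub, ?_, ?_⟩
    · intro v hv
      have hvU : v ∉ fV t := by
        rcases hv with rfl | rfl
        · exact haU
        · exact hbU
      rw [deg_eq hG hout hvU]
      exact hω.2.1 v hv
    · intro v hva hvb
      by_cases hv : v ∈ fV t
      · exact hdeg' v hv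
      · rw [deg_eq hG hout hv]
        exact hω.2.2 v hva hvb
  -- the candidates at the levels `≤ r` do not change
  have hcndeq : ∀ s : ℕ, 1 ≤ s → s ≤ r → Cnd D a s ω' = Cnd D a s ω := by
    intro s hs hsr
    refine hL D a s ω' ω hD hsub hω.1 hs ?_
    intro f hf
    by_cases hft : f ∈ flower t
    · exfalso
      have hkey : ∀ v ∈ fV t, ¬ (lev a v < 20 * (s : ℤ) ∧ ¬ InU D a s v) := by
        rintro v hv ⟨h1, h2⟩
        rcases Nat.lt_or_ge s r with hlt | hge
        · have h3 := (near_lev hG hnear hv).1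
          have h5 : (s : ℤ) + 1 ≤ (r : ℤ) := by exact_mod_cast hlt
          linarith
        · have hsr' : s = r := le_antisymm hsr hge
          rw [hsr'] at h2
          exact h2 (hInU v hv)
      rcases hf with h | h
      · exact hkey _ (h4 t f hft).1 h
      · exact hkey _ (h4 t f hft).2 h
    · exact hout f hft
  have htr : ∀ s : ℕ, 1 ≤ s → s ≤ r → tr D a s ω' = tr D a s ω := by
    intro s hs hsr
    unfold tr
    rw [hcndeq s hs hsr]
  have her : ∀ s : ℕ, 1 ≤ s → s ≤ r → er D a s ω' = er D a s ω := by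
    intro s hs hsr
    unfold er
    rw [hcndeq s hs hsr]
  refine ⟨ω', hconf, hout, htr r hr le_rfl, ?_, ?_⟩
  · unfold Good
    rw [htr r hr le_rfl, her r hr le_rfl]
    exact hgood
  · intro s hs hsr
    have hmems : (tr D a s ω, er D a s ω) ∈ Cnd D a s ω := pick_mem (hcnd s hs hsr.le)
    obtain ⟨hnears, -, -⟩ := hmems
    simp only at hnears
    have hdisj : ∀ f ∈ flower (tr D a s ω), f ∉ flower t := by
      intro f hf hft
      have h1 := (near_lev hG hnears (h4 _ f hf).1).2
      have h2 := (near_lev hG hnear (h4 _ f hft).1).1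
      have h5 : (s : ℤ) + 1 ≤ (r : ℤ) := by exact_mod_cast hsr
      linarith
    have hfl : ω' ∩ flower (tr D a s ω) = ω ∩ flower (tr D a s ω) := by
      ext f
      simp only [Finset.mem_inter]
      constructor
      · rintro ⟨h1, h2⟩
        exact ⟨(hout f (hdisj f h2)).1 h1, h2⟩
      · rintro ⟨h1, h2⟩
        exact ⟨(hout f (hdisj f h2)).2 h1, h2⟩
    have hhx : ω' ∩ hex (tr D a s ω) = ω ∩ hex (tr D a s ω) := by
      have hsubh : hex (tr D a s ω) ⊆ flower (tr D a s ω) := (hG.2.2.2.2.1 _).1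
      ext f
      simp only [Finset.mem_inter]
      constructor
      · rintro ⟨h1, h2⟩
        exact ⟨(hout f (hdisj f (hsubh h2))).1 h1, h2⟩
      · rintro ⟨h1, h2⟩
        exact ⟨(hout f (hdisj f (hsubh h2))).2 h1, h2⟩
    unfold Good
    rw [htr s hs hsr.le, her s hs hsr.le]
    unfold GoodFl Run RunC
    rw [hfl, hhx]

end Pool.Agent.H737ON
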