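import Pool.Agent.Run7.h737.ON.Iface

/-!
# PROB: exponential moment of the number of good levels
-/

set_option autoImplicit false

open scoped Classical

noncomputable section

namespace Pool.Agent.H737ON

/-- comparison with a bounded-to-one map into the good elements -/
theorem prob_step {α : Type*} (Ω : Finset α) (W : α → ℝ) (good : α → Prop) (Φ : α → α)
    (K N : ℝ) (hK : 0 ≤ K) (hW : ∀ ω ∈ Ω, 0 ≤ W ω)
    (hΦ : ∀ ω ∈ Ω, Φ ω ∈ Ω ∧ good (Φ ω) ∧ W ω ≤ K * W (Φ ω))
    (hfib : ∀ ω' ∈ Ω, ((Ω.filter fun ω => Φ ω = ω').card : ℝ) ≤ N) :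
    ∑ ω ∈ Ω, W ω ≤ K * N * ∑ ω ∈ Ω.filter good, W ω := by
  have h1 : ∑ ω ∈ Ω, W ω ≤ ∑ ω ∈ Ω, K * W (Φ ω) :=
    Finset.sum_le_sum fun ω hω => (hΦ ω hω).2.2
  have h2 : ∑ ω' ∈ Ω.filter good, ∑ ω ∈ Ω.filter (fun ω => Φ ω = ω'), K * W (Φ ω) =
      ∑ ω ∈ Ω, K * W (Φ ω) := by
    apply Finset.sum_fiberwise_of_maps_to
    intro ω hω
    exact Finset.mem_filter.mpr ⟨(hΦ ω hω).1, (hΦ ω hω).2.1⟩
  have h3 : ∑ ω' ∈ Ω.filter good, ∑ ω ∈ Ω.filter (fun ω => Φ ω = ω'), K * W (Φ ω) ≤
      ∑ ω' ∈ Ω.filter good, K * N * W ω' := by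
    refine Finset.sum_le_sum fun ω' hω' => ?_
    have hm := (Finset.mem_filter.mp hω').1
    have e : ∑ ω ∈ Ω.filter (fun ω => Φ ω = ω'), K * W (Φ ω) =
        ∑ ω ∈ Ω.filter (fun ω => Φ ω = ω'), K * W ω' := by
      refine Finset.sum_congr rfl fun ω hω => ?_
      rw [(Finset.mem_filter.mp hω).2]
    rw [e, Finset.sum_const, nsmul_eq_mul]
    have := mul_le_mul_of_nonneg_right (hfib ω' hm) (mul_nonneg hK (hW ω' hm))
    calc _ ≤ _ := this
      _ = _ := by ring
  rw [← h2] at h1
  refine h1.trans (h3.trans (le_of_eq ?_))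
  rw [Finset.mul_sum]

theorem wt_nonneg (n x : ℝ) (hn : 0 < n) (hx : 0 < x) (a : Vx) (ω : Finset Ed) :
    0 ≤ wt n x a ω := by
  unfold wt
  positivity

theorem Glv_succ (D : Finset Ed) (a : Vx) (j : ℕ) (ω : Finset Ed) :
    (Glv D a (j + 1) ω).card = (Glv D a j ω).card + (if Good D a (j + 1) ω then 1 else 0) := by
  unfold Glv
  have : Finset.Icc 1 (j + 1) = insert (j + 1) (Finset.Icc 1 j) := by
    ext i
    simp only [Finset.mem_Icc, Finset.mem_insert]
    omega
  rw [this, Finset.filter_insert]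
  split_ifs with h
  · rw [Finset.card_insert_of_notMem]
    simp
  · simp

theorem t_PROB (h1 : J_LSURG) (h2 : J_WT) (h3 : J_GEO) : J_PROB := by
  intro n x hn hx
  obtain ⟨K, hK1, hK⟩ := h2 n x hn hx
  have hfl : ∀ t, (flower t).card ≤ 42 := fun t => (h3.2.2.2.2.2.2.2 t).1
  have hK0 : 0 < K := by linarith
  have hδ1 : 1 / (K * 2 ^ 43) < 1 := by
    rw [div_lt_one (by positivity)]
    have : (1 : ℝ) < 2 ^ 43 := by norm_num
    nlinarith
  refine ⟨1 / (K * 2 ^ 43), by positivity, hδ1, ?_⟩
  intro D a b M hD hM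
  have key : ∀ j, j ≤ M → ∑ ω ∈ confs D a b, wt n x a ω * (1 / 2 : ℝ) ^ (Glv D a j ω).card ≤
      (1 - 1 / (K * 2 ^ 43)) ^ j * ∑ ω ∈ confs D a b, wt n x a ω := by
    intro j
    induction j with
    | zero => intro _; simp [Glv]
    | succ j ih =>
      intro hj
      have ih' := ih (by omega)
      set Y : Finset Ed → ℝ := fun ω => wt n x a ω * (1 / 2 : ℝ) ^ (Glv D a j ω).card with hY
      have hY0 : ∀ ω, 0 ≤ Y ω := fun ω => by
        rw [hY]
        have := wt_nonneg n x hn hx a ω
        positivity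
      have hch : ∀ ω ∈ confs D a b, ∃ ω' : Finset Ed, IsConf D a b ω' ∧
          (∀ f, f ∉ flower (tr D a (j + 1) ω) → (f ∈ ω' ↔ f ∈ ω)) ∧
          tr D a (j + 1) ω' = tr D a (j + 1) ω ∧ Good D a (j + 1) ω' ∧
          ∀ r', 1 ≤ r' → r' < j + 1 → (Good D a r' ω' ↔ Good D a r' ω) := by
        intro ω hω
        exact h1 D a b M (j + 1) ω hD (Finset.mem_filter.mp hω).2 hM (by omega) hj
      choose! Φ hΦ using hch
      have hmem : ∀ ω ∈ confs D a b, Φ ω ∈ confs D a b := by
        intro ω hω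
        have := (hΦ ω hω).1
        exact Finset.mem_filter.mpr ⟨Finset.mem_powerset.mpr this.1, this⟩
      have hstep := prob_step (confs D a b) Y (fun ω => Good D a (j + 1) ω) Φ K (2 ^ 42) hK0.le
        (fun ω _ => hY0 ω) (by
          intro ω hω
          obtain ⟨_, hout, htr, hgood, hG⟩ := hΦ ω hω
          refine ⟨hmem ω hω, hgood, ?_⟩
          have hGl : Glv D a j (Φ ω) = Glv D a j ω := by
            unfold Glv
            refine Finset.filter_congr fun r hr => ?_
            rw [Finset.mem_Icc] at hr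
            exact hG r hr.1 (by omega)
          rw [hY]
          simp only
          rw [hGl, ← mul_assoc]
          exact mul_le_mul_of_nonneg_right (hK a _ ω (Φ ω) hout) (by positivity)) (by
          intro ω' _
          have hle : (Finset.filter (fun ω => Φ ω = ω') (confs D a b)).card ≤
              (flower (tr D a (j + 1) ω')).powerset.card := by
            refine Finset.card_le_card_of_injOn
              (fun ω => ω ∩ flower (tr D a (j + 1) ω')) ?_ ?_
            · intro ω _
              exact Finset.mem_coe.mpr (Finset.mem_powerset.mpr Finset.inter_subset_right)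
            · intro ω₁ hω₁ ω₂ hω₂ he
              rw [Finset.mem_coe, Finset.mem_filter] at hω₁ hω₂
              obtain ⟨_, hout1, htr1, _, _⟩ := hΦ ω₁ hω₁.1
              obtain ⟨_, hout2, htr2, _, _⟩ := hΦ ω₂ hω₂.1
              rw [hω₁.2] at htr1 hout1
              rw [hω₂.2] at htr2 hout2
              rw [← htr1] at hout1
              rw [← htr2] at hout2
              ext f
              by_cases hf : f ∈ flower (tr D a (j + 1) ω')
              · have := Finset.ext_iff.mp he f
                simpa [Finset.mem_inter, hf] using this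
              · rw [← hout1 f hf, ← hout2 f hf]
          rw [Finset.card_powerset] at hle
          have h42 : (2 : ℕ) ^ (flower (tr D a (j + 1) ω')).card ≤ 2 ^ 42 :=
            Nat.pow_le_pow_right (by norm_num) (hfl _)
          have h43 : ((Finset.filter (fun ω => Φ ω = ω') (confs D a b)).card : ℝ) ≤ 2 ^ 42 := by
            exact_mod_cast hle.trans h42
          convert h43)
      have hsplit : ∑ ω ∈ confs D a b, wt n x a ω * (1 / 2 : ℝ) ^ (Glv D a (j + 1) ω).card =
          ∑ ω ∈ confs D a b, Y ω -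
            1 / 2 * ∑ ω ∈ (confs D a b).filter (fun ω => Good D a (j + 1) ω), Y ω := by
        rw [Finset.sum_filter, Finset.mul_sum, ← Finset.sum_sub_distrib]
        refine Finset.sum_congr rfl fun ω _ => ?_
        rw [Glv_succ, hY]
        simp only
        split_ifs with hg
        · rw [pow_succ]
          ring
        · simp
      rw [hsplit, pow_succ]
      have hKK : 0 < K * 2 ^ 43 := by positivity
      have h5 : 1 / (K * 2 ^ 43) * ∑ ω ∈ confs D a b, Y ω ≤
          1 / 2 * ∑ ω ∈ (confs D a b).filter (fun ω => Good D a (j + 1) ω), Y ω := by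
        rw [div_mul_eq_mul_div, one_mul, div_le_iff₀ hKK]
        calc _ ≤ _ := hstep
          _ = _ := by ring
      have h6 : (1 - 1 / (K * 2 ^ 43)) * ∑ ω ∈ confs D a b, Y ω ≤
          (1 - 1 / (K * 2 ^ 43)) * ((1 - 1 / (K * 2 ^ 43)) ^ j *
            ∑ ω ∈ confs D a b, wt n x a ω) :=
        mul_le_mul_of_nonneg_left ih' (by linarith)
      calc _ ≤ (1 - 1 / (K * 2 ^ 43)) * ∑ ω ∈ confs D a b, Y ω := by
            rw [sub_mul, one_mul]
            linarith
        _ ≤ _ := h6
        _ = _ := by ring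
  exact key M le_rfl

end Pool.Agent.H737ON
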