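import Pool.Agent.Run7.h737.ON.Iface

/-!
# ON: the pieces RER, FLIPA, FLIPB
-/

set_option autoImplicit false

open scoped Classical

noncomputable section

namespace Pool.Agent.H737ON

namespace Rr

/-! ### geometry of one hexagon -/

lemma ends (t : ℤ × ℤ) (k : Fin 6) : (up (hx t k) = hv t k ∧ dn (hx t k) = hv t (k + 1)) ∨
    (dn (hx t k) = hv t k ∧ up (hx t k) = hv t (k + 1)) := by
  fin_cases k <;> simp [hx, hv, up, dn, dx, dy]

lemma hx_inj (t : ℤ × ℤ) : Function.Injective (hx t) := by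
  intro i j h
  fin_cases i <;> fin_cases j <;> simp [hx] at h ⊢ <;> omega

lemma hv_inj (t : ℤ × ℤ) : Function.Injective (hv t) := by
  intro i j h
  fin_cases i <;> fin_cases j <;> simp [hv] at h ⊢ <;> omega

/-- the third edge at the vertex `hv t j` -/
def out (t : ℤ × ℤ) : Fin 6 → Ed :=
  ![(t.1, t.2, 1), (t.1, t.2 + 1, 2), (t.1 + 1, t.2, 0), (t.1 + 2, t.2 - 1, 1),
    (t.1 + 1, t.2 - 1, 2), (t.1, t.2 - 1, 0)]

lemma inc (t : ℤ × ℤ) (j : Fin 6) (e : Ed) :
    (up e = hv t j ∨ dn e = hv t j) ↔ (e = hx t j ∨ e = hx t (j - 1) ∨ e = out t j) := by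
  obtain ⟨p, q, c⟩ := e
  fin_cases j <;> fin_cases c <;> simp [hx, hv, up, dn, dx, dy, out, Prod.ext_iff] <;> omega

lemma out_notMem (t : ℤ × ℤ) (j : Fin 6) : out t j ∉ hex t := by
  intro h
  obtain ⟨i, -, hi⟩ := Finset.mem_image.1 h
  fin_cases j <;> fin_cases i <;> simp [hx, out] at hi <;> omega

lemma mem_hex {t : ℤ × ℤ} {e : Ed} : e ∈ hex t ↔ ∃ k, hx t k = e := by
  unfold hex
  simp

lemma adj_symm {ω : Finset Ed} {u v : Vx} (h : Adj ω u v) : Adj ω v u := by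
  obtain ⟨e, he, h | h⟩ := h
  · exact ⟨e, he, Or.inr h⟩
  · exact ⟨e, he, Or.inl h⟩

lemma reach_symm {ω : Finset Ed} {u v : Vx} (h : Reach ω u v) : Reach ω v u := by
  induction h with
  | refl => exact Relation.ReflTransGen.refl
  | tail _ h2 ih => exact Relation.ReflTransGen.head (adj_symm h2) ih

/-- an edge of the hexagon -/
lemma step {ω : Finset Ed} {t : ℤ × ℤ} {k : Fin 6} (h : hx t k ∈ ω) : Reach ω (hv t k) (hv t (k + 1)) := by
  refine Relation.ReflTransGen.single ⟨hx t k, h, ?_⟩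
  rcases ends t k with h | h
  · exact Or.inl h
  · exact Or.inr ⟨h.2, h.1⟩

/-- the retraction of the hexagon to the end points of the run -/
def rt (t : ℤ × ℤ) (k : Fin 6) (x : Vx) : Vx :=
  if ∃ j, j ≠ k ∧ j ≠ k + 2 ∧ x = hv t j then hv t k else x

lemma rt_hv (t : ℤ × ℤ) (k j : Fin 6) : rt t k (hv t j) = hv t k ∨ rt t k (hv t j) = hv t (k + 2) := by
  unfold rt
  split_ifs with h
  · exact Or.inl rfl
  · by_cases h1 : j = k
    · exact Or.inl (by rw [h1])
    · by_cases h2 : j = k + 2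
      · exact Or.inr (by rw [h2])
      · exact absurd ⟨j, h1, h2, rfl⟩ h

lemma rt_of {t : ℤ × ℤ} {k : Fin 6} {x : Vx} (h : ∀ j, j ≠ k → j ≠ k + 2 → x ≠ hv t j) : rt t k x = x := by
  unfold rt
  rw [if_neg]
  rintro ⟨j, h1, h2, h3⟩
  exact h j h1 h2 h3

lemma half {t : ℤ × ℤ} {k : Fin 6} {G H : Finset Ed} (hH : Reach H (hv t k) (hv t (k + 2)))
    (hG : ∀ e ∈ G, e ∉ hex t → e ∈ H ∧ ∀ j, j ≠ k → j ≠ k + 2 → up e ≠ hv t j ∧ dn e ≠ hv t j)
    {u v : Vx} (h : Reach G u v) : Reach H (rt t k u) (rt t k v) := by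
  have hP : ∀ i j : Fin 6, Reach H (rt t k (hv t i)) (rt t k (hv t j)) := by
    intro i j
    rcases rt_hv t k i with h1 | h1 <;> rcases rt_hv t k j with h2 | h2 <;> rw [h1, h2]
    · exact Relation.ReflTransGen.refl
    · exact hH
    · exact reach_symm hH
    · exact Relation.ReflTransGen.refl
  induction h with
  | refl => exact Relation.ReflTransGen.refl
  | tail _ h2 ih =>
    refine Relation.ReflTransGen.trans ih ?_
    obtain ⟨e, he, h3⟩ := h2
    by_cases heh : e ∈ hex t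
    · obtain ⟨i, rfl⟩ := mem_hex.1 heh
      rcases h3 with ⟨h4, h5⟩ | ⟨h4, h5⟩ <;> rcases ends t i with ⟨h6, h7⟩ | ⟨h6, h7⟩ <;>
        rw [← h4, ← h5, h6, h7] <;> exact hP _ _
    · obtain ⟨h4, h5⟩ := hG e he heh
      have e1 : rt t k (up e) = up e := rt_of fun j h1 h2 => (h5 j h1 h2).1
      have e2 : rt t k (dn e) = dn e := rt_of fun j h1 h2 => (h5 j h1 h2).2
      refine Relation.ReflTransGen.single ⟨e, h4, ?_⟩
      rcases h3 with ⟨h6, h7⟩ | ⟨h6, h7⟩
      · rw [← h6, ← h7, e1, e2]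
        exact Or.inl ⟨rfl, rfl⟩
      · rw [← h6, ← h7, e1, e2]
        exact Or.inr ⟨rfl, rfl⟩

lemma mem_sd {ω : Finset Ed} {t : ℤ × ℤ} {j : Fin 6} : hx t j ∈ symmDiff ω (hex t) ↔ hx t j ∉ ω := by
  rw [Finset.mem_symmDiff]
  have : hx t j ∈ hex t := mem_hex.2 ⟨j, rfl⟩
  tauto

lemma mem_sd' {ω : Finset Ed} {t : ℤ × ℤ} {e : Ed} (h : e ∉ hex t) : e ∈ symmDiff ω (hex t) ↔ e ∈ ω := by
  rw [Finset.mem_symmDiff]
  tauto

lemma run_iff {ω : Finset Ed} {t : ℤ × ℤ} {k : Fin 6} : Run ω t k ↔ ∀ j, hx t j ∈ ω ↔ (j = k ∨ j = k + 1) := by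
  unfold Run
  constructor
  · intro h j
    have h1 : hx t j ∈ ω ∩ hex t ↔ hx t j ∈ ω := by
      rw [Finset.mem_inter]
      exact and_iff_left (mem_hex.2 ⟨j, rfl⟩)
    rw [← h1, h, Finset.mem_insert, Finset.mem_singleton, (hx_inj t).eq_iff, (hx_inj t).eq_iff]
  · intro h
    ext e
    rw [Finset.mem_inter, Finset.mem_insert, Finset.mem_singleton]
    constructor
    · rintro ⟨h1, h2⟩
      obtain ⟨i, rfl⟩ := mem_hex.1 h2
      rw [(hx_inj t).eq_iff, (hx_inj t).eq_iff]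
      exact (h i).1 h1
    · rintro (rfl | rfl)
      · exact ⟨(h k).2 (Or.inl rfl), mem_hex.2 ⟨k, rfl⟩⟩
      · exact ⟨(h (k + 1)).2 (Or.inr rfl), mem_hex.2 ⟨_, rfl⟩⟩

lemma runC_iff {ω : Finset Ed} {t : ℤ × ℤ} {k : Fin 6} : RunC ω t k ↔ ∀ j, hx t j ∈ ω ↔ ¬ (j = k ∨ j = k + 1) := by
  unfold RunC
  constructor
  · intro h j
    have h1 : hx t j ∈ ω ∩ hex t ↔ hx t j ∈ ω := by
      rw [Finset.mem_inter]
      exact and_iff_left (mem_hex.2 ⟨j, rfl⟩)
    rw [← h1, h, Finset.mem_sdiff, Finset.mem_insert, Finset.mem_singleton, (hx_inj t).eq_iff, (hx_inj t).eq_iff]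
    exact and_iff_right (mem_hex.2 ⟨j, rfl⟩)
  · intro h
    ext e
    rw [Finset.mem_inter, Finset.mem_sdiff, Finset.mem_insert, Finset.mem_singleton]
    constructor
    · rintro ⟨h1, h2⟩
      refine ⟨h2, ?_⟩
      obtain ⟨i, rfl⟩ := mem_hex.1 h2
      rw [(hx_inj t).eq_iff, (hx_inj t).eq_iff]
      exact (h i).1 h1
    · rintro ⟨h1, h2⟩
      refine ⟨?_, h1⟩
      obtain ⟨i, rfl⟩ := mem_hex.1 h1
      rw [(hx_inj t).eq_iff, (hx_inj t).eq_iff] at h2
      exact (h i).2 h2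

/-- the run connects its end points -/
lemma run_reach {ω : Finset Ed} {t : ℤ × ℤ} {k : Fin 6} (h : ∀ j, j = k ∨ j = k + 1 → hx t j ∈ ω) :
    Reach ω (hv t k) (hv t (k + 1)) ∧ Reach ω (hv t k) (hv t (k + 2)) := by
  have h1 := step (h k (Or.inl rfl))
  have h2 := step (h (k + 1) (Or.inr rfl))
  have e1 : k + 1 + 1 = k + 2 := by rw [add_assoc]; rfl
  rw [e1] at h2
  exact ⟨h1, h1.trans h2⟩

/-- the complementary run connects its vertices -/
lemma runC_reach {ω : Finset Ed} {t : ℤ × ℤ} {k : Fin 6} (h : ∀ j, ¬ (j = k ∨ j = k + 1) → hx t j ∈ ω) :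
    ∀ j, j ≠ k + 1 → Reach ω (hv t k) (hv t j) := by
  have f2 := step (h (k + 2) (by fin_cases k <;> simp))
  have f3 := step (h (k + 3) (by fin_cases k <;> simp))
  have f4 := step (h (k + 4) (by fin_cases k <;> simp))
  have f5 := step (h (k + 5) (by fin_cases k <;> simp))
  have e2 : k + 2 + 1 = k + 3 := by rw [add_assoc]; rfl
  have e3 : k + 3 + 1 = k + 4 := by rw [add_assoc]; rfl
  have e4 : k + 4 + 1 = k + 5 := by rw [add_assoc]; rfl
  have e5 : k + 5 + 1 = k := by rw [add_assoc]; fin_cases k <;> rfl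
  rw [e2] at f2
  rw [e3] at f3
  rw [e4] at f4
  rw [e5] at f5
  have g5 := reach_symm f5
  have g4 := g5.trans (reach_symm f4)
  have g3 := g4.trans (reach_symm f3)
  have g2 := g3.trans (reach_symm f2)
  intro j hj
  have key : ∀ k j : Fin 6, j ≠ k + 1 → j = k ∨ j = k + 2 ∨ j = k + 3 ∨ j = k + 4 ∨ j = k + 5 := by decide
  rcases key k j hj with rfl | rfl | rfl | rfl | rfl
  · exact Relation.ReflTransGen.refl
  · exact g2
  · exact g3
  · exact g4
  · exact g5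

end Rr

open Rr

theorem t_RER : J_RER := by
  intro t k G hG hI u v huv
  have hR := run_iff.1 (show Run G t k from hG)
  have hu : rt t k u = u := rt_of fun j h1 h2 => (huv j h1 h2).1
  have hv' : rt t k v = v := rt_of fun j h1 h2 => (huv j h1 h2).2
  constructor
  · intro h
    have h1 := half (H := symmDiff G (hex t)) (t := t) (k := k)
      (runC_reach (fun j hj => mem_sd.2 fun h => hj ((hR j).1 h)) (k + 2) (by fin_cases k <;> simp))
      (fun e he heh => ⟨(mem_sd' heh).2 he, hI e he heh⟩) h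
    rwa [hu, hv'] at h1
  · intro h
    have h1 := half (H := G) (t := t) (k := k) (run_reach fun j hj => (hR j).2 hj).2
      (fun e he heh => ⟨(mem_sd' heh).1 he, hI e ((mem_sd' heh).1 he) heh⟩) h
    rwa [hu, hv'] at h1

end Pool.Agent.H737ON
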