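import Pool.Agent.Run7.h737.ON.Iface

/-!
# Piece SURG of the project ON (MP_4960b8_pr): local surgery in a flower
-/

set_option autoImplicit false

namespace Pool.Agent.H737ON

namespace Surg

/-- the three edges at a vertex -/
def inc (v : Vx) : Fin 3 → Ed :=
  if v.2.2 then ![(v.1, v.2.1, 0), (v.1, v.2.1, 1), (v.1, v.2.1, 2)]
  else ![(v.1, v.2.1, 0), (v.1 + 1, v.2.1, 1), (v.1, v.2.1 + 1, 2)]

theorem mem_inc (e : Ed) (v : Vx) : (up e = v ∨ dn e = v) ↔ ∃ m, e = inc v m := by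
  obtain ⟨i, j, c⟩ := e
  obtain ⟨a, b, s⟩ := v
  cases s <;> fin_cases c <;> simp [up, dn, dx, dy, inc, Fin.exists_fin_succ] <;> omega

theorem inc_injective (v : Vx) : Function.Injective (inc v) := by
  obtain ⟨a, b, s⟩ := v
  intro m m' h
  cases s <;> fin_cases m <;> fin_cases m' <;> simp_all [inc]

theorem deg_eq (ω : Finset Ed) (v : Vx) :
    deg ω v = ∑ m : Fin 3, if inc v m ∈ ω then 1 else 0 := by
  classical
  have h1 : (∑ m : Fin 3, if inc v m ∈ ω then 1 else 0) =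
      (Finset.univ.filter fun m : Fin 3 => inc v m ∈ ω).card := by
    rw [Finset.card_filter]
  rw [h1, ← Finset.card_image_of_injective _ (inc_injective v)]
  unfold deg
  congr 1
  ext e
  simp only [Finset.mem_filter, Finset.mem_image, Finset.mem_univ, true_and, mem_inc]
  constructor
  · rintro ⟨h, m, rfl⟩
    exact ⟨m, h, rfl⟩
  · rintro ⟨m, h, rfl⟩
    exact ⟨h, m, rfl⟩

/-- the two hexagons at an edge -/
def s1 (e : Ed) : ℤ × ℤ := (![(e.1, e.2.1), (e.1 - 1, e.2.1), (e.1 - 1, e.2.1)] : Fin 3 → _) e.2.2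

def s2 (e : Ed) : ℤ × ℤ :=
  (![(e.1 - 1, e.2.1 + 1), (e.1 - 1, e.2.1 + 1), (e.1, e.2.1)] : Fin 3 → _) e.2.2

/-- the twelve outward edges -/
def out : Fin 12 → Ed :=
  ![(-1, 2, 2), (0, 2, 2), (1, 1, 0), (2, 0, 0), (3, -1, 1), (3, -2, 1), (2, -2, 2), (1, -2, 2),
    (0, -2, 0), (-1, -1, 0), (-1, 0, 1), (-1, 1, 1)]

/-- the state of the centre (index of a ring hexagon) -/
def al : Fin 12 → Fin 12 := ![0, 2, 2, 4, 4, 6, 6, 8, 8, 10, 10, 0]

def sp1 : Fin 12 → ℤ × ℤ :=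
  ![(0, 1), (-1, 1), (1, 0), (0, 1), (1, -1), (1, 0), (0, -1), (1, -1), (-1, 0), (0, -1),
    (-1, 1), (-1, 0)]

def sp2 : Fin 12 → ℤ × ℤ :=
  ![(1, 0), (-1, 0), (1, -1), (-1, 1), (0, -1), (0, 1), (-1, 0), (1, 0), (-1, 1), (1, -1),
    (0, 1), (0, -1)]

def idx (i : Fin 12) (h : ℤ × ℤ) : Fin 12 :=
  if h = (-2, 2) then 0 else if h = (-1, 2) then 1 else if h = (0, 2) then 2 else
  if h = (1, 1) then 3 else if h = (2, 0) then 4 else if h = (2, -1) then 5 else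
  if h = (2, -2) then 6 else if h = (1, -2) then 7 else if h = (0, -2) then 8 else
  if h = (-1, -1) then 9 else if h = (-2, 0) then 10 else if h = (-2, 1) then 11 else al i

def flg (i : Fin 12) (h : ℤ × ℤ) : Bool := decide (h = sp1 i) || decide (h = sp2 i)

def yy : Fin 12 → Vx :=
  ![(-1, 1, false), (0, 1, false), (1, 1, true), (2, 0, true), (2, -1, false), (2, -2, false),
    (2, -2, true), (1, -2, true), (0, -2, false), (-1, -1, false), (-1, 0, true), (-1, 1, true)]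

def zz : Fin 12 → Vx :=
  ![(0, 1, true), (0, 1, true), (1, 0, false), (1, 0, false), (2, -1, true), (2, -1, true),
    (1, -2, false), (1, -2, false), (0, -1, true), (0, -1, true), (-1, 0, false), (-1, 0, false)]

def g1 : Fin 12 → Ed :=
  ![(0, 1, 1), (0, 1, 0), (1, 1, 2), (2, 0, 1), (2, -1, 0), (2, -1, 2), (2, -2, 1), (1, -2, 0),
    (0, -1, 2), (0, -1, 1), (-1, 0, 0), (-1, 1, 2)]

def g2 : Fin 12 → Ed :=
  ![(0, 1, 2), (0, 1, 2), (1, 0, 0), (1, 0, 0), (2, -1, 1), (2, -1, 1), (1, -1, 2), (1, -1, 2),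
    (0, -1, 0), (0, -1, 0), (0, 0, 1), (0, 0, 1)]

def kk : Fin 12 → Fin 6 := ![1, 5, 2, 0, 3, 1, 4, 2, 5, 3, 0, 4]

def fin : Fin 12 → Fin 6 := ![1, 1, 2, 2, 3, 3, 4, 4, 5, 5, 0, 0]

set_option maxRecDepth 100000 in
theorem F1 : ∀ v ∈ fV (0, 0), ∀ m : Fin 3, inc v m ∈ flower (0, 0) ∨ ∃ j, inc v m = out j := by
  decide

set_option maxRecDepth 100000 in
theorem F1' : ∀ j, out j ∉ flower (0, 0) := by
  decide

theorem F2 : ∀ i j : Fin 12, ((idx i (s1 (out j)) = j ∧ idx i (s2 (out j)) = j + 1) ∨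
    (idx i (s2 (out j)) = j ∧ idx i (s1 (out j)) = j + 1)) ∧
    flg i (s1 (out j)) = false ∧ flg i (s2 (out j)) = false := by
  decide

theorem F3 : ∀ (i : Fin 12) (j : Fin 6), idx i (s1 (hx (0, 0) j)) = idx i (s2 (hx (0, 0) j)) ∧
    ((flg i (s1 (hx (0, 0) j)) ≠ flg i (s2 (hx (0, 0) j))) ↔ (j = kk i ∨ j = kk i + 1)) := by
  decide

set_option maxRecDepth 100000 in
theorem F4a : ∀ i : Fin 12, yy i ∈ fV (0, 0) ∧ (up (out i) = yy i ∨ dn (out i) = yy i) := by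
  decide

set_option maxRecDepth 100000 in
theorem F4b : ∀ i : Fin 12, g1 i ∈ flower (0, 0) ∧ g1 i ∉ hex (0, 0) ∧ g2 i ∈ flower (0, 0) ∧
    g2 i ∉ hex (0, 0) := by
  decide

theorem F4c : ∀ i : Fin 12,
    ((up (g1 i) = yy i ∧ dn (g1 i) = zz i) ∨ (up (g1 i) = zz i ∧ dn (g1 i) = yy i)) := by
  decide

theorem F4d : ∀ i : Fin 12,
    ((up (g2 i) = zz i ∧ dn (g2 i) = hv (0, 0) (fin i)) ∨
      (up (g2 i) = hv (0, 0) (fin i) ∧ dn (g2 i) = zz i)) ∧
    (fin i = kk i ∨ fin i = kk i + 2) := by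
  decide

theorem F5 : ∀ i : Fin 12, ((idx i (s1 (g1 i)) = i ∧ idx i (s2 (g1 i)) = i + 1) ∨
    (idx i (s2 (g1 i)) = i ∧ idx i (s1 (g1 i)) = i + 1)) ∧
    flg i (s1 (g1 i)) = false ∧ flg i (s2 (g1 i)) = false ∧
    idx i (s1 (g2 i)) = idx i (s2 (g2 i)) ∧ flg i (s1 (g2 i)) ≠ flg i (s2 (g2 i)) := by
  decide

set_option maxRecDepth 100000 in
theorem parity (ω : Finset Ed) (h : ∀ v ∈ fV (0, 0), deg ω v = 0 ∨ deg ω v = 2) :
    ∀ X : Ed → ℕ, (∀ g, X g = if g ∈ ω then 1 else 0) →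
    (X (-1, 2, 2) + X (0, 2, 2) + X (1, 1, 0) + X (2, 0, 0) + X (3, -1, 1) + X (3, -2, 1) + X (2, -2, 2) + X (1, -2, 2) + X (0, -2, 0) + X (-1, -1, 0) + X (-1, 0, 1) + X (-1, 1, 1)) % 2 = 0 := by
  intro X hX
  have key : ∀ v ∈ fV (0, 0), (X (inc v 0) + X (inc v 1) + X (inc v 2)) % 2 = 0 := by
    intro v hv
    have h0 := h v hv
    rw [deg_eq, Fin.sum_univ_three, ← hX, ← hX, ← hX] at h0
    omega
  have h0 : (X (-1, -1, 0) + X (0, -1, 1) + X (-1, 0, 2)) % 2 = 0 := key (-1, -1, false) (by decide)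
  have h1 : (X (-1, 0, 0) + X (0, 0, 1) + X (-1, 1, 2)) % 2 = 0 := key (-1, 0, false) (by decide)
  have h2 : (X (-1, 0, 0) + X (-1, 0, 1) + X (-1, 0, 2)) % 2 = 0 := key (-1, 0, true) (by decide)
  have h3 : (X (-1, 1, 0) + X (0, 1, 1) + X (-1, 2, 2)) % 2 = 0 := key (-1, 1, false) (by decide)
  have h4 : (X (-1, 1, 0) + X (-1, 1, 1) + X (-1, 1, 2)) % 2 = 0 := key (-1, 1, true) (by decide)
  have h5 : (X (0, -2, 0) + X (1, -2, 1) + X (0, -1, 2)) % 2 = 0 := key (0, -2, false) (by decide)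
  have h6 : (X (0, -1, 0) + X (1, -1, 1) + X (0, 0, 2)) % 2 = 0 := key (0, -1, false) (by decide)
  have h7 : (X (0, -1, 0) + X (0, -1, 1) + X (0, -1, 2)) % 2 = 0 := key (0, -1, true) (by decide)
  have h8 : (X (0, 0, 0) + X (1, 0, 1) + X (0, 1, 2)) % 2 = 0 := key (0, 0, false) (by decide)
  have h9 : (X (0, 0, 0) + X (0, 0, 1) + X (0, 0, 2)) % 2 = 0 := key (0, 0, true) (by decide)
  have h10 : (X (0, 1, 0) + X (1, 1, 1) + X (0, 2, 2)) % 2 = 0 := key (0, 1, false) (by decide)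
  have h11 : (X (0, 1, 0) + X (0, 1, 1) + X (0, 1, 2)) % 2 = 0 := key (0, 1, true) (by decide)
  have h12 : (X (1, -2, 0) + X (2, -2, 1) + X (1, -1, 2)) % 2 = 0 := key (1, -2, false) (by decide)
  have h13 : (X (1, -2, 0) + X (1, -2, 1) + X (1, -2, 2)) % 2 = 0 := key (1, -2, true) (by decide)
  have h14 : (X (1, -1, 0) + X (2, -1, 1) + X (1, 0, 2)) % 2 = 0 := key (1, -1, false) (by decide)
  have h15 : (X (1, -1, 0) + X (1, -1, 1) + X (1, -1, 2)) % 2 = 0 := key (1, -1, true) (by decide)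
  have h16 : (X (1, 0, 0) + X (2, 0, 1) + X (1, 1, 2)) % 2 = 0 := key (1, 0, false) (by decide)
  have h17 : (X (1, 0, 0) + X (1, 0, 1) + X (1, 0, 2)) % 2 = 0 := key (1, 0, true) (by decide)
  have h18 : (X (1, 1, 0) + X (1, 1, 1) + X (1, 1, 2)) % 2 = 0 := key (1, 1, true) (by decide)
  have h19 : (X (2, -2, 0) + X (3, -2, 1) + X (2, -1, 2)) % 2 = 0 := key (2, -2, false) (by decide)
  have h20 : (X (2, -2, 0) + X (2, -2, 1) + X (2, -2, 2)) % 2 = 0 := key (2, -2, true) (by decide)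
  have h21 : (X (2, -1, 0) + X (3, -1, 1) + X (2, 0, 2)) % 2 = 0 := key (2, -1, false) (by decide)
  have h22 : (X (2, -1, 0) + X (2, -1, 1) + X (2, -1, 2)) % 2 = 0 := key (2, -1, true) (by decide)
  have h23 : (X (2, 0, 0) + X (2, 0, 1) + X (2, 0, 2)) % 2 = 0 := key (2, 0, true) (by decide)
  omega

theorem exists_rho (ω : Finset Ed) (h : ∀ v ∈ fV (0, 0), deg ω v = 0 ∨ deg ω v = 2) :
    ∃ ρ : Fin 12 → Bool, ∀ j, out j ∈ ω ↔ ρ j ≠ ρ (j + 1) := by
  classical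
  obtain ⟨X, hX⟩ : ∃ X : Ed → ℕ, ∀ g, X g = if g ∈ ω then 1 else 0 := ⟨_, fun _ => rfl⟩
  have hp := parity ω h X hX
  have hm : ∀ g, (g ∈ ω ↔ X g = 1) ∧ X g ≤ 1 := by
    intro g
    rw [hX]
    by_cases hg : g ∈ ω <;> simp [hg]
  let P : Fin 12 → ℕ := ![0,
    X (out 0),
    X (out 0) + X (out 1),
    X (out 0) + X (out 1) + X (out 2),
    X (out 0) + X (out 1) + X (out 2) + X (out 3),
    X (out 0) + X (out 1) + X (out 2) + X (out 3) + X (out 4),
    X (out 0) + X (out 1) + X (out 2) + X (out 3) + X (out 4) + X (out 5),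
    X (out 0) + X (out 1) + X (out 2) + X (out 3) + X (out 4) + X (out 5) + X (out 6),
    X (out 0) + X (out 1) + X (out 2) + X (out 3) + X (out 4) + X (out 5) + X (out 6) + X (out 7),
    X (out 0) + X (out 1) + X (out 2) + X (out 3) + X (out 4) + X (out 5) + X (out 6) + X (out 7) + X (out 8),
    X (out 0) + X (out 1) + X (out 2) + X (out 3) + X (out 4) + X (out 5) + X (out 6) + X (out 7) + X (out 8) + X (out 9),
    X (out 0) + X (out 1) + X (out 2) + X (out 3) + X (out 4) + X (out 5) + X (out 6) + X (out 7) + X (out 8) + X (out 9) + X (out 10)]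
  refine ⟨fun j => decide (P j % 2 = 1), fun j => ?_⟩
  rw [(hm _).1]
  simp only [ne_eq, decide_eq_decide]
  have hp' : (X (out 0) + X (out 1) + X (out 2) + X (out 3) + X (out 4) + X (out 5) + X (out 6) + X (out 7) + X (out 8) + X (out 9) + X (out 10) + X (out 11)) % 2 = 0 := hp
  have b0 := (hm (out 0)).2
  have b1 := (hm (out 1)).2
  have b2 := (hm (out 2)).2
  have b3 := (hm (out 3)).2
  have b4 := (hm (out 4)).2
  have b5 := (hm (out 5)).2
  have b6 := (hm (out 6)).2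
  have b7 := (hm (out 7)).2
  have b8 := (hm (out 8)).2
  have b9 := (hm (out 9)).2
  have b10 := (hm (out 10)).2
  have b11 := (hm (out 11)).2
  fin_cases j
  · change X (out 0) = 1 ↔ ¬(((0) % 2 = 1) ↔ ((X (out 0)) % 2 = 1))
    omega
  · change X (out 1) = 1 ↔ ¬(((X (out 0)) % 2 = 1) ↔ ((X (out 0) + X (out 1)) % 2 = 1))
    omega
  · change X (out 2) = 1 ↔ ¬(((X (out 0) + X (out 1)) % 2 = 1) ↔ ((X (out 0) + X (out 1) + X (out 2)) % 2 = 1))
    omega
  · change X (out 3) = 1 ↔ ¬(((X (out 0) + X (out 1) + X (out 2)) % 2 = 1) ↔ ((X (out 0) + X (out 1) + X (out 2) + X (out 3)) % 2 = 1))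
    omega
  · change X (out 4) = 1 ↔ ¬(((X (out 0) + X (out 1) + X (out 2) + X (out 3)) % 2 = 1) ↔ ((X (out 0) + X (out 1) + X (out 2) + X (out 3) + X (out 4)) % 2 = 1))
    omega
  · change X (out 5) = 1 ↔ ¬(((X (out 0) + X (out 1) + X (out 2) + X (out 3) + X (out 4)) % 2 = 1) ↔ ((X (out 0) + X (out 1) + X (out 2) + X (out 3) + X (out 4) + X (out 5)) % 2 = 1))
    omega
  · change X (out 6) = 1 ↔ ¬(((X (out 0) + X (out 1) + X (out 2) + X (out 3) + X (out 4) + X (out 5)) % 2 = 1) ↔ ((X (out 0) + X (out 1) + X (out 2) + X (out 3) + X (out 4) + X (out 5) + X (out 6)) % 2 = 1))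
    omega
  · change X (out 7) = 1 ↔ ¬(((X (out 0) + X (out 1) + X (out 2) + X (out 3) + X (out 4) + X (out 5) + X (out 6)) % 2 = 1) ↔ ((X (out 0) + X (out 1) + X (out 2) + X (out 3) + X (out 4) + X (out 5) + X (out 6) + X (out 7)) % 2 = 1))
    omega
  · change X (out 8) = 1 ↔ ¬(((X (out 0) + X (out 1) + X (out 2) + X (out 3) + X (out 4) + X (out 5) + X (out 6) + X (out 7)) % 2 = 1) ↔ ((X (out 0) + X (out 1) + X (out 2) + X (out 3) + X (out 4) + X (out 5) + X (out 6) + X (out 7) + X (out 8)) % 2 = 1))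
    omega
  · change X (out 9) = 1 ↔ ¬(((X (out 0) + X (out 1) + X (out 2) + X (out 3) + X (out 4) + X (out 5) + X (out 6) + X (out 7) + X (out 8)) % 2 = 1) ↔ ((X (out 0) + X (out 1) + X (out 2) + X (out 3) + X (out 4) + X (out 5) + X (out 6) + X (out 7) + X (out 8) + X (out 9)) % 2 = 1))
    omega
  · change X (out 10) = 1 ↔ ¬(((X (out 0) + X (out 1) + X (out 2) + X (out 3) + X (out 4) + X (out 5) + X (out 6) + X (out 7) + X (out 8) + X (out 9)) % 2 = 1) ↔ ((X (out 0) + X (out 1) + X (out 2) + X (out 3) + X (out 4) + X (out 5) + X (out 6) + X (out 7) + X (out 8) + X (out 9) + X (out 10)) % 2 = 1))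
    omega
  · change X (out 11) = 1 ↔ ¬(((X (out 0) + X (out 1) + X (out 2) + X (out 3) + X (out 4) + X (out 5) + X (out 6) + X (out 7) + X (out 8) + X (out 9) + X (out 10)) % 2 = 1) ↔ ((0) % 2 = 1))
    omega

/-- the parity of three states -/
theorem three (σ : ℤ × ℤ → Bool) (v : Vx) :
    (∑ m : Fin 3, if σ (s1 (inc v m)) ≠ σ (s2 (inc v m)) then 1 else 0) = 0 ∨
    (∑ m : Fin 3, if σ (s1 (inc v m)) ≠ σ (s2 (inc v m)) then 1 else 0) = 2 := by
  obtain ⟨a, b, s⟩ := v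
  cases s
  · have h1 : s1 (inc (a, b, false) 0) = (a, b) := rfl
    have h2 : s2 (inc (a, b, false) 0) = (a - 1, b + 1) := rfl
    have h3 : s1 (inc (a, b, false) 1) = (a, b) := by simp [s1, inc]
    have h4 : s2 (inc (a, b, false) 1) = (a, b + 1) := by simp [s2, inc]
    have h5 : s1 (inc (a, b, false) 2) = (a - 1, b + 1) := rfl
    have h6 : s2 (inc (a, b, false) 2) = (a, b + 1) := rfl
    rw [Fin.sum_univ_three, h1, h2, h3, h4, h5, h6]
    cases σ (a, b) <;> cases σ (a - 1, b + 1) <;> cases σ (a, b + 1) <;> simp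
  · have h1 : s1 (inc (a, b, true) 0) = (a, b) := rfl
    have h2 : s2 (inc (a, b, true) 0) = (a - 1, b + 1) := rfl
    have h3 : s1 (inc (a, b, true) 1) = (a - 1, b) := rfl
    have h4 : s2 (inc (a, b, true) 1) = (a - 1, b + 1) := rfl
    have h5 : s1 (inc (a, b, true) 2) = (a - 1, b) := rfl
    have h6 : s2 (inc (a, b, true) 2) = (a, b) := rfl
    rw [Fin.sum_univ_three, h1, h2, h3, h4, h5, h6]
    cases σ (a, b) <;> cases σ (a - 1, b + 1) <;> cases σ (a - 1, b) <;> simp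

theorem main0 (ω : Finset Ed) (e : Ed) (h : ∀ v ∈ fV (0, 0), deg ω v = 0 ∨ deg ω v = 2)
    (he : e ∈ ω) (hf : e ∉ flower (0, 0)) (hve : up e ∈ fV (0, 0) ∨ dn e ∈ fV (0, 0)) :
    ∃ ω' : Finset Ed, (∀ f, f ∉ flower (0, 0) → (f ∈ ω' ↔ f ∈ ω)) ∧
      (∀ v ∈ fV (0, 0), deg ω' v = 0 ∨ deg ω' v = 2) ∧ GoodFl ω' (0, 0) e := by
  obtain ⟨i, rfl⟩ : ∃ i, e = out i := by
    have h1 : ∃ v ∈ fV (0, 0), up e = v ∨ dn e = v := by
      rcases hve with h | h
      · exact ⟨_, h, Or.inl rfl⟩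
      · exact ⟨_, h, Or.inr rfl⟩
    obtain ⟨v, hv1, hv2⟩ := h1
    obtain ⟨m, rfl⟩ := (mem_inc e v).1 hv2
    rcases F1 v hv1 m with h | h
    · exact absurd h hf
    · exact h
  obtain ⟨ρ, hρ⟩ := exists_rho ω h
  obtain ⟨σ, hσ⟩ : ∃ σ : ℤ × ℤ → Bool, ∀ x, σ x = ((ρ (idx i x)) ^^ flg i x) :=
    ⟨_, fun _ => rfl⟩
  have hi := (hρ i).1 he
  -- the states at outward edges
  have hout : ∀ j, out j ∈ ω ↔ σ (s1 (out j)) ≠ σ (s2 (out j)) := by
    intro j
    rw [hρ, hσ, hσ]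
    obtain ⟨h1, h2, h3⟩ := F2 i j
    rw [h2, h3]
    rcases h1 with ⟨h1, h1'⟩ | ⟨h1, h1'⟩
    · rw [h1, h1']; simp
    · rw [h1, h1']; simp [ne_comm]
  let ω' : Finset Ed := (ω \ flower (0, 0)) ∪
    (flower (0, 0)).filter (fun f => σ (s1 f) ≠ σ (s2 f))
  have m1 : ∀ f, f ∉ flower (0, 0) → (f ∈ ω' ↔ f ∈ ω) := by
    intro f hf
    simp [ω', hf]
  have m2 : ∀ f, f ∈ flower (0, 0) → (f ∈ ω' ↔ σ (s1 f) ≠ σ (s2 f)) := by
    intro f hf
    simp [ω', hf]
  refine ⟨ω', m1, ?_, ?_⟩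
  · intro v hv
    have h1 : ∀ m, inc v m ∈ ω' ↔ σ (s1 (inc v m)) ≠ σ (s2 (inc v m)) := by
      intro m
      rcases F1 v hv m with h | ⟨j, hj⟩
      · exact m2 _ h
      · rw [hj, m1 _ (F1' j), hout]
    rw [deg_eq]
    simp only [h1]
    exact three σ v
  · obtain ⟨hy, hy'⟩ := F4a i
    obtain ⟨hg1, hg1', hg2, hg2'⟩ := F4b i
    obtain ⟨hq, hq'⟩ := F4d i
    obtain ⟨r1, r2, r3, r4, r5⟩ := F5 i
    have a1 : g1 i ∈ ω' := by
      rw [m2 _ hg1, hσ, hσ, r2, r3]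
      rcases r1 with ⟨r, r'⟩ | ⟨r, r'⟩
      · rw [r, r']; simpa using hi
      · rw [r, r']; simpa [ne_comm] using hi
    have a2 : g2 i ∈ ω' := by
      rw [m2 _ hg2, hσ, hσ, r4]
      simpa using r5
    have reach : Reach ((ω' ∩ flower (0, 0)) \ hex (0, 0)) (yy i) (hv (0, 0) (fin i)) := by
      refine Relation.ReflTransGen.head (b := zz i) ?_ (Relation.ReflTransGen.single ?_)
      · exact ⟨g1 i, by simp [a1, hg1, hg1'], F4c i⟩
      · exact ⟨g2 i, by simp [a2, hg2, hg2'], hq⟩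
    refine ⟨kk i, Or.inl ?_, yy i, hy, hy', ?_⟩
    · ext f
      simp only [Finset.mem_inter, Finset.mem_insert, Finset.mem_singleton]
      constructor
      · rintro ⟨h1, h2⟩
        obtain ⟨j, -, rfl⟩ := Finset.mem_image.1 h2
        have h3 : hx (0, 0) j ∈ flower (0, 0) := Finset.mem_union_left _ h2
        rw [m2 _ h3, hσ, hσ, (F3 i j).1] at h1
        have h4 : flg i (s1 (hx (0, 0) j)) ≠ flg i (s2 (hx (0, 0) j)) := by simpa using h1
        rcases (F3 i j).2.1 h4 with h | h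
        · left; rw [h]
        · right; rw [h]
      · have h5 : ∀ j, (j = kk i ∨ j = kk i + 1) → hx (0, 0) j ∈ ω' ∧ hx (0, 0) j ∈ hex (0, 0) := by
          intro j hj
          have h2 : hx (0, 0) j ∈ hex (0, 0) := Finset.mem_image_of_mem _ (Finset.mem_univ _)
          have h3 : hx (0, 0) j ∈ flower (0, 0) := Finset.mem_union_left _ h2
          refine ⟨?_, h2⟩
          rw [m2 _ h3, hσ, hσ, (F3 i j).1]
          simpa using (F3 i j).2.2 hj
        rintro (rfl | rfl)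
        · exact h5 _ (Or.inl rfl)
        · exact h5 _ (Or.inr rfl)
    · rcases hq' with h | h
      · left; rw [← h]; exact reach
      · right; rw [← h]; exact reach

/-! ### Translation -/

/-- translation of edges -/
def sh (t : ℤ × ℤ) (f : Ed) : Ed := (t.1 + f.1, t.2 + f.2.1, f.2.2)

/-- translation of vertices -/
def shv (t : ℤ × ℤ) (v : Vx) : Vx := (t.1 + v.1, t.2 + v.2.1, v.2.2)

theorem sh_inj (t : ℤ × ℤ) : Function.Injective (sh t) := by
  rintro ⟨a, b, c⟩ ⟨a', b', c'⟩ h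
  simp only [sh, Prod.mk.injEq] at h ⊢
  obtain ⟨h1, h2, h3⟩ := h
  exact ⟨by omega, by omega, h3⟩

theorem shv_inj (t : ℤ × ℤ) : Function.Injective (shv t) := by
  rintro ⟨a, b, c⟩ ⟨a', b', c'⟩ h
  simp only [shv, Prod.mk.injEq] at h ⊢
  obtain ⟨h1, h2, h3⟩ := h
  exact ⟨by omega, by omega, h3⟩

theorem sh_surj (t : ℤ × ℤ) (f : Ed) : ∃ g, sh t g = f := by
  obtain ⟨a, b, c⟩ := f
  exact ⟨(a - t.1, b - t.2, c), by simp [sh]⟩

theorem up_sh (t : ℤ × ℤ) (f : Ed) : up (sh t f) = shv t (up f) := rfl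

theorem dn_sh (t : ℤ × ℤ) (f : Ed) : dn (sh t f) = shv t (dn f) := by
  obtain ⟨a, b, c⟩ := f
  simp only [dn, sh, shv, Prod.mk.injEq]
  exact ⟨by ring, by ring, trivial⟩

theorem hx_sh (t u : ℤ × ℤ) (k : Fin 6) : hx (t + u) k = sh t (hx u k) := by
  obtain ⟨p, q⟩ := t
  obtain ⟨a, b⟩ := u
  fin_cases k <;> simp [hx, sh] <;> omega

theorem hv_sh (t u : ℤ × ℤ) (k : Fin 6) : hv (t + u) k = shv t (hv u k) := by
  obtain ⟨p, q⟩ := t
  obtain ⟨a, b⟩ := u
  fin_cases k <;> simp [hv, shv] <;> omega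

theorem nb_sh (t u : ℤ × ℤ) (k : Fin 6) : nb (t + u) k = t + nb u k := by
  obtain ⟨p, q⟩ := t
  obtain ⟨a, b⟩ := u
  fin_cases k <;> simp [nb] <;> omega

theorem hex_sh (t u : ℤ × ℤ) : hex (t + u) = (hex u).image (sh t) := by
  unfold hex
  rw [Finset.image_image]
  congr 1
  funext k
  exact hx_sh t u k

theorem flower_sh (t u : ℤ × ℤ) : flower (t + u) = (flower u).image (sh t) := by
  have h : ∀ k, hex (nb (t + u) k) = (hex (nb u k)).image (sh t) := fun k => by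
    rw [nb_sh, hex_sh]
  unfold flower
  rw [Finset.image_union, Finset.biUnion_image, hex_sh]
  simp only [h]

theorem fV_sh (t u : ℤ × ℤ) : fV (t + u) = (fV u).image (shv t) := by
  unfold fV
  rw [Finset.image_union, flower_sh, Finset.image_image, Finset.image_image, Finset.image_image,
    Finset.image_image]
  congr 1
  congr 1
  funext f
  exact dn_sh t f

theorem inc_sh (t : ℤ × ℤ) (v : Vx) (m : Fin 3) : inc (shv t v) m = sh t (inc v m) := by
  obtain ⟨p, q⟩ := t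
  obtain ⟨a, b, s⟩ := v
  cases s <;> fin_cases m <;> simp [inc, shv, sh] <;> omega

theorem deg_sh (t : ℤ × ℤ) (ω : Finset Ed) (v : Vx) : deg (ω.image (sh t)) (shv t v) = deg ω v := by
  rw [deg_eq, deg_eq]
  refine Finset.sum_congr rfl fun m _ => ?_
  rw [inc_sh]
  simp only [(sh_inj t).mem_finset_image]

theorem adj_sh (t : ℤ × ℤ) (ω : Finset Ed) (u v : Vx) (h : Adj ω u v) :
    Adj (ω.image (sh t)) (shv t u) (shv t v) := by
  obtain ⟨e, he, h⟩ := h
  refine ⟨sh t e, Finset.mem_image_of_mem _ he, ?_⟩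
  rw [up_sh, dn_sh]
  rcases h with ⟨rfl, rfl⟩ | ⟨rfl, rfl⟩
  · exact Or.inl ⟨rfl, rfl⟩
  · exact Or.inr ⟨rfl, rfl⟩

theorem reach_sh (t : ℤ × ℤ) (ω : Finset Ed) (u v : Vx) (h : Reach ω u v) :
    Reach (ω.image (sh t)) (shv t u) (shv t v) := by
  induction h with
  | refl => exact Relation.ReflTransGen.refl
  | tail _ h ih => exact Relation.ReflTransGen.tail ih (adj_sh t ω _ _ h)

theorem goodFl_sh (t u : ℤ × ℤ) (ω : Finset Ed) (e : Ed) (h : GoodFl ω u e) :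
    GoodFl (ω.image (sh t)) (t + u) (sh t e) := by
  obtain ⟨k, hk, y, hy, hy', hr⟩ := h
  refine ⟨k, ?_, shv t y, ?_, ?_, ?_⟩
  · rcases hk with h | h
    · left
      unfold Run at h ⊢
      rw [hex_sh, ← Finset.image_inter _ _ (sh_inj t), h, Finset.image_insert,
        Finset.image_singleton, hx_sh, hx_sh]
    · right
      unfold RunC at h ⊢
      rw [hex_sh, ← Finset.image_inter _ _ (sh_inj t), h, Finset.image_sdiff _ _ (sh_inj t),
        Finset.image_insert, Finset.image_singleton, hx_sh, hx_sh]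
  · rw [fV_sh]
    exact Finset.mem_image_of_mem _ hy
  · rw [up_sh, dn_sh]
    rcases hy' with h | h
    · left; rw [h]
    · right; rw [h]
  · rw [flower_sh, hex_sh, ← Finset.image_inter _ _ (sh_inj t),
      ← Finset.image_sdiff _ _ (sh_inj t), hv_sh, hv_sh]
    rcases hr with h | h
    · left; exact reach_sh t _ _ _ h
    · right; exact reach_sh t _ _ _ h

end Surg

theorem t_SURG : J_SURG := by
  classical
  intro t ω e hdeg he hf hve
  have ht : t + (0, 0) = t := by simp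
  -- the translated configuration
  let ω₀ : Finset Ed := ω.preimage (Surg.sh t) (Surg.sh_inj t).injOn
  have h0 : ω₀.image (Surg.sh t) = ω := by
    ext f
    simp only [ω₀, Finset.mem_image, Finset.mem_preimage]
    constructor
    · rintro ⟨g, hg, rfl⟩
      exact hg
    · intro hf
      obtain ⟨g, rfl⟩ := Surg.sh_surj t f
      exact ⟨g, hf, rfl⟩
  obtain ⟨e₀, rfl⟩ := Surg.sh_surj t e
  have hfl : flower t = (flower (0, 0)).image (Surg.sh t) := by
    rw [← Surg.flower_sh, ht]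
  have hfv : fV t = (fV (0, 0)).image (Surg.shv t) := by
    rw [← Surg.fV_sh, ht]
  obtain ⟨ω', h1, h2, h3⟩ := Surg.main0 ω₀ e₀
    (by
      intro v hv
      rw [← Surg.deg_sh t, h0]
      exact hdeg _ (by rw [hfv]; exact Finset.mem_image_of_mem _ hv))
    (by simpa [ω₀] using he)
    (by
      intro h
      apply hf
      rw [hfl]
      exact Finset.mem_image_of_mem _ h)
    (by
      rw [Surg.up_sh, Surg.dn_sh, hfv, (Surg.shv_inj t).mem_finset_image,
        (Surg.shv_inj t).mem_finset_image] at hve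
      exact hve)
  refine ⟨ω'.image (Surg.sh t), ?_, ?_, ?_⟩
  · intro f hf
    obtain ⟨g, rfl⟩ := Surg.sh_surj t f
    rw [hfl, (Surg.sh_inj t).mem_finset_image] at hf
    rw [(Surg.sh_inj t).mem_finset_image, h1 g hf]
    simp [ω₀]
  · intro v hv
    rw [hfv] at hv
    obtain ⟨w, hw, rfl⟩ := Finset.mem_image.1 hv
    rw [Surg.deg_sh]
    exact h2 w hw
  · have h4 := Surg.goodFl_sh t (0, 0) ω' e₀ h3
    rwa [ht] at h4

end Pool.Agent.H737ON
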