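import Pool.Agent.Run7.h737.ON.Iface
import Pool.Agent.Run7.h737.ON.GEO

set_option autoImplicit false

open scoped Classical

noncomputable section

namespace Pool.Agent.H737ON

theorem Wt.pow_le {y : ℝ} (hy : 0 < y) {p q N : ℕ} (h1 : p ≤ q + N) (h2 : q ≤ p + N) :
    y ^ p ≤ (max y y⁻¹) ^ N * y ^ q := by
  rcases le_total 1 y with h | h
  · calc y ^ p ≤ y ^ (q + N) := pow_le_pow_right₀ h h1
      _ = y ^ N * y ^ q := by rw [pow_add, mul_comm]
      _ ≤ _ := by
        apply mul_le_mul_of_nonneg_right _ (pow_nonneg hy.le _)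
        exact pow_le_pow_left₀ hy.le (le_max_left _ _) _
  · have h3 : y ^ (p + N) ≤ y ^ q := pow_le_pow_of_le_one hy.le h h2
    calc y ^ p = (y⁻¹) ^ N * y ^ (p + N) := by
          rw [pow_add, inv_pow]
          field_simp
      _ ≤ (y⁻¹) ^ N * y ^ q := by
        apply mul_le_mul_of_nonneg_left h3
        positivity
      _ ≤ _ := by
        apply mul_le_mul_of_nonneg_right _ (pow_nonneg hy.le _)
        exact pow_le_pow_left₀ (by positivity) (le_max_right _ _) _

theorem Wt.one_le_max {y : ℝ} (hy : 0 < y) : 1 ≤ max y y⁻¹ := by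
  rcases le_total 1 y with h | h
  · exact h.trans (le_max_left _ _)
  · exact ((one_le_inv₀ hy).2 h).trans (le_max_right _ _)

theorem Wt.card_le {t : ℤ × ℤ} {ω ω' : Finset Ed}
    (h : ∀ f, f ∉ flower t → (f ∈ ω' ↔ f ∈ ω)) : ω.card ≤ ω'.card + 42 := by
  have h1 : ω ⊆ ω' ∪ flower t := by
    intro e he
    rw [Finset.mem_union]
    by_cases hf : e ∈ flower t
    · exact Or.inr hf
    · exact Or.inl ((h e hf).2 he)
  have h2 := (Finset.card_le_card h1).trans (Finset.card_union_le _ _)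
  have h3 : (flower t).card ≤ 42 := (t_GEO.2.2.2.2.2.2.2 t).1
  omega

theorem t_WT (hL : J_LOOP) : J_WT := by
  intro n x hn hx
  refine ⟨(max x x⁻¹) ^ 42 * (max n n⁻¹) ^ 24, ?_, ?_⟩
  · have h1 := one_le_pow₀ (Wt.one_le_max hx) (n := 42)
    have h2 := one_le_pow₀ (Wt.one_le_max hn) (n := 24)
    nlinarith
  · intro a t ω ω' h
    have h' : ∀ f, f ∉ flower t → (f ∈ ω ↔ f ∈ ω') := fun f hf => (h f hf).symm
    have h1 := Wt.pow_le hx (Wt.card_le h) (Wt.card_le h')
    have h2 := Wt.pow_le hn (hL a t ω ω' h) (hL a t ω' ω h')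
    unfold wt
    calc x ^ ω.card * n ^ (loops a ω).card
        ≤ ((max x x⁻¹) ^ 42 * x ^ ω'.card) * ((max n n⁻¹) ^ 24 * n ^ (loops a ω').card) := by
          apply mul_le_mul h1 h2 (by positivity)
          positivity
      _ = _ := by ring

end Pool.Agent.H737ON
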