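import Pool.Agent.Run7.h737.ON.LOOP
import Pool.Agent.Run7.h737.ON.WT
import Pool.Agent.Run7.h737.ON.FIN1
import Pool.Agent.Run7.h737.ON.FIN2
import Pool.Agent.Run7.h737.ON.GLP
import Pool.Agent.Run7.h737.ON.PROB
import Pool.Agent.Run7.h737.ON.LSURG
import Pool.Agent.Run7.h737.ON.SURG
import Pool.Agent.Run7.h737.ON.ABS
import Pool.Agent.Run7.h737.ON.LFLIP
import Pool.Agent.Run7.h737.ON.HAND
import Pool.Agent.Run7.h737.ON.CLEV
import Pool.Agent.Run7.h737.ON.FLIPA
import Pool.Agent.Run7.h737.ON.FLIPB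
import Pool.Agent.Run7.h737.ON.RER

set_option autoImplicit false

namespace Pool.Agent.H737ON

theorem main : Statement := by
  have hG := t_GEO
  have hH := t_HAND
  have hV := t_CLEV hG
  have hC := t_CAND hG hH
  have hL := t_LOC hV
  have hFl := t_LFLIP hG t_FLIPA t_FLIPB t_RER hC hL
  have hS := t_LSURG t_SURG hC hV hL hG
  have hP := t_PROB hS (t_WT t_LOOP) hG
  exact t_FIN2 (t_FIN1 hFl hP t_ABS (t_GLP hG hC))

end Pool.Agent.H737ON
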